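import Pool.Agent.Helper89.MF.Chain

/-!
Map folding: soundness. A folding of the sheet gives a solution of the system.
-/

set_option autoImplicit false

namespace Pool.Agent.Helper89.MF

open Pool.Agent.Helper69.MF Pool.Agent.Helper69.MF.UP

/-- The wall at the row crease `w` is in the state `C` in the column `c`. -/
def isC (pos : Sq → ℕ) (c w : ℕ) : Prop :=
  wb pos c (w - 1) (w + 1) = true ∧ wb pos c w (w + 2) = false

/-- The wall at the row crease `w` is in the state `B` in the column `c`. -/
def isB (pos : Sq → ℕ) (c w : ℕ) : Prop :=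
  wb pos c (w - 1) (w + 1) = false ∧ wb pos c w (w + 2) = true

section

variable {I : Sys} {pos : Sq → ℕ} (hf : Fold I.pat (rect I.width I.height) pos)

include hf

/-- The wall bits are the same in adjacent columns. -/
theorem wallStep {c w : ℕ} (hc : c + 2 ≤ I.width) (hw : w + 6 ≤ I.height)
    (hT : ∀ i < 5, rhS (w + i) = Nat.testBit 27 i)
    (hq : ∀ i < 2, ∀ j < 6, I.flS (c + i) (w + j) = false) :
    wb pos c (w + 1) (w + 3) = wb pos (c + 1) (w + 1) (w + 3) ∧
      wb pos c (w + 2) (w + 4) = wb pos (c + 1) (w + 2) (w + 4) := by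
  have key : ∀ S p : ℕ, (∀ i, i + 1 < 2 → sgS (c + i) = Nat.testBit S i) → w % 2 = p →
      Win I 2 6 c w S 27 [] p := by
    intro S p hS hp
    exact ⟨by norm_num, hc, hw, hS, fun r hr => hT r (by omega), fun i j hi hj => by
      rw [hq i hi j hj]; rfl, hp⟩
  cases hs : sgS c <;> rcases Nat.mod_two_eq_zero_or_one w with hp | hp
  · have W := key 0 0 (fun i hi => by
      have : i = 0 := by omega
      subst this; rw [Nat.add_zero, hs]; rfl) hp
    exact ⟨W.eqwall hf 0 1 1 3 (by norm_num) (by norm_num) (by norm_num) (by norm_num)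
        (by norm_num) _ _ h0m1_0 h0m1_1,
      W.eqwall hf 0 1 2 4 (by norm_num) (by norm_num) (by norm_num) (by norm_num)
        (by norm_num) _ _ h0m2_0 h0m2_1⟩
  · have W := key 0 1 (fun i hi => by
      have : i = 0 := by omega
      subst this; rw [Nat.add_zero, hs]; rfl) hp
    exact ⟨W.eqwall hf 0 1 1 3 (by norm_num) (by norm_num) (by norm_num) (by norm_num)
        (by norm_num) _ _ h1m1_0 h1m1_1,
      W.eqwall hf 0 1 2 4 (by norm_num) (by norm_num) (by norm_num) (by norm_num)
        (by norm_num) _ _ h1m2_0 h1m2_1⟩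
  · have W := key 1 0 (fun i hi => by
      have : i = 0 := by omega
      subst this; rw [Nat.add_zero, hs]; rfl) hp
    exact ⟨W.eqwall hf 0 1 1 3 (by norm_num) (by norm_num) (by norm_num) (by norm_num)
        (by norm_num) _ _ h0p1_0 h0p1_1,
      W.eqwall hf 0 1 2 4 (by norm_num) (by norm_num) (by norm_num) (by norm_num)
        (by norm_num) _ _ h0p2_0 h0p2_1⟩
  · have W := key 1 1 (fun i hi => by
      have : i = 0 := by omega
      subst this; rw [Nat.add_zero, hs]; rfl) hp
    exact ⟨W.eqwall hf 0 1 1 3 (by norm_num) (by norm_num) (by norm_num) (by norm_num)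
        (by norm_num) _ _ h1p1_0 h1p1_1,
      W.eqwall hf 0 1 2 4 (by norm_num) (by norm_num) (by norm_num) (by norm_num)
        (by norm_num) _ _ h1p2_0 h1p2_1⟩

/-- The wall bits are the same in the columns `c` and `c + n`. -/
theorem wallRun {c g e : ℕ} (n : ℕ) (hc : c + n + 1 ≤ I.width) (hw : 52 * g + e + 6 ≤ I.height)
    (hT : ∀ i < 5, rhS (e + i) = Nat.testBit 27 i)
    (hq : ∀ i ≤ n, ∀ j < 6, I.flS (c + i) (52 * g + (e + j)) = false) :
    wb pos c (52 * g + e + 1) (52 * g + e + 3) = wb pos (c + n) (52 * g + e + 1) (52 * g + e + 3) ∧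
      wb pos c (52 * g + e + 2) (52 * g + e + 4) =
        wb pos (c + n) (52 * g + e + 2) (52 * g + e + 4) := by
  induction n with
  | zero => exact ⟨rfl, rfl⟩
  | succ n ih =>
    obtain ⟨i1, i2⟩ := ih (by omega) (fun i hi j hj => hq i (by omega) j hj)
    obtain ⟨j1, j2⟩ := wallStep hf (c := c + n) (w := 52 * g + e) (by omega) hw
      (fun i hi => by rw [Nat.add_assoc, rh_loc]; exact hT i hi)
      (fun i hi j hj => by
        rw [Nat.add_assoc c n i, Nat.add_assoc (52 * g) e j]
        exact hq (n + i) (by omega) j hj)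
    rw [i1, i2, j1, j2, Nat.add_assoc c n 1]
    exact ⟨rfl, rfl⟩

/-- The first test. -/
theorem test0 {g : ℕ} (hN : I.lv g 0 < I.N) (h1 : I.lv g 1 < I.N) (hr : 52 * g + 9 ≤ I.height)
    (hx : bX pos (I.N + I.lv g 0) (52 * g + 2) = I.ls g 0) :
    isC pos (12 * (I.N + I.lv g 0) + 1) (52 * g + 4) := by
  have hb : I.N + I.lv g 0 < 2 * I.N := by omega
  have hp : (52 * g + (3 - 2)) % 2 = 1 := by omega
  have hfl := fl_gad0 (I := I) (b := I.N + I.lv g 0) (g := g) rfl (by omega) h1
  cases hs : I.ls g 0
  · have W := gadWin (I := I) (k := 1) (w := 10) (S := 307) (a := 3) hb (by omega) (by norm_num)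
      (by norm_num) (by norm_num)
      (L := [105, 202, 204, 205, 302, 305, 402, 404, 405, 505, 605, 702, 704, 705, 804, 805, 902, 905])
      (fun c hc => by
        have : c < 9 := by omega
        interval_cases c <;> decide) (by decide) false hfl
      (by rw [hs]; decide) hp
    rw [hs] at hx
    exact ⟨W.force hf 3 5 1 0 2 4 false true (by norm_num) (by norm_num) (by norm_num)
        (by norm_num) (by norm_num) (by norm_num) (by norm_num) (by norm_num) _ xTC0_1 hx,
      W.force hf 3 5 1 0 3 5 false false (by norm_num) (by norm_num) (by norm_num)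
        (by norm_num) (by norm_num) (by norm_num) (by norm_num) (by norm_num) _ xTC0_2 hx⟩
  · have W := gadWin (I := I) (k := 1) (w := 10) (S := 307) (a := 3) hb (by omega) (by norm_num)
      (by norm_num) (by norm_num)
      (L := [105, 202, 204, 205, 302, 305, 402, 404, 405, 502, 505, 602, 604, 605, 702, 705, 804,
        805, 902, 905])
      (fun c hc => by
        have : c < 9 := by omega
        interval_cases c <;> decide) (by decide) false hfl
      (by rw [hs]; decide) hp
    rw [hs] at hx
    exact ⟨W.force hf 3 5 1 0 2 4 true true (by norm_num) (by norm_num) (by norm_num)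
        (by norm_num) (by norm_num) (by norm_num) (by norm_num) (by norm_num) _ xTC1_1 hx,
      W.force hf 3 5 1 0 3 5 true false (by norm_num) (by norm_num) (by norm_num)
        (by norm_num) (by norm_num) (by norm_num) (by norm_num) (by norm_num) _ xTC1_2 hx⟩

/-- The third test. -/
theorem test2 {g : ℕ} (hN : I.lv g 2 < I.N) (h1 : I.lv g 1 < I.N) (hr : 52 * g + 35 ≤ I.height)
    (hx : bX pos (I.N + I.lv g 2) (52 * g + 28) = I.ls g 2) :
    isB pos (12 * (I.N + I.lv g 2) + 1) (52 * g + 30) := by
  have hb : I.N + I.lv g 2 < 2 * I.N := by omega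
  have hp : (52 * g + (29 - 2)) % 2 = 1 := by omega
  have hfl := fl_gad2 (I := I) (b := I.N + I.lv g 2) (g := g) rfl (by omega) h1
  cases hs : I.ls g 2
  · have W := gadWin (I := I) (k := 1) (w := 10) (S := 307) (a := 29) hb (by omega) (by norm_num)
      (by norm_num) (by norm_num)
      (L := [102, 202, 203, 205, 302, 305, 402, 403, 405, 502, 602, 702, 703, 705, 802, 803, 902, 905])
      (fun c hc => by
        have : c < 9 := by omega
        interval_cases c <;> decide) (by decide) false hfl
      (by rw [hs]; decide) hp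
    rw [hs] at hx
    exact ⟨W.force hf 3 5 1 0 2 4 false false (by norm_num) (by norm_num) (by norm_num)
        (by norm_num) (by norm_num) (by norm_num) (by norm_num) (by norm_num) _ xTB0_1 hx,
      W.force hf 3 5 1 0 3 5 false true (by norm_num) (by norm_num) (by norm_num)
        (by norm_num) (by norm_num) (by norm_num) (by norm_num) (by norm_num) _ xTB0_2 hx⟩
  · have W := gadWin (I := I) (k := 1) (w := 10) (S := 307) (a := 29) hb (by omega) (by norm_num)
      (by norm_num) (by norm_num)
      (L := [102, 202, 203, 205, 302, 305, 402, 403, 405, 502, 505, 602, 603, 605, 702, 705, 802,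
        803, 902, 905])
      (fun c hc => by
        have : c < 9 := by omega
        interval_cases c <;> decide) (by decide) false hfl
      (by rw [hs]; decide) hp
    rw [hs] at hx
    exact ⟨W.force hf 3 5 1 0 2 4 true false (by norm_num) (by norm_num) (by norm_num)
        (by norm_num) (by norm_num) (by norm_num) (by norm_num) (by norm_num) _ xTB1_1 hx,
      W.force hf 3 5 1 0 3 5 true true (by norm_num) (by norm_num) (by norm_num)
        (by norm_num) (by norm_num) (by norm_num) (by norm_num) (by norm_num) _ xTB1_2 hx⟩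

/-- The second test. -/
theorem test1 {g : ℕ} (h1 : I.lv g 1 < I.N) (hr : 52 * g + 18 ≤ I.height)
    (hx : bY pos (I.lv g 1) (52 * g + 11) = I.ls g 1) :
    isC pos (12 * I.lv g 1 + 11) (52 * g + 13) := by
  have hb : I.lv g 1 < 2 * I.N := by omega
  have hp : (52 * g + (12 - 2)) % 2 = 0 := by omega
  have hfl := fl_gad1 (I := I) (b := I.lv g 1) (g := g) rfl
  cases hs : I.ls g 1
  · have W := gadWin (I := I) (k := 2) (w := 10) (S := 409) (a := 12) hb (by omega) (by norm_num)
      (by norm_num) (by norm_num)
      (L := [2, 5, 104, 105, 202, 204, 205, 305, 405, 502, 504, 505, 602, 605, 702, 704, 705, 805])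
      (fun c hc => by
        have : c < 9 := by omega
        interval_cases c <;> decide) (by decide) true hfl
      (by rw [hs]; decide) hp
    rw [hs] at hx
    exact ⟨W.force hf 4 6 1 9 2 4 false true (by norm_num) (by norm_num) (by norm_num)
        (by norm_num) (by norm_num) (by norm_num) (by norm_num) (by norm_num) _ yTC0_1 hx,
      W.force hf 4 6 1 9 3 5 false false (by norm_num) (by norm_num) (by norm_num)
        (by norm_num) (by norm_num) (by norm_num) (by norm_num) (by norm_num) _ yTC0_2 hx⟩
  · have W := gadWin (I := I) (k := 2) (w := 10) (S := 409) (a := 12) hb (by omega) (by norm_num)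
      (by norm_num) (by norm_num)
      (L := [2, 5, 104, 105, 202, 205, 302, 304, 305, 402, 405, 502, 504, 505, 602, 605, 702, 704,
        705, 805])
      (fun c hc => by
        have : c < 9 := by omega
        interval_cases c <;> decide) (by decide) true hfl
      (by rw [hs]; decide) hp
    rw [hs] at hx
    exact ⟨W.force hf 4 6 1 9 2 4 true true (by norm_num) (by norm_num) (by norm_num)
        (by norm_num) (by norm_num) (by norm_num) (by norm_num) (by norm_num) _ yTC1_1 hx,
      W.force hf 4 6 1 9 3 5 true false (by norm_num) (by norm_num) (by norm_num)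
        (by norm_num) (by norm_num) (by norm_num) (by norm_num) (by norm_num) _ yTC1_2 hx⟩

/-- The clause column: the three tested walls cannot be in the states `C`, `C`, `B`. -/
theorem clauseCol {g : ℕ} (hN : 0 < I.N) (hr : 52 * g + 35 ≤ I.height)
    (h0 : isC pos (12 * I.N - 1) (52 * g + 4)) (h1 : isC pos (12 * I.N - 1) (52 * g + 13))
    (h2 : isB pos (12 * I.N - 1) (52 * g + 30)) : False := by
  have W : Win I 1 34 (12 * I.N - 1) (52 * g + 1) 0 8050962423 [] 1 := by
    refine ⟨by norm_num, by unfold Sys.width; omega, hr, fun c hc => by omega, ?_, ?_, by omega⟩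
    · intro r hr
      rw [Nat.add_assoc, rh_loc]
      have h33 : r < 33 := by omega
      clear hr
      revert r
      decide
    · intro c r hc hr
      have e0 : c = 0 := by omega
      subst e0
      rw [Nat.add_zero, Nat.add_assoc]
      rw [fl_false (by omega) (by omega) (by omega) (by omega)]
      rfl
  refine W.refute hf _ _ clause ?_
  have m : ∀ r < 34, (12 * I.N - 1 + 0, 52 * g + 1 + r) ∈ rect I.width I.height :=
    fun r hr => W.mem (by norm_num) hr
  intro f hf'
  simp only [List.mem_cons, List.not_mem_nil, or_false] at hf'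
  rcases hf' with rfl | rfl | rfl | rfl | rfl | rfl
  · exact holds_fw (c := 0) (a := 2) (b := 4) (v := true) hf (by norm_num) (by norm_num)
      (m 2 (by norm_num)) (m 4 (by norm_num)) (by norm_num) h0.1
  · exact holds_fw (c := 0) (a := 3) (b := 5) (v := false) hf (by norm_num) (by norm_num)
      (m 3 (by norm_num)) (m 5 (by norm_num)) (by norm_num) h0.2
  · exact holds_fw (c := 0) (a := 11) (b := 13) (v := true) hf (by norm_num) (by norm_num)
      (m 11 (by norm_num)) (m 13 (by norm_num)) (by norm_num) h1.1
  · exact holds_fw (c := 0) (a := 12) (b := 14) (v := false) hf (by norm_num) (by norm_num)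
      (m 12 (by norm_num)) (m 14 (by norm_num)) (by norm_num) h1.2
  · exact holds_fw (c := 0) (a := 28) (b := 30) (v := false) hf (by norm_num) (by norm_num)
      (m 28 (by norm_num)) (m 30 (by norm_num)) (by norm_num) h2.1
  · exact holds_fw (c := 0) (a := 29) (b := 31) (v := true) hf (by norm_num) (by norm_num)
      (m 29 (by norm_num)) (m 31 (by norm_num)) (by norm_num) h2.2

/-- Transport of the state of a wall between two columns. -/
theorem trans_state {c c' g e : ℕ} (hcc : c ≤ c') (hc : c' + 1 ≤ I.width)
    (hw : 52 * g + e + 6 ≤ I.height) (hT : ∀ i < 5, rhS (e + i) = Nat.testBit 27 i)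
    (hq : ∀ d, c ≤ d → d ≤ c' → ∀ j < 6, I.flS d (52 * g + (e + j)) = false) :
    (isC pos c (52 * g + (e + 2)) ↔ isC pos c' (52 * g + (e + 2))) ∧
      (isB pos c (52 * g + (e + 2)) ↔ isB pos c' (52 * g + (e + 2))) := by
  obtain ⟨n, rfl⟩ := Nat.exists_eq_add_of_le hcc
  obtain ⟨h1, h2⟩ := wallRun hf (c := c) (g := g) (e := e) n hc hw hT
    (fun i hi j hj => hq _ (by omega) (by omega) j hj)
  have e1 : 52 * g + (e + 2) - 1 = 52 * g + e + 1 := by omega
  have e2 : 52 * g + (e + 2) + 1 = 52 * g + e + 3 := by omega
  have e3 : 52 * g + (e + 2) = 52 * g + e + 2 := by omega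
  have e4 : 52 * g + (e + 2) + 2 = 52 * g + e + 4 := by omega
  unfold isC isB
  rw [e1, e2, e4, e3, h1, h2]
  exact ⟨Iff.rfl, Iff.rfl⟩

end

/-- SOUNDNESS: a folding of the sheet gives a solution of the system. -/
theorem sound {I : Sys} (hw : I.Wf) (h : Foldable I.pat I.width I.height) : I.Sat := by
  obtain ⟨pos, hf⟩ := h
  refine ⟨fun v => bX pos (I.N + v) 1, fun v => bY pos v 1, ?_⟩
  rintro g hg ⟨hx, hy, hz⟩
  have l0 := hw g hg 0 (by norm_num)
  have l1 := hw g hg 1 (by norm_num)
  have l2 := hw g hg 2 (by norm_num)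
  have hN : 0 < I.N := by omega
  have hH : 52 * g + 53 ≤ I.height := by unfold Sys.height; omega
  have hW : I.width = 24 * I.N := rfl
  -- the bits at the tests
  have x0 : bX pos (I.N + I.lv g 0) (52 * g + 2) = I.ls g 0 := by
    rw [← (xTo28 hf (b := I.N + I.lv g 0) (g := g) (by omega) (by omega) l1 hH).1,
      ← xAll hf (by omega) (by omega) hw hg]
    exact hx
  have x2 : bX pos (I.N + I.lv g 2) (52 * g + 28) = I.ls g 2 := by
    obtain ⟨s1, s2⟩ := xTo28 hf (b := I.N + I.lv g 2) (g := g) (by omega) (by omega) l1 hH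
    rw [← s2, ← s1, ← xAll hf (by omega) (by omega) hw hg]
    exact hz
  have y1 : bY pos (I.lv g 1) (52 * g + 11) = I.ls g 1 := by
    rw [← yTo11 hf l1 hH, ← yAll hf l1 hg]
    exact hy
  have t0 := test0 hf (g := g) l0 l1 (by omega) x0
  have t1 := test1 hf (g := g) l1 (by omega) y1
  have t2 := test2 hf (g := g) l2 l1 (by omega) x2
  refine clauseCol hf (g := g) hN (by omega) ?_ ?_ ?_
  · refine ((trans_state hf (c := 12 * I.N - 1) (c' := 12 * (I.N + I.lv g 0) + 1) (g := g) (e := 2)
      (by omega) (by omega) (by omega) (by decide) ?_).1).2 t0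
    intro d hd hd' j hj
    exact fl_false (by omega) (by omega) (by omega) (by omega)
  · refine ((trans_state hf (c := 12 * I.lv g 1 + 11) (c' := 12 * I.N - 1) (g := g) (e := 11)
      (by omega) (by omega) (by omega) (by decide) ?_).1).1 t1
    intro d hd hd' j hj
    exact fl_false (by omega) (by omega) (by omega) (by omega)
  · refine ((trans_state hf (c := 12 * I.N - 1) (c' := 12 * (I.N + I.lv g 2) + 1) (g := g) (e := 28)
      (by omega) (by omega) (by omega) (by decide) ?_).2).2 t2
    intro d hd hd' j hj
    exact fl_false (by omega) (by omega) (by omega) (by omega)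

end Pool.Agent.Helper89.MF
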