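import Pool.Agent.Helper89.MF.Tree

/-!
Map folding: window certificates (generated).
-/

set_option autoImplicit false

namespace Pool.Agent.Helper89.MF

open Pool.Agent.Helper69.MF Pool.Agent.Helper69.MF.UP

def t_clause : Tr := (.split 26 14 (.leaf [(true, 3), (true, 4), (true, 5), (true, 6), (true, 7), (true, 8), (true, 9), (true, 10), (true, 11), (true, 12), (true, 13), (true, 14), (true, 15), (true, 16), (true, 17), (true, 18), (true, 19), (true, 20), (true, 22), (true, 23), (true, 24), (true, 25), (true, 26), (true, 27), (true, 28)]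
    [.nc true 2 4 2 1 7 2, .tr 9 10, .tr 1 11, .tr 12 13, .tr 1 14, .tr 3 15, .tr 16 17, .tr 2 18, .tr 2 19, .tr 5 20, .tr 21 22, .tr 3 23, .tr 3 24, .tr 3 25, .tr 7 26, .tr 27 28, .tr 4 29, .tr 4 30, .tr 4 31, .tr 4 32, .tr 9 33, .tr 34 35, .tr 5 36, .tr 5 37, .tr 5 38, .tr 5 39, .tr 5 40, .tr 11 41, .tr 4 43, .nc true 11 13 2 32 45 33, .tr 47 48, .tr 1 49, .tr 50 51, .tr 33 51, .tr 2 53, .tr 4 54, .tr 55 56, .tr 2 57, .tr 2 58, .tr 6 59, .tr 60 61, .tr 3 62, .tr 3 63, .tr 3 64, .tr 7 65, .tr 66 67, .tr 4 68, .tr 4 69, .tr 4 70, .tr 4 71, .tr 9 72, .tr 73 74, .tr 5 75, .tr 5 76, .tr 5 77, .tr 5 78, .tr 5 79, .tr 11 80, .tr 81 82, .tr 6 83, .tr 6 84, .tr 6 85, .tr 6 86, .tr 6 87, .tr 6 88, .tr 13 89, .tr 91 92, .tr 93 94, .tr 1 95, .tr 96 97, .tr 98 70, .tr 2 99, .tr 4 100, .tr 101 102, .tr 2 103, .tr 2 104, .tr 6 105, .tr 106 107, .tr 3 108, .tr 3 109, .tr 3 110,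 .tr 7 111, .tr 112 113, .nc true 29 27 1 0 114 88, .tr 5 115, .tr 5 116, .tr 5 117, .tr 5 118, .tr 10 119, .tr 120 95, .tr 90 94, .tr 19 91, .tr 19 92, .tr 23 93, .nc true 5 3 1 96 102 92, .nc true 14 12 1 99 112 64, .tr 4 100, .tr 4 101, .tr 4 102, .tr 28 103, .tr 15 106, .tr 15 107, .tr 15 108, .tr 15 109, .tr 15 110, .tr 22 111, .nc true 6 2 3 103 101 11, .nc true 7 3 1 0 101 98, .nc true 8 2 3 100 96 0, .nc true 9 3 1 0 96 91, .nc true 10 2 3 93 87 0, .nc true 11 3 1 0 87 82, .nc true 15 11 3 80 77 16, .tr 43 79, .nc true 16 12 1 1 78 75, .tr 1 78, .nc true 17 11 3 78 74 1, .nc true 18 12 1 0 74 69, .tr 2 72, .nc true 19 11 3 72 66 1, .nc true 20 12 1 0 66 59, .tr 2 62, .nc true 11 21 2 62 1 25, .nc true 21 13 1 62 61 31, .tr 1 57, .tr 2 56, .tr 1 56, .tr 1 53, .tr 1 50, .tr 1 46, .nc true 30 26 0 25 46 24, .nc true 29 25 1 43 42 0, .tr 3 42, .tr 42 21, .tr 3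 43, .nc true 22 12 3 38 37 11, .nc true 30 24 0 33 4 32, .tr 2 25, .tr 1 16, .tr 116 12, .tr 117 12, .tr 117 13, .tr 119 13, .tr 119 14, .tr 158 15, .nc true 10 28 2 0 16 15, .tr 123 16, .tr 123 17, .tr 123 18, .tr 123 19, .tr 123 20, .tr 123 21, .tr 130 22, .tr 129 20, .tr 129 21, .tr 129 22, .tr 129 23, .tr 129 24, .tr 136 25, .tr 173 26, .nc true 26 2 3 20 19 26, .nc true 23 13 1 25 68 67, .nc true 29 23 1 76 75 25, .nc true 27 3 1 2 21 19, .nc true 28 2 3 21 17 0, .nc true 3 29 3 0 17 27, .nc true 4 30 1 0 12 11, .nc true 24 12 3 68 67 5, .nc true 30 22 0 67 5 66, .nc true 5 29 3 20 19 2, .nc true 25 13 1 2 99 170, .nc true 21 29 0 86 32 2, .nc true 6 30 1 2 16 15, .tr 112 1, .tr 112 2, .tr 112 3, .tr 112 4, .tr 112 5, .tr 112 6, .tr 120 7, .tr 204 8, .nc true 7 29 3 30 29 8, .nc true 8 30 1 0 24 23, .nc true 9 29 3 30 37 0, .nc true 10 30 1 0 24 51, .nc true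 29 11 2 55 0 50, .tr 103 0, .tr 218 1, .nc true 26 12 3 97 1 17, .nc true 12 28 1 1 3 15, .tr 1 207, .tr 2 160, .tr 3 156, .tr 4 154, .tr 5 151, .tr 6 147, .tr 7 142, .tr 8 136, .nc true 13 27 3 9 7 8, .nc true 27 21 1 1 124 120, .nc true 14 28 1 1 25 24, .nc true 28 20 0 20 1 29, .nc true 15 27 3 10 9 1, .nc true 27 19 1 7 6 1, .nc true 16 28 1 1 27 26, .nc true 28 18 0 26 1 25, .nc true 17 27 3 12 11 1] 0 1)
  (.split 19 23 (.leaf [(true, 3), (true, 4), (true, 5), (true, 6), (true, 7), (true, 8), (true, 9), (true, 10), (true, 11), (true, 12), (true, 13), (true, 14), (true, 15), (true, 16), (true, 17), (true, 18), (true, 19), (true, 20), (true, 21), (true, 22), (true, 23), (true, 24), (true, 25), (true, 26), (true, 27), (true, 28)]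
    [.nc true 2 4 2 2 8 3, .tr 10 11, .tr 1 12, .tr 13 14, .tr 1 15, .tr 3 16, .tr 17 18, .tr 2 19, .tr 2 20, .tr 5 21, .tr 22 23, .tr 3 24, .tr 3 25, .tr 3 26, .tr 7 27, .tr 28 29, .tr 4 30, .tr 4 31, .tr 4 32, .tr 4 33, .tr 9 34, .tr 35 36, .tr 5 37, .tr 5 38, .tr 5 39, .tr 5 40, .tr 5 41, .tr 11 42, .tr 43 32, .tr 5 45, .nc true 11 13 2 34 47 35, .tr 2 49, .tr 50 51, .tr 51 34, .tr 2 53, .tr 4 54, .tr 55 56, .tr 2 57, .tr 2 58, .tr 6 59, .tr 60 61, .tr 3 62, .tr 3 63, .tr 3 64, .tr 7 65, .tr 66 67, .tr 4 68, .tr 4 69, .tr 4 70, .tr 4 71, .tr 9 72, .tr 73 74, .tr 5 75, .tr 5 76, .tr 5 77, .tr 5 78, .tr 5 79, .tr 11 80, .tr 81 82, .tr 82 59, .tr 6 84, .tr 6 85, .tr 6 86, .tr 6 87, .tr 6 88, .tr 13 89, .tr 90 91, .tr 6 92, .tr 6 93, .tr 6 94, .tr 6 95, .tr 6 96, .tr 6 97, .tr 14 98, .tr 101 102, .tr 15 103, .tr 104 105, .tr 2 106, .tr 107 108, .tr 1 109, .tr 3 110,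 .tr 111 112, .tr 48 113, .tr 3 114, .tr 3 115, .tr 6 116, .tr 117 118, .tr 4 119, .tr 4 120, .tr 4 121, .tr 4 122, .tr 9 123, .tr 124 125, .nc true 29 27 1 0 126 99, .tr 6 127, .tr 6 128, .tr 6 129, .tr 6 130, .tr 6 131, .tr 12 132, .tr 47 100, .tr 46 101, .tr 46 102, .tr 46 103, .tr 46 104, .tr 53 105, .tr 74 107, .nc true 5 3 1 110 116 105, .tr 112 25, .tr 113 21, .tr 114 15, .nc true 14 12 1 116 129 78, .tr 1 119, .tr 18 120, .tr 18 121, .tr 18 122, .tr 18 123, .tr 18 124, .tr 18 125, .tr 26 126, .nc true 6 2 3 117 115 12, .nc true 7 3 1 0 115 112, .nc true 8 2 3 114 110 0, .nc true 9 3 1 0 110 105, .nc true 10 2 3 107 101 0, .tr 108 78, .tr 109 25, .tr 110 20, .tr 110 81, .tr 111 28, .tr 112 23, .tr 109 20, .tr 110 19, .tr 110 24, .tr 111 24, .tr 112 24, .nc true 11 3 1 11 112 106, .tr 113 28, .tr 114 28, .tr 115 28, .tr 116 27, .tr 116 30, .tr 117 29, .tr 117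 32, .tr 118 31, .tr 118 34, .tr 119 33, .tr 119 36, .tr 120 35, .tr 120 54, .tr 121 36, .nc true 15 11 3 115 112 39, .nc true 16 12 1 0 112 108, .nc true 17 11 3 110 105 0, .nc true 18 12 1 0 105 99, .nc true 19 11 3 101 94 0, .nc true 20 12 1 0 94 87, .tr 31 81, .tr 29 82, .tr 32 82, .tr 30 83, .nc true 30 26 0 42 67 41, .nc true 29 25 1 63 62 0, .nc true 30 24 0 46 0 45, .tr 7 27, .tr 191 8, .nc true 29 23 1 69 68 2, .tr 193 2, .nc true 11 21 2 100 11 2, .nc true 30 22 0 54 2 53, .tr 0 2, .tr 148 2, .tr 2 6, .tr 3 199, .nc true 22 2 3 2 47 6, .nc true 21 29 0 79 1 5, .nc true 23 3 1 1 46 17, .tr 202 1, .nc true 24 2 3 20 18 1, .nc true 25 3 1 0 18 48, .nc true 26 2 3 52 46 0, .nc true 27 3 1 0 43 42, .nc true 28 2 3 47 46 0, .nc true 3 29 3 0 43 12, .nc true 4 30 1 0 43 41, .nc true 5 29 3 43 41 0, .nc true 6 30 1 0 41 39, .nc true 7 29 3 41 39 0, .nc true 8 30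 1 0 39 55, .nc true 9 29 3 57 39 0, .nc true 10 30 1 0 39 77, .nc true 29 11 2 80 0 18, .tr 95 0, .nc true 12 22 1 27 0 91, .nc true 13 21 3 125 124 0, .nc true 14 22 1 0 92 91, .nc true 15 21 3 125 124 0, .nc true 16 22 1 0 92 91, .nc true 17 21 3 125 124 0, .nc true 18 22 1 0 139 199, .nc true 19 21 3 133 225 0, .tr 0 228, .tr 1 127, .tr 2 125, .tr 3 124, .tr 4 121, .tr 5 117, .nc true 22 20 3 6 5 233, .nc true 20 28 1 1 30 32, .nc true 23 21 1 1 236 134, .nc true 21 27 0 126 1 121, .nc true 24 20 3 8 7 1, .nc true 20 26 1 7 6 1, .nc true 25 21 1 1 135 133] 0 1)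
  (.split 26 15 (.leaf [(true, 15), (true, 16), (true, 17), (true, 18), (true, 19), (true, 20), (true, 22), (true, 23), (true, 24), (true, 25), (true, 26), (true, 27), (true, 28)]
    [.tr 9 10, .tr 1 10, .tr 12 13, .tr 1 13, .tr 3 15, .tr 16 17, .tr 1 18, .tr 4 19, .tr 20 21, .tr 2 22, .tr 2 23, .tr 5 24, .tr 25 26, .tr 3 27, .tr 3 28, .tr 3 29, .tr 7 30, .tr 32 33, .tr 34 35, .tr 1 36, .tr 37 38, .tr 1 39, .tr 3 40, .tr 41 42, .tr 26 43, .tr 3 44, .tr 3 45, .tr 6 46, .tr 47 48, .tr 4 49, .tr 4 50, .tr 4 51, .tr 4 52, .tr 9 53, .tr 54 55, .nc true 29 27 1 0 56 42, .tr 6 57, .tr 6 58, .tr 6 59, .tr 6 60, .tr 6 61, .tr 12 62, .nc true 26 14 3 44 17 42, .tr 5 51, .tr 5 52, .tr 5 53, .tr 5 54, .tr 5 55, .tr 13 56, .tr 6 48, .nc true 26 16 1 48 46 0, .tr 0 48, .tr 2 46, .tr 1 44, .tr 1 41, .nc true 27 21 1 0 29 24, .nc true 30 26 0 8 20 7, .tr 21 2, .nc true 29 25 1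 17 16 1, .nc true 30 24 0 13 0 12, .nc true 29 23 1 21 20 0, .nc true 30 22 0 17 0 16, .nc true 21 29 0 24 4 0, .tr 49 0, .tr 49 1, .tr 49 2, .tr 49 3, .tr 54 4, .tr 82 5, .nc true 14 28 1 39 32 5, .nc true 28 20 0 1 14 7, .nc true 15 27 3 28 20 1, .nc true 27 19 1 19 18 1, .nc true 16 28 1 1 8 7, .nc true 28 18 0 7 1 6, .nc true 17 27 3 25 23 1] 0 1)
  (.split 19 24 (.leaf [(true, 19), (true, 20), (true, 22), (true, 23), (true, 24), (true, 25), (true, 26), (true, 27), (true, 28)]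
    [.tr 2 10, .tr 0 12, .tr 14 15, .tr 16 17, .tr 4 18, .tr 2 19, .tr 20 21, .tr 2 22, .tr 2 23, .tr 5 24, .tr 25 26, .tr 3 27, .tr 3 28, .tr 3 29, .tr 7 30, .tr 31 32, .tr 4 33, .tr 4 34, .tr 4 35, .tr 4 36, .tr 9 37, .tr 38 39, .nc true 29 27 1 0 40 30, .tr 5 41, .tr 5 42, .tr 5 43, .tr 5 44, .tr 11 45, .nc true 19 23 3 30 27 28, .tr 5 38, .tr 5 39, .tr 5 40, .tr 5 41, .tr 5 42, .tr 12 43, .nc true 23 21 1 33 47 32, .tr 7 29, .nc true 19 25 1 32 29 0, .tr 0 27, .nc true 19 27 3 27 0 22, .tr 1 18, .nc true 30 26 0 7 18 6, .nc true 29 25 1 15 14 0, .nc true 24 20 3 14 5 7, .nc true 30 24 0 12 1 11, .tr 0 9, .nc true 25 21 1 2 40 37, .nc true 29 23 1 22 21 2, .nc true 26 20 3 11 9 1, .nc true 30 22 0 19 1 18, .nc true 27 21 1 1 37 32, .nc true 21 29 0 27 5 1, .nc true 28 20 3 12 11 1] 0 1)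
  (.split 17 25 (.split 24 14 (.leaf [(true, 3), (true, 4), (true, 5), (true, 6), (true, 7), (true, 8), (true, 9), (true, 10), (true, 11), (true, 12), (true, 13), (true, 14), (true, 15), (true, 16), (true, 17), (true, 18), (true, 19), (true, 20), (true, 22), (true, 23), (true, 24), (true, 25), (true, 26), (true, 27), (true, 28)]
    [.nc true 2 4 2 6 12 7, .tr 14 15, .tr 1 16, .tr 17 18, .tr 1 19, .tr 3 20, .tr 21 22, .tr 2 23, .tr 2 24, .tr 5 25, .tr 26 27, .tr 3 28, .tr 3 29, .tr 3 30, .tr 7 31, .tr 32 33, .tr 4 34, .tr 4 35, .tr 4 36, .tr 4 37, .tr 9 38, .tr 39 40, .tr 5 41, .tr 5 42, .tr 5 43, .tr 5 44, .tr 5 45, .tr 11 46, .tr 47 36, .tr 5 49, .nc true 11 13 2 38 51 39, .tr 2 53, .tr 54 55, .tr 55 38, .tr 2 57, .tr 4 58, .tr 59 60, .tr 2 61, .tr 2 62, .tr 6 63, .tr 2 65, .tr 2 66, .tr 2 67, .tr 6 68, .tr 2 70, .tr 2 71, .tr 2 72, .tr 2 74, .tr 2 75, .tr 2 76,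 .tr 2 78, .tr 2 79, .tr 2 80, .tr 57 81, .tr 56 82, .tr 4 84, .tr 4 85, .tr 4 86, .tr 4 87, .tr 4 88, .nc true 21 23 3 1 90 0, .tr 92 61, .tr 94 95, .tr 96 97, .tr 30 98, .tr 2 99, .tr 100 101, .tr 2 102, .tr 2 103, .tr 5 104, .tr 105 106, .nc true 29 27 1 0 107 81, .tr 4 108, .tr 4 109, .tr 4 110, .tr 8 111, .tr 76 85, .tr 16 77, .tr 37 79, .tr 36 80, .tr 45 83, .nc true 5 3 1 88 94 79, .tr 90 17, .tr 91 15, .tr 92 11, .nc true 14 12 1 94 107 52, .tr 8 95, .tr 25 96, .tr 3 99, .tr 16 100, .tr 16 101, .tr 16 102, .tr 16 103, .tr 22 104, .nc true 6 2 3 91 89 12, .nc true 7 3 1 0 89 86, .nc true 8 2 3 88 84 0, .nc true 9 3 1 0 84 79, .nc true 10 2 3 81 75 0, .tr 82 20, .tr 83 19, .tr 83 22, .tr 84 21, .tr 81 18, .tr 82 15, .tr 82 22, .tr 83 22, .tr 84 22, .nc true 11 3 1 9 84 78, .tr 85 26, .tr 86 26, .tr 87 26, .tr 88 23, .tr 88 28, .tr 89 25, .tr 89 30, .tr 90 27,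 .tr 90 32, .tr 91 29, .tr 91 34, .tr 92 31, .tr 92 48, .tr 93 32, .nc true 15 11 3 87 84 37, .nc true 16 12 1 0 84 81, .nc true 17 11 3 83 80 0, .nc true 18 12 1 0 80 77, .nc true 19 11 3 79 76 0, .nc true 20 12 1 0 76 71, .nc true 11 21 2 73 0 42, .nc true 21 13 1 73 72 52, .tr 1 70, .nc true 30 26 0 39 60 38, .nc true 29 25 1 58 57 0, .tr 57 25, .nc true 22 12 3 48 47 4, .nc true 30 24 0 45 2 44, .tr 114 5, .nc true 24 2 3 0 38 3, .tr 2 4, .nc true 23 13 1 4 78 140, .tr 4 64, .nc true 25 3 1 3 40 39, .nc true 12 24 2 66 2 63, .nc true 26 2 3 43 38 1, .tr 1 70, .nc true 27 3 1 1 36 35, .nc true 29 11 1 62 1 5, .nc true 28 2 3 41 40 1, .nc true 30 10 0 26 1 60, .nc true 3 29 3 1 38 10, .nc true 29 9 1 47 29 1, .nc true 4 30 1 1 39 37, .nc true 30 8 0 32 1 48, .nc true 5 29 3 40 38 1, .nc true 29 7 1 37 35 1, .nc true 6 30 1 1 39 37] 0 1)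
  (.split 24 16 (.leaf [(true, 12), (true, 13), (true, 14), (true, 15), (true, 16), (true, 17), (true, 18), (true, 19), (true, 20), (true, 21), (true, 22), (true, 23), (true, 24)]
    [.nc true 11 13 2 9 13 10, .tr 15 16, .tr 1 17, .tr 18 19, .tr 1 20, .tr 3 21, .tr 22 23, .tr 2 24, .tr 2 25, .tr 5 26, .tr 27 28, .tr 3 29, .tr 3 30, .tr 3 31, .tr 7 32, .tr 3 34, .tr 3 35, .tr 3 36, .tr 3 37, .tr 8 38, .tr 4 40, .tr 4 41, .tr 4 42, .tr 4 43, .tr 4 44, .tr 30 45, .tr 29 46, .tr 5 48, .tr 5 49, .tr 5 50, .tr 5 51, .tr 5 52, .tr 5 53, .nc true 22 20 0 7 55 1, .nc true 21 23 3 2 57 1, .tr 59 35, .tr 37 61, .tr 2 37, .tr 31 40, .nc true 14 12 1 49 53 37, .nc true 15 11 3 37 35 0, .nc true 16 12 1 0 35 32, .nc true 17 11 3 34 30 0, .nc true 18 12 1 0 30 26, .nc true 19 11 3 28 23 0, .tr 19 0, .nc true 21 15 1 16 15 8, .tr 13 2, .nc true 14 24 1 49 11 9, .nc true 15 23 0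 13 0 49, .tr 48 0, .tr 66 1, .nc true 12 22 1 4 6 1, .nc true 22 14 0 1 6 3, .nc true 13 21 3 26 25 1] 0 1)
  (.split 24 18 (.leaf [(true, 12), (true, 13), (true, 14), (true, 15), (true, 16), (true, 17), (true, 18), (true, 19), (true, 20), (true, 21), (true, 22), (true, 23)]
    [.nc true 11 13 2 10 14 11, .tr 16 17, .tr 1 18, .tr 19 20, .tr 1 21, .tr 3 22, .tr 23 24, .tr 2 25, .tr 2 26, .tr 5 27, .tr 28 29, .tr 29 14, .tr 4 31, .tr 4 32, .tr 4 33, .tr 8 34, .tr 35 36, .tr 4 37, .tr 4 38, .tr 4 39, .tr 4 40, .tr 10 41, .tr 42 43, .tr 5 44, .tr 5 45, .tr 5 46, .tr 5 47, .tr 5 48, .tr 11 49, .tr 35 50, .tr 34 51, .tr 6 53, .tr 6 54, .tr 6 55, .tr 6 56, .tr 6 57, .tr 13 58, .tr 7 59, .tr 7 60, .nc true 22 20 0 9 62 1, .nc true 21 23 3 2 64 1, .tr 66 41, .tr 1 42, .nc true 16 24 1 44 31 46, .nc true 14 12 1 55 59 42, .nc true 15 11 3 42 40 0, .nc true 16 12 1 0 40 37,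 .nc true 17 11 3 39 34 0, .nc true 18 12 1 0 34 29, .nc true 19 11 3 31 25 0, .tr 20 0, .nc true 21 17 1 15 14 8, .tr 12 2, .nc true 17 23 0 11 9 53, .tr 45 0, .tr 45 1, .tr 49 2, .tr 75 3, .nc true 12 22 1 5 7 3, .nc true 22 16 0 1 7 5, .nc true 13 21 3 28 27 1, .nc true 21 15 1 27 26 1, .nc true 14 22 1 1 6 5] 0 1)
  (.split 21 27 (.leaf [(true, 19), (true, 20), (true, 22), (true, 24), (true, 25), (true, 26)]
    [.tr 15 16, .tr 8 16, .tr 7 17, .tr 1 19, .tr 1 20, .tr 21 5, .nc true 21 23 3 2 23 1, .tr 8 25, .tr 1 26, .tr 1 28, .tr 1 29, .tr 1 31, .tr 11 12, .nc true 24 18 3 14 5 18, .tr 0 13, .nc true 24 20 1 12 10 0, .nc true 25 21 1 1 7 5, .nc true 18 26 1 7 5 4, .nc true 19 25 3 4 2 0, .nc true 26 20 3 0 13 2] 0 20)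
  (.leaf [(true, 19), (true, 20), (true, 22), (true, 23), (true, 24), (true, 25), (true, 26), (true, 27), (true, 28)]
    [.tr 15 16, .tr 8 16, .tr 7 17, .tr 1 19, .tr 1 20, .nc true 21 23 3 1 22 0, .tr 24 25, .tr 8 26, .tr 2 27, .tr 28 29, .tr 2 30, .tr 2 31, .tr 5 32, .tr 33 34, .tr 3 35, .tr 3 36, .tr 3 37, .tr 7 38, .tr 39 40, .tr 4 41, .tr 4 42, .tr 4 43, .tr 4 44, .tr 9 45, .tr 46 47, .nc true 29 27 1 0 48 38, .tr 6 49, .tr 6 50, .tr 6 51, .tr 6 52, .tr 6 53, .tr 12 54, .nc true 27 21 1 32 16 11, .tr 19 33, .tr 8 34, .nc true 24 18 3 36 27 40, .tr 8 50, .tr 8 51, .tr 8 52, .tr 8 53, .tr 8 54, .tr 16 55, .nc true 24 20 1 39 37 8, .nc true 30 26 0 2 17 1, .nc true 29 25 1 13 12 0, .nc true 30 24 0 6 0 5, .nc true 29 23 1 17 16 0, .nc true 30 22 0 10 0 9, .nc true 21 29 0 20 13 0, .tr 48 0, .tr 66 1, .nc true 18 28 1 31 24 1, .nc true 28 20 0 1 19 3, .tr 34 0,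 .tr 76 1, .nc true 25 19 1 19 12 1, .nc true 19 27 0 1 4 3, .nc true 26 18 3 46 42 1] 0 1)))))
  (.split 19 26 (.leaf [(true, 17), (true, 18), (true, 19), (true, 20), (true, 22), (true, 23), (true, 24), (true, 25), (true, 26), (true, 27), (true, 28)]
    [.tr 1 12, .tr 0 14, .tr 6 16, .tr 5 17, .tr 2 18, .tr 2 20, .tr 2 21, .tr 2 22, .nc true 21 23 3 2 24 1, .tr 26 27, .tr 1 28, .tr 29 30, .tr 1 31, .tr 3 32, .tr 33 34, .tr 15 35, .tr 3 36, .tr 3 37, .tr 6 38, .tr 39 40, .tr 4 41, .tr 4 42, .tr 4 43, .tr 4 44, .tr 9 45, .tr 46 47, .nc true 29 27 1 0 48 36, .tr 5 49, .tr 5 50, .tr 5 51, .tr 5 52, .tr 11 53, .nc true 19 25 3 30 27 32, .tr 5 44, .tr 5 45, .tr 5 46, .tr 5 47, .tr 5 48, .tr 12 49, .nc true 25 21 1 31 28 26, .tr 7 20, .nc true 19 27 1 25 20 0, .tr 0 16, .nc true 30 26 0 5 16 4, .nc true 29 25 1 13 12 0, .nc true 26 20 3 12 3 5, .nc true 30 24 0 10 1 9,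 .tr 3 7, .nc true 27 21 1 2 31 26, .nc true 29 23 1 20 19 2, .nc true 28 20 3 9 7 1, .nc true 30 22 0 17 1 16, .nc true 21 29 2 1 24 0] 0 5)
  (.split 17 26 (.leaf [(true, 17), (true, 19), (true, 20), (true, 22), (true, 23), (true, 24), (true, 25), (true, 26), (true, 27), (true, 28)]
    [.tr 2 13, .tr 15 16, .tr 7 16, .tr 6 17, .tr 5 18, .tr 2 20, .tr 2 21, .tr 2 22, .nc true 21 23 3 2 24 1, .tr 26 27, .tr 1 28, .tr 29 30, .tr 1 31, .tr 3 32, .tr 33 34, .tr 15 35, .tr 3 36, .tr 3 37, .tr 6 38, .tr 39 40, .tr 4 41, .tr 4 42, .tr 4 43, .tr 4 44, .tr 9 45, .tr 46 47, .nc true 29 27 1 0 48 37, .tr 5 49, .tr 5 50, .tr 5 51, .tr 5 52, .tr 11 53, .nc true 17 25 3 34 31 32, .tr 5 45, .tr 5 46, .tr 5 47, .tr 5 48, .tr 5 49, .tr 12 50, .tr 6 19, .nc true 17 27 1 24 19 0, .tr 0 15, .nc true 30 26 0 4 15 3, .nc true 29 25 1 12 11 0, .nc true 26 18 3 11 3 45, .nc true 30 24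 0 9 1 8, .tr 3 38, .tr 2 61, .tr 3 46, .nc true 29 23 1 20 19 3, .nc true 27 21 1 1 33 28, .nc true 30 22 0 17 1 16, .nc true 21 29 0 24 5 0, .tr 51 0, .tr 69 1, .nc true 18 28 1 15 13 1, .nc true 28 20 0 1 5 3, .nc true 19 27 3 12 9 1] 0 1)
  (.split 16 26 (.leaf [(true, 17), (true, 18), (true, 19), (true, 20), (true, 22), (true, 23), (true, 24), (true, 25), (true, 26), (true, 27), (true, 28)]
    [.tr 14 15, .tr 2 15, .tr 17 18, .tr 2 19, .tr 20 21, .tr 11 21, .tr 10 22, .tr 3 24, .tr 5 25, .tr 3 26, .tr 3 27, .nc true 21 23 3 1 29 0, .tr 31 32, .tr 1 33, .tr 34 35, .tr 1 36, .tr 3 37, .tr 38 39, .tr 18 40, .tr 3 41, .tr 3 42, .tr 6 43, .tr 44 45, .tr 4 46, .tr 4 47, .tr 4 48, .tr 4 49, .tr 9 50, .tr 51 52, .nc true 29 27 1 0 53 41, .tr 6 54, .tr 6 55, .tr 6 56, .tr 6 57, .tr 6 58, .tr 12 59, .nc true 26 16 3 36 17 37, .tr 5 50, .tr 5 51, .tr 5 52, .tr 5 53, .tr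 5 54, .tr 13 55, .tr 6 42, .nc true 26 18 1 42 46 0, .tr 0 42, .tr 2 41, .nc true 27 21 1 0 27 22, .nc true 30 26 0 6 18 5, .tr 19 2, .nc true 29 25 1 15 14 1, .nc true 30 24 0 11 0 10, .nc true 29 23 1 19 18 0, .nc true 30 22 0 15 0 14, .nc true 21 29 0 22 4 0, .tr 47 0, .tr 47 1, .tr 52 2, .tr 75 3, .nc true 16 28 1 35 28 3, .nc true 28 20 0 1 12 5, .nc true 17 27 3 24 16 1, .nc true 27 19 1 18 16 1, .nc true 18 28 1 1 6 5] 0 1)
  (.split 14 22 (.leaf [(true, 15), (true, 16), (true, 17), (true, 18), (true, 19), (true, 20), (true, 22), (true, 23), (true, 24), (true, 25)]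
    [.tr 15 16, .tr 17 18, .tr 1 19, .tr 0 21, .tr 2 22, .tr 1 24, .tr 1 25, .tr 14 26, .tr 13 27, .tr 3 29, .tr 3 30, .tr 3 31, .tr 3 32, .nc true 21 23 3 1 34 0, .tr 14 35, .tr 0 37, .tr 38 39, .tr 1 40, .tr 4 41, .tr 42 43, .tr 44 21, .tr 2 45, .tr 5 46, .nc true 15 25 0 2 29 24, .tr 2 25, .tr 2 26, .tr 6 27, .nc true 21 15 1 17 16 2, .nc true 22 14 3 28 13 0, .nc true 14 24 1 13 11 5, .nc true 15 23 3 1 4 0] 0 4)
  (.leaf [(true, 12), (true, 13), (true, 14), (true, 15), (true, 16), (true, 17), (true, 18), (true, 19), (true, 20), (true, 23), (true, 24), (true, 25)]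
    [.nc true 11 13 2 11 15 12, .tr 17 18, .tr 18 10, .tr 2 20, .tr 21 22, .tr 1 23, .tr 4 24, .tr 1 26, .tr 1 27, .tr 4 28, .tr 2 30, .tr 2 31, .tr 2 32, .tr 17 33, .tr 3 35, .tr 3 36, .tr 3 37, .tr 2 39, .tr 2 40, .tr 2 41, .tr 27 42, .tr 26 43, .tr 3 45, .tr 3 46, .tr 48 49, .tr 50 51, .tr 52 27, .tr 2 53, .nc true 21 13 1 5 4 28, .tr 29 41, .nc true 15 25 0 3 36 31, .tr 3 32, .tr 6 33, .nc true 14 12 1 45 49 31, .tr 32 3, .nc true 13 25 1 0 32 43, .nc true 15 11 3 32 30 2, .nc true 16 12 1 0 30 28, .nc true 17 11 3 30 27 0, .nc true 18 12 1 0 27 23, .tr 26 1, .nc true 19 11 3 26 23 1, .tr 21 0, .tr 21 1, .nc true 22 12 3 14 1 15, .nc true 12 24 1 1 4 10, .tr 1 62, .tr 2 45, .nc true 13 23 3 3 1 2, .nc true 23 15 1 1 17 16, .nc true 14 24 1 1 14 19] 0 1))))))))))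

theorem clause : t_clause.chk 1 34 0 8050962423 [] 1 [(2, 4), (5, 3), (11, 13), (14, 12), (30, 28), (29, 31)] = true := by
  decide +kernel

end Pool.Agent.Helper89.MF
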