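import Pool.Agent.Helper89.MF.Tree

/-!
Map folding: window certificates (generated).
-/

set_option autoImplicit false

namespace Pool.Agent.Helper89.MF

open Pool.Agent.Helper69.MF Pool.Agent.Helper69.MF.UP

def t_h0p1_0 : Tr := (.leaf [(false, 0), (false, 3), (true, 0), (true, 100), (true, 1)]
    [.tr 2 5, .tr 2 4, .tr 6 8, .nc true 2 0 1 0 9 3, .tr 0 3] 0 3)

theorem h0p1_0 : t_h0p1_0.chk 2 6 1 27 [] 0 [(3, 1), (101, 103)] = true := by
  decide +kernel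

def t_h0p1_1 : Tr := (.leaf [(false, 1), (false, 2), (false, 3), (false, 4), (false, 5), (true, 2), (true, 3), (true, 4), (true, 104)]
    [.tr 1 2, .tr 8 4, .nc true 102 2 1 5 0 6, .tr 7 11, .nc true 3 103 2 8 0 9, .tr 10 15, .nc true 104 4 2 11 0 12, .tr 7 15, .tr 16 17, .nc true 3 1 3 9 1 16, .tr 10 5, .nc true 1 103 3 10 8 0, .tr 0 5, .nc true 4 2 1 3 21 4] 0 1)

theorem h0p1_1 : t_h0p1_1.chk 2 6 1 27 [] 0 [(1, 3), (103, 101)] = true := by
  decide +kernel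

def t_h0p2_0 : Tr := (.leaf [(false, 2), (false, 3), (false, 4), (false, 5), (true, 3), (true, 103), (true, 104)]
    [.tr 0 2, .tr 4 7, .tr 6 10, .nc true 104 4 2 7 0 8, .tr 11 0, .tr 6 1, .nc true 4 102 1 5 4 1] 0 1)

theorem h0p2_0 : t_h0p2_0.chk 2 6 1 27 [] 0 [(4, 2), (102, 104)] = true := by
  decide +kernel

def t_h0p2_1 : Tr := (.leaf [(false, 0), (false, 1), (false, 2), (false, 4), (true, 0), (true, 100), (true, 1), (true, 2)]
    [.tr 2 7, .tr 4 9, .tr 11 6, .tr 8 4, .tr 10 12, .tr 13 5, .nc true 3 1 0 0 15 6, .tr 5 7, .nc true 101 3 0 5 0 4, .nc true 2 0 1 4 17 2, .tr 9 1] 0 1)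

theorem h0p2_1 : t_h0p2_1.chk 2 6 1 27 [] 0 [(2, 4), (104, 102)] = true := by
  decide +kernel

def t_h0m1_0 : Tr := (.leaf [(false, 1), (false, 2), (false, 3), (false, 4), (false, 5), (true, 102), (true, 103), (true, 4), (true, 104)]
    [.tr 0 2, .tr 8 4, .nc true 2 102 1 5 0 6, .tr 7 11, .nc true 103 3 2 8 0 9, .tr 10 14, .nc true 4 104 2 11 0 12, .tr 8 15, .tr 16 18, .nc true 103 101 3 10 1 16, .tr 11 5, .nc true 101 3 3 10 8 0, .tr 0 5, .nc true 104 102 1 3 21 4] 0 1)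

theorem h0m1_0 : t_h0m1_0.chk 2 6 0 27 [] 0 [(3, 1), (101, 103)] = true := by
  decide +kernel

def t_h0m1_1 : Tr := (.leaf [(false, 0), (false, 3), (true, 0), (true, 100), (true, 101)]
    [.tr 2 4, .tr 1 4, .tr 7 8, .nc true 102 100 1 0 9 4, .tr 0 3] 0 3)

theorem h0m1_1 : t_h0m1_1.chk 2 6 0 27 [] 0 [(1, 3), (103, 101)] = true := by
  decide +kernel

def t_h0m2_0 : Tr := (.leaf [(false, 0), (false, 1), (false, 2), (false, 4), (true, 0), (true, 100), (true, 101), (true, 102)]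
    [.tr 2 6, .tr 4 9, .tr 11 6, .tr 8 3, .tr 11 12, .tr 13 6, .nc true 103 101 0 0 15 7, .tr 5 8, .nc true 1 103 0 5 0 4, .nc true 102 100 1 4 17 2, .tr 9 1] 0 1)

theorem h0m2_0 : t_h0m2_0.chk 2 6 0 27 [] 0 [(4, 2), (102, 104)] = true := by
  decide +kernel

def t_h0m2_1 : Tr := (.leaf [(false, 2), (false, 4), (false, 5), (true, 103), (true, 4), (true, 104)]
    [.tr 2 0, .tr 4 7, .nc true 4 104 2 5 0 6, .tr 8 10, .nc true 104 102 1 5 9 0, .tr 0 4] 0 3)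

theorem h0m2_1 : t_h0m2_1.chk 2 6 0 27 [] 0 [(2, 4), (104, 102)] = true := by
  decide +kernel

def t_h1p1_0 : Tr := (.leaf [(false, 1), (false, 2), (false, 3), (false, 4), (false, 5), (true, 102), (true, 103), (true, 4), (true, 104)]
    [.tr 0 2, .tr 8 4, .nc true 2 102 1 5 0 6, .tr 7 11, .nc true 103 3 2 8 0 9, .tr 10 14, .nc true 4 104 2 11 0 12, .tr 8 15, .tr 16 18, .nc true 103 101 3 10 1 16, .tr 11 5, .nc true 101 3 3 10 8 0, .tr 0 5, .nc true 104 102 1 3 21 4] 0 1)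

theorem h1p1_0 : t_h1p1_0.chk 2 6 1 27 [] 1 [(3, 1), (101, 103)] = true := by
  decide +kernel

def t_h1p1_1 : Tr := (.leaf [(false, 0), (false, 3), (true, 0), (true, 100), (true, 101)]
    [.tr 2 4, .tr 1 4, .tr 7 8, .nc true 102 100 1 0 9 4, .tr 0 3] 0 3)

theorem h1p1_1 : t_h1p1_1.chk 2 6 1 27 [] 1 [(1, 3), (103, 101)] = true := by
  decide +kernel

def t_h1p2_0 : Tr := (.leaf [(false, 0), (false, 1), (false, 2), (false, 4), (true, 0), (true, 100), (true, 101), (true, 102)]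
    [.tr 2 6, .tr 4 9, .tr 11 6, .tr 8 3, .tr 11 12, .tr 13 6, .nc true 103 101 0 0 15 7, .tr 5 8, .nc true 1 103 0 5 0 4, .nc true 102 100 1 4 17 2, .tr 9 1] 0 1)

theorem h1p2_0 : t_h1p2_0.chk 2 6 1 27 [] 1 [(4, 2), (102, 104)] = true := by
  decide +kernel

def t_h1p2_1 : Tr := (.leaf [(false, 2), (false, 4), (false, 5), (true, 103), (true, 4), (true, 104)]
    [.tr 2 0, .tr 4 7, .nc true 4 104 2 5 0 6, .tr 8 10, .nc true 104 102 1 5 9 0, .tr 0 4] 0 3)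

theorem h1p2_1 : t_h1p2_1.chk 2 6 1 27 [] 1 [(2, 4), (104, 102)] = true := by
  decide +kernel

def t_h1m1_0 : Tr := (.leaf [(false, 0), (false, 3), (true, 0), (true, 100), (true, 1)]
    [.tr 2 5, .tr 2 4, .tr 6 8, .nc true 2 0 1 0 9 3, .tr 0 3] 0 3)

theorem h1m1_0 : t_h1m1_0.chk 2 6 0 27 [] 1 [(3, 1), (101, 103)] = true := by
  decide +kernel

def t_h1m1_1 : Tr := (.leaf [(false, 1), (false, 2), (false, 3), (false, 4), (false, 5), (true, 2), (true, 3), (true, 4), (true, 104)]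
    [.tr 1 2, .tr 8 4, .nc true 102 2 1 5 0 6, .tr 7 11, .nc true 3 103 2 8 0 9, .tr 10 15, .nc true 104 4 2 11 0 12, .tr 7 15, .tr 16 17, .nc true 3 1 3 9 1 16, .tr 10 5, .nc true 1 103 3 10 8 0, .tr 0 5, .nc true 4 2 1 3 21 4] 0 1)

theorem h1m1_1 : t_h1m1_1.chk 2 6 0 27 [] 1 [(1, 3), (103, 101)] = true := by
  decide +kernel

def t_h1m2_0 : Tr := (.leaf [(false, 2), (false, 3), (false, 4), (false, 5), (true, 3), (true, 103), (true, 104)]
    [.tr 0 2, .tr 4 7, .tr 6 10, .nc true 104 4 2 7 0 8, .tr 11 0, .tr 6 1, .nc true 4 102 1 5 4 1] 0 1)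

theorem h1m2_0 : t_h1m2_0.chk 2 6 0 27 [] 1 [(4, 2), (102, 104)] = true := by
  decide +kernel

def t_h1m2_1 : Tr := (.leaf [(false, 0), (false, 1), (false, 2), (false, 4), (true, 0), (true, 100), (true, 1), (true, 2)]
    [.tr 2 7, .tr 4 9, .tr 11 6, .tr 8 4, .tr 10 12, .tr 13 5, .nc true 3 1 0 0 15 6, .tr 5 7, .nc true 101 3 0 5 0 4, .nc true 2 0 1 4 17 2, .tr 9 1] 0 1)

theorem h1m2_1 : t_h1m2_1.chk 2 6 0 27 [] 1 [(2, 4), (104, 102)] = true := by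
  decide +kernel

end Pool.Agent.Helper89.MF
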