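import Pool.Agent.Helper89.MF.Tree

/-!
Map folding: window certificates (generated).
-/

set_option autoImplicit false

namespace Pool.Agent.Helper89.MF

open Pool.Agent.Helper69.MF Pool.Agent.Helper69.MF.UP

def t_xTC0_1 : Tr := (.leaf [(false, 0), (false, 100), (false, 1), (false, 201), (false, 301), (false, 401), (false, 102), (false, 202), (false, 302), (false, 402), (false, 103), (false, 203), (false, 303), (false, 4), (false, 304), (true, 0), (true, 1), (true, 101), (true, 201), (true, 401), (true, 2), (true, 102), (true, 202), (true, 302), (true, 502), (true, 103), (true, 203), (true, 303), (true, 403)]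
    [.tr 3 2, .tr 5 20, .tr 8 7, .tr 24 9, .tr 25 11, .tr 3 13, .tr 0 15, .tr 0 17, .tr 18 3, .tr 19 20, .tr 35 20, .tr 3 22, .tr 1 23, .tr 36 25, .tr 26 38, .tr 28 43, .tr 30 0, .tr 32 18, .tr 48 34, .tr 36 7, .tr 38 42, .tr 40 44, .tr 41 8, .tr 8 43, .tr 45 21, .nc true 3 1 1 4 47 26, .tr 6 52, .tr 14 53, .tr 55 4, .tr 6 57, .tr 59 2, .nc true 501 301 1 31 22 21, .tr 31 12, .tr 32 6, .tr 8 32, .nc false 402 201 1 10 31 3, .nc false 204 403 2 19 17 5, .nc false 4 2 3 38 19 2, .nc true 103 101 1 16 61 0, .nc false 101 104 3 0 10 9, .nc true 502 200 3 7 6 4, .tr 1 4] 0 1)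

theorem xTC0_1 : t_xTC0_1.chk 10 8 307 119 [105, 202, 204, 205, 302, 305, 402, 404, 405, 505, 605, 702, 704, 705, 804, 805, 902, 905] 1 [(501, 301), (4, 2)] = true := by
  decide +kernel

def t_xTC0_2 : Tr := (.leaf [(false, 300), (false, 401), (false, 2), (false, 202), (false, 302), (false, 402), (false, 3), (false, 103), (false, 203), (false, 4), (false, 204), (false, 304), (false, 105), (false, 305), (false, 106), (true, 400), (true, 301), (true, 401), (true, 501), (true, 2), (true, 102), (true, 202), (true, 302), (true, 502), (true, 3), (true, 103), (true, 203), (true, 303), (true, 403), (true, 104), (true, 204), (true, 304), (true, 404), (true, 105)]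
    [.tr 2 17, .tr 0 4, .tr 21 5, .tr 7 24, .tr 27 9, .tr 11 2, .tr 12 13, .tr 31 13, .tr 0 15, .tr 35 17, .tr 19 5, .tr 38 20, .tr 21 40, .tr 42 23, .tr 45 25, .tr 27 47, .tr 29 0, .tr 52 31, .tr 52 33, .nc true 205 105 1 33 1 35, .tr 9 38, .tr 19 41, .tr 44 9, .tr 11 46, .tr 10 47, .tr 54 49, .tr 4 51, .tr 18 52, .tr 13 54, .tr 56 8, .tr 57 19, .tr 62 58, .tr 61 4, .tr 63 16, .tr 64 15, .tr 66 5, .tr 67 12, .tr 68 6, .tr 15 70, .tr 72 14, .tr 73 14, .tr 74 8, .nc true 501 301 1 42 36 35, .nc false 3 5 1 44 14 11, .tr 40 45, .nc true 4 102 0 0 35 1, .tr 31 0, .tr 27 11, .tr 28 10, .nc true 502 300 3 27 22 6, .nc false 205 403 2 16 15 8, .nc false 102 105 3 4 14 12, .nc false 202 205 1 0 12 11, .nc true 301 205 0 0 5 4, .tr 3 4] 0 1)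

theorem xTC0_2 : t_xTC0_2.chk 10 8 307 119 [105, 202, 204, 205, 302, 305, 402, 404, 405, 505, 605, 702, 704, 705, 804, 805, 902, 905] 1 [(501, 301), (3, 5)] = true := by
  decide +kernel

def t_xTC1_1 : Tr := (.leaf [(false, 0), (false, 100), (false, 200), (false, 300), (false, 400), (false, 1), (false, 201), (false, 301), (false, 401), (false, 501), (false, 2), (false, 202), (false, 302), (false, 402), (false, 502), (false, 3), (false, 103), (false, 203), (false, 303), (false, 503), (false, 4), (false, 204), (false, 304), (false, 404), (false, 105), (false, 305), (false, 405), (false, 106), (false, 206), (false, 306), (false, 406), (true, 0), (true, 100), (true, 400), (true, 1), (true, 101), (true, 201), (true, 301), (true, 401), (true, 2), (true, 102), (true, 202), (true, 302), (true, 502), (true, 602), (true, 103), (true, 203), (true, 303), (true, 403), (true, 503), (true, 104), (true, 204), (true, 304), (true, 504), (true, 105), (true, 305), (true, 405)]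
    [.tr 2 33, .tr 4 0, .tr 5 36, .tr 7 8, .tr 9 39, .tr 11 40, .tr 13 43, .tr 16 15, .nc false 201 401 2 0 17 8, .tr 3 18, .tr 50 19, .tr 6 21, .tr 52 22, .tr 4 24, .tr 26 55, .tr 58 28, .tr 30 3, .tr 1 31, .tr 62 32, .nc true 501 401 1 29 6 34, .tr 35 9, .tr 66 36, .tr 38 2, .tr 69 39, .nc true 2 102 2 36 9 41, .tr 0 43, .tr 68 44, .tr 45 70, .tr 46 12, .tr 47 11, .tr 77 48, .tr 49 79, .nc true 302 202 1 45 16 51, .tr 52 81, .tr 83 53, .tr 55 1, .nc true 502 602 1 52 12 57, .tr 88 58, .tr 60 39, .tr 62 92, .tr 94 63, .tr 65 1, .tr 67 93, .tr 99 69, .tr 102 71, .tr 73 100, .tr 104 74, .nc true 205 105 1 73 3 76, .tr 78 79, .nc true 305 405 1 76 4 80, .tr 82 5, .tr 49 87, .tr 88 93, .tr 50 90, .tr 91 96, .tr 92 28, .tr 94 47, .tr 95 43, .tr 30 96, .tr 26 97, .tr 31 99, .tr 105 100, .tr 40 102, .nc true 3 1 1 10 104 64, .tr 106 32, .tr 108 8, .tr 35 109, .tr 32 110, .tr 112 51, .tr 118 113, .tr 115 49, .tr 28 116, .tr 123 117, .tr 120 14, .tr 121 13, .tr 122 46, .tr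 123 46, .tr 21 125, .tr 52 126, .tr 128 19, .tr 129 18, .tr 130 12, .tr 131 63, .tr 133 41, .tr 135 13, .tr 39 136, .tr 141 137, .tr 139 12, .tr 9 141, .tr 143 7, .tr 144 7, .tr 40 145, .tr 147 7, .tr 148 20, .tr 151 4, .nc true 501 301 3 95 74 78, .nc true 500 300 0 84 86 96, .tr 9 97, .nc false 400 200 1 94 103 1, .tr 35 92, .tr 80 92, .tr 78 93, .tr 39 94, .nc true 501 201 3 94 2 46, .nc true 601 201 3 90 2 46, .tr 81 1, .tr 14 71, .tr 70 2, .tr 70 2, .nc false 4 2 3 110 70 9, .tr 59 69, .nc true 404 502 1 39 68 25, .tr 65 18, .tr 65 15, .tr 65 1, .tr 65 3, .tr 17 64, .tr 18 63, .nc true 103 101 1 63 160 8, .nc false 102 104 3 9 52 54, .tr 2 55, .nc false 202 204 1 1 53 51, .nc false 101 104 3 3 48 44, .nc false 302 104 3 47 46 1, .nc false 201 204 1 1 44 43, .nc true 402 204 2 1 89 41, .tr 41 1, .tr 40 19, .tr 11 39, .nc true 305 501 2 39 34 13, .nc false 402 205 1 4 39 0, .tr 38 6, .tr 36 10, .tr 30 10, .nc true 505 203 0 27 2 23, .nc true 504 202 2 26 7 0,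 .nc true 501 205 0 5 22 21, .nc true 500 204 1 16 8 0, .nc true 503 203 0 2 4 11, .nc true 203 501 2 73 1 6, .nc true 502 202 2 36 32 1] 0 1)

theorem xTC1_1 : t_xTC1_1.chk 10 8 307 119 [105, 202, 204, 205, 302, 305, 402, 404, 405, 502, 505, 602, 604, 605, 702, 705, 804, 805, 902, 905] 1 [(301, 501), (4, 2)] = true := by
  decide +kernel

def t_xTC1_2 : Tr := (.leaf [(false, 0), (false, 100), (false, 200), (false, 300), (false, 400), (false, 500), (false, 600), (false, 700), (false, 201), (false, 301), (false, 401), (false, 501), (false, 2), (false, 202), (false, 302), (false, 402), (false, 502), (false, 602), (false, 3), (false, 103), (false, 203), (false, 503), (false, 603), (false, 703), (false, 4), (false, 204), (false, 304), (false, 105), (false, 305), (false, 405), (false, 106), (false, 206), (false, 306), (true, 0), (true, 100), (true, 200), (true, 400), (true, 800), (true, 1), (true, 101), (true, 201), (true, 301), (true, 401), (true, 501), (true, 801), (true,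 2), (true, 102), (true, 202), (true, 302), (true, 502), (true, 602), (true, 802), (true, 3), (true, 103), (true, 203), (true, 303), (true, 403), (true, 503), (true, 104), (true, 204), (true, 304), (true, 404), (true, 504), (true, 105), (true, 405)]
    [.tr 2 35, .tr 4 0, .tr 5 38, .tr 7 8, .tr 9 42, .tr 12 11, .tr 12 44, .tr 15 16, .tr 19 18, .nc false 201 401 2 0 20 9, .tr 3 21, .tr 55 22, .tr 7 24, .tr 25 26, .tr 58 26, .tr 5 28, .tr 61 29, .tr 31 64, .tr 67 33, .tr 35 4, .tr 1 36, .nc true 501 401 1 33 6 38, .tr 39 10, .nc true 601 501 1 36 6 41, .tr 42 2, .tr 77 43, .tr 78 45, .nc true 2 102 2 41 9 47, .tr 82 48, .tr 1 50, .tr 51 11, .tr 52 10, .tr 87 53, .tr 54 89, .tr 91 56, .nc true 502 602 1 53 9 58, .tr 95 59, .nc true 702 602 1 56 10 61, .tr 91 63, .tr 99 65, .tr 67 101, .tr 69 0, .tr 107 71, .tr 106 73, .tr 75 108, .tr 111 76, .nc true 205 105 1 75 3 78, .tr 80 81, .tr 85 32, .tr 87 40, .tr 42 89, .tr 49 91, .tr 49 93, .tr 95 43, .tr 96 38, .tr 24 98,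 .tr 24 100, .tr 6 103, .tr 106 24, .tr 108 4, .tr 27 109, .tr 26 110, .tr 119 112, .tr 122 114, .tr 24 118, .tr 120 9, .tr 121 9, .tr 127 122, .tr 38 124, .tr 125 130, .tr 128 28, .tr 129 27, .tr 27 131, .tr 133 7, .tr 134 7, .tr 135 14, .tr 7 137, .tr 18 138, .tr 140 16, .tr 141 16, .tr 142 45, .tr 145 17, .tr 148 9, .nc true 501 301 3 83 60 63, .nc true 500 300 0 71 73 84, .tr 11 85, .nc false 3 5 1 87 21 18, .tr 69 88, .nc false 400 200 1 84 93 3, .tr 83 39, .tr 68 81, .tr 66 82, .nc true 501 201 3 82 1 38, .tr 18 79, .nc true 601 201 3 78 2 39, .nc true 600 200 0 46 5 79, .tr 70 3, .nc true 4 102 0 9 68 10, .tr 62 3, .tr 16 63, .tr 55 63, .tr 63 6, .tr 63 0, .tr 63 5, .tr 58 22, .tr 58 19, .tr 59 12, .tr 59 2, .tr 60 8, .tr 20 57, .tr 21 57, .tr 15 58, .tr 54 9, .tr 2 54, .tr 2 55, .nc true 600 202 2 2 60 55, .tr 0 46, .nc false 102 105 3 13 41 39, .tr 8 41, .nc false 202 205 1 1 40 39, .tr 36 0, .tr 26 3, .tr 23 4, .nc true 501 205 0 2 17 15, .nc true 601 205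 0 2 17 15, .nc true 500 204 1 11 6 1, .nc true 600 204 1 11 9 1, .nc false 403 205 3 56 4 55, .tr 104 2, .nc true 203 601 2 69 2 0, .nc false 503 305 1 2 57 29, .nc true 202 602 3 36 1 34, .tr 0 1] 0 52)

theorem xTC1_2 : t_xTC1_2.chk 10 8 307 119 [105, 202, 204, 205, 302, 305, 402, 404, 405, 502, 505, 602, 604, 605, 702, 705, 804, 805, 902, 905] 1 [(301, 501), (3, 5)] = true := by
  decide +kernel

def t_xTB0_1 : Tr := (.leaf [(false, 201), (false, 301), (false, 401), (false, 302), (false, 402), (false, 3), (false, 203), (false, 303), (false, 403), (false, 4), (false, 104), (false, 204), (false, 304), (false, 5), (false, 205), (false, 305), (false, 405), (false, 6), (false, 206), (false, 306), (true, 301), (true, 401), (true, 501), (true, 102), (true, 202), (true, 302), (true, 402), (true, 502), (true, 3), (true, 103), (true, 203), (true, 303), (true, 403), (true, 503), (true, 4), (true, 104), (true, 204), (true, 304), (true, 504), (true, 105), (true, 205), (true,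 305), (true, 405)]
    [.tr 0 2, .tr 23 3, .tr 25 5, .tr 26 7, .tr 9 0, .tr 32 10, .tr 11 34, .tr 13 4, .tr 14 36, .tr 16 34, .tr 40 17, .tr 19 38, .tr 20 6, .tr 22 47, .tr 24 48, .tr 26 51, .tr 28 47, .tr 49 29, .tr 50 31, .tr 32 52, .tr 58 33, .tr 2 35, .tr 61 36, .tr 38 64, .nc true 304 204 1 37 3 40, .nc true 404 304 1 39 2 42, .tr 43 1, .tr 67 45, .nc true 105 5 2 43 4 47, .tr 49 50, .tr 54 29, .tr 20 56, .tr 63 57, .tr 16 58, .tr 60 16, .tr 61 13, .tr 63 34, .tr 17 64, .tr 71 65, .tr 68 8, .tr 73 3, .tr 15 74, .tr 35 76, .tr 34 77, .tr 79 4, .tr 46 81, .tr 11 83, .tr 84 18, .tr 86 14, .tr 87 11, .tr 89 9, .tr 90 12, .tr 94 2, .tr 96 2, .tr 97 2, .tr 25 99, .nc true 301 501 3 56 51 48, .nc true 4 2 3 58 11 87, .tr 0 48, .nc true 4 102 3 27 0 48, .tr 48 3, .nc false 203 402 3 48 55 0, .nc true 404 302 1 19 48 20, .nc true 5 103 1 3 47 15, .tr 44 2, .tr 38 0, .tr 38 3, .tr 38 3, .nc true 104 102 1 35 99 0, .nc false 404 202 1 33 26 2, .nc true 503 201 2 30 25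 0, .nc true 404 502 3 27 5 56, .nc false 102 105 3 3 25 23, .nc false 202 205 2 0 23 21, .nc true 201 305 3 23 0 20, .nc false 202 206 0 22 0 20, .tr 0 20, .tr 5 6] 0 1)

theorem xTB0_1 : t_xTB0_1.chk 10 8 307 119 [102, 202, 203, 205, 302, 305, 402, 403, 405, 502, 602, 702, 703, 705, 802, 803, 902, 905] 1 [(501, 301), (2, 4)] = true := by
  decide +kernel

def t_xTB0_2 : Tr := (.leaf [(false, 201), (false, 301), (false, 401), (false, 302), (false, 402), (false, 3), (false, 203), (false, 303), (false, 403), (false, 104), (false, 204), (false, 304), (false, 5), (false, 205), (false, 305), (false, 405), (false, 6), (false, 206), (false, 306), (true, 301), (true, 401), (true, 501), (true, 102), (true, 202), (true, 302), (true, 402), (true, 502), (true, 103), (true, 203), (true, 303), (true, 403), (true, 503), (true, 4), (true, 104), (true, 204), (true, 304), (true, 504), (true, 5), (true, 105), (true, 205), (true, 305), (true, 405)]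
    [.tr 0 2, .tr 22 3, .tr 24 5, .tr 25 7, .tr 9 0, .tr 31 10, .tr 11 33, .tr 13 4, .tr 14 35, .tr 16 33, .tr 18 36, .tr 19 5, .tr 21 44, .tr 23 45, .tr 25 43, .tr 45 26, .tr 46 28, .tr 29 48, .tr 54 30, .tr 2 32, .tr 57 33, .tr 35 61, .nc true 304 204 1 34 3 37, .nc true 404 304 1 36 2 39, .tr 40 1, .tr 63 42, .nc true 105 5 2 40 4 44, .tr 46 47, .tr 51 27, .tr 14 53, .tr 55 14, .tr 56 11, .tr 58 30, .tr 15 59, .tr 65 60, .tr 63 6, .tr 67 3, .tr 13 68, .tr 31 70, .tr 30 71, .tr 73 4, .tr 75 80, .tr 11 77, .tr 79 13, .tr 80 10, .tr 82 8, .tr 83 11, .tr 88 2, .tr 90 2, .tr 91 2, .tr 22 93, .nc true 301 501 3 51 46 43, .nc true 5 3 1 53 86 10, .tr 0 43, .tr 43 2, .nc false 203 402 3 43 49 0, .nc true 404 302 1 17 43 18, .tr 39 1, .tr 33 0, .tr 33 2, .tr 33 6, .nc false 404 202 1 29 22 1, .nc true 503 201 2 26 21 0, .nc true 404 502 3 23 4 49, .nc false 102 105 3 3 21 20, .nc false 202 205 2 0 20 18, .nc true 201 305 3 20 0 17, .nc false 202 206 0 19 0 17, .tr 0 17,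 .tr 5 6] 0 1)

theorem xTB0_2 : t_xTB0_2.chk 10 8 307 119 [102, 202, 203, 205, 302, 305, 402, 403, 405, 502, 602, 702, 703, 705, 802, 803, 902, 905] 1 [(501, 301), (5, 3)] = true := by
  decide +kernel

def t_xTB1_1 : Tr := (.leaf [(false, 201), (false, 301), (false, 401), (false, 402), (false, 3), (false, 4), (false, 104), (false, 204), (false, 5), (false, 405), (false, 6), (false, 306), (true, 201), (true, 301), (true, 401), (true, 102), (true, 202), (true, 302), (true, 502), (true, 3), (true, 103), (true, 203), (true, 303), (true, 503), (true, 4), (true, 104), (true, 204), (true, 304), (true, 504), (true, 105), (true, 305), (true, 405)]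
    [.tr 3 2, .tr 16 3, .nc false 201 401 2 1 5 2, .tr 19 7, .nc true 501 401 1 8 0 9, .tr 11 22, .tr 27 12, .tr 14 33, .tr 16 30, .tr 32 17, .tr 19 34, .tr 21 42, .tr 45 23, .nc true 105 5 2 23 1 25, .tr 27 1, .tr 29 12, .tr 9 33, .tr 39 34, .tr 9 35, .tr 37 9, .tr 39 18, .tr 10 40, .tr 46 41, .tr 48 43, .tr 48 3, .tr 26 51, .tr 6 53, .tr 54 13, .tr 56 9, .tr 57 7, .tr 59 5, .tr 60 8, .tr 17 62, .tr 65 2, .nc true 4 2 3 35 8 55, .tr 30 34, .nc true 501 201 3 33 0 20, .tr 2 31, .nc true 4 102 3 21 0 31, .nc true 5 103 1 0 31 11, .tr 26 0, .nc true 104 102 1 23 63 0, .tr 18 5, .nc false 102 105 3 1 16 14, .nc false 202 205 2 0 14 12, .nc true 201 305 3 14 0 11, .tr 0 13] 0 4)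

theorem xTB1_1 : t_xTB1_1.chk 10 8 307 119 [102, 202, 203, 205, 302, 305, 402, 403, 405, 502, 505, 602, 603, 605, 702, 705, 802, 803, 902, 905] 1 [(301, 501), (2, 4)] = true := by
  decide +kernel

def t_xTB1_2 : Tr := (.leaf [(false, 201), (false, 301), (false, 401), (false, 402), (false, 3), (false, 104), (false, 204), (false, 5), (false, 405), (false, 6), (false, 306), (true, 201), (true, 301), (true, 401), (true, 102), (true, 202), (true, 302), (true, 502), (true, 103), (true, 203), (true, 303), (true, 503), (true, 4), (true, 104), (true, 204), (true, 304), (true, 504), (true, 5), (true, 105), (true, 305), (true, 405)]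
    [.tr 3 2, .tr 15 3, .nc false 201 401 2 1 5 2, .tr 18 7, .nc true 501 401 1 8 0 9, .tr 11 21, .tr 13 26, .tr 28 14, .tr 16 30, .tr 18 39, .tr 42 20, .nc true 105 5 2 20 1 22, .tr 24 1, .tr 26 10, .tr 7 30, .tr 32 7, .tr 34 14, .tr 8 35, .tr 40 36, .tr 42 38, .tr 42 3, .tr 45 50, .tr 6 47, .tr 49 8, .tr 50 6, .tr 52 4, .tr 53 7, .tr 14 55, .tr 59 2, .nc true 5 3 1 30 53 7, .tr 25 29, .nc true 501 201 3 28 0 17, .tr 2 26, .tr 21 0, .tr 14 2, .nc false 102 105 3 1 12 11, .nc false 202 205 2 0 11 9, .nc true 201 305 3 11 0 8, .tr 0 10] 0 4)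

theorem xTB1_2 : t_xTB1_2.chk 10 8 307 119 [102, 202, 203, 205, 302, 305, 402, 403, 405, 502, 505, 602, 603, 605, 702, 705, 802, 803, 902, 905] 1 [(301, 501), (5, 3)] = true := by
  decide +kernel

end Pool.Agent.Helper89.MF
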