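import Pool.Agent.Helper89.MF.Tree

/-!
Map folding: window certificates (generated).
-/

set_option autoImplicit false

namespace Pool.Agent.Helper89.MF

open Pool.Agent.Helper69.MF Pool.Agent.Helper69.MF.UP

def t_yE_0 : Tr := (.leaf [(false, 300), (false, 400), (false, 301), (false, 401), (true, 400)]
    [.tr 2 6, .tr 4 7, .tr 0 6, .tr 2 8, .nc true 500 300 1 4 1 5] 0 1)

theorem yE_0 : t_yE_0.chk 7 2 12 1 [] 0 [(500, 300), (501, 301)] = true := by
  decide +kernel

def t_yP_0 : Tr := (.leaf [(false, 400), (false, 301), (false, 402), (false, 303), (true, 400), (true, 301), (true, 501), (true, 302), (true, 402)]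
    [.tr 2 6, .tr 0 4, .tr 6 12, .tr 0 8, .tr 2 11, .tr 12 6, .tr 14 2, .tr 2 16, .nc true 301 501 1 8 2 9, .nc true 500 302 1 4 1 2] 0 1)

theorem yP_0 : t_yP_0.chk 7 4 12 7 [] 0 [(301, 501), (302, 502)] = true := by
  decide +kernel

def t_yW_0 : Tr := (.leaf [(false, 300), (false, 400), (false, 301), (false, 401), (true, 400)]
    [.tr 6 2, .tr 7 4, .tr 6 0, .tr 8 2, .nc true 500 300 2 4 0 5] 0 2)

theorem yW_0 : t_yW_0.chk 7 2 12 0 [] 1 [(300, 500), (301, 501)] = true := by
  decide +kernel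

def t_yH_0 : Tr := (.split 305 502 (.leaf [(false, 200), (false, 300), (false, 400), (false, 500), (false, 201), (false, 301), (false, 401), (false, 501), (false, 2), (false, 102), (false, 202), (false, 302), (false, 402), (false, 502), (false, 3), (false, 103), (false, 203), (false, 303), (false, 403), (false, 503), (false, 4), (false, 104), (false, 204), (false, 304), (false, 404), (false, 504), (false, 5), (false, 105), (false, 205), (false, 305), (false, 405), (false, 505), (false, 206), (false, 306), (false, 406), (false, 506), (false, 207), (false, 307), (false, 407), (false, 308), (false, 408), (false, 209), (false, 309), (false, 409), (true, 400), (true, 600), (true, 201), (true, 501), (true, 601), (true, 2), (true, 202), (true, 302), (true, 402), (true, 502), (true, 602), (true, 203), (true, 303), (true, 503), (true, 603), (true, 204), (true, 304), (true, 404), (true, 504), (true, 604), (true, 205), (true, 305), (true, 405), (true, 505), (true, 605), (true,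 206), (true, 306), (true, 406), (true, 506), (true, 207), (true, 307), (true, 507), (true, 208), (true, 408), (true, 508)]
    [.tr 3 4, .tr 7 6, .tr 10 9, .tr 10 52, .tr 13 54, .tr 15 56, .tr 17 58, .tr 19 0, .nc true 201 301 2 15 4 21, .tr 22 23, .tr 23 64, .nc false 402 202 1 1 25 12, .tr 26 67, .tr 28 68, .tr 14 29, .nc true 601 501 2 25 9 31, .tr 32 4, .tr 33 18, .tr 34 4, .tr 35 75, .tr 37 38, .nc true 302 202 2 34 10 40, .tr 41 80, .tr 9 43, .tr 5 44, .tr 45 2, .tr 46 85, .nc true 402 502 2 42 13 48, .tr 15 49, .tr 50 89, .tr 1 52, .tr 3 53, .tr 54 93, .tr 57 56, .tr 96 59, .tr 0 61, .tr 99 62, .nc true 503 403 2 58 7 64, .tr 66 65, .nc true 603 503 2 61 6 67, .tr 106 68, .tr 70 71, .nc true 304 204 1 67 7 73, .tr 74 110, .tr 76 29, .tr 77 45, .tr 78 3, .tr 79 115, .tr 81 82, .tr 82 119, .nc true 504 604 1 78 9 84, .tr 85 122, .nc true 205 305 2 83 8 87, .tr 88 89, .tr 89 127, .nc true 305 405 2 87 7 91, .tr 3 92, .tr 93 131, .nc true 505 405 2 91 8 95, .tr 97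 96, .tr 97 134, .nc true 605 505 2 95 9 99, .tr 100 1, .tr 101 138, .tr 66 103, .tr 104 141, .nc true 406 306 2 102 8 106, .tr 6 107, .tr 5 108, .tr 11 110, .tr 112 150, .tr 114 151, .tr 117 116, .tr 2 119, .tr 121 71, .tr 122 70, .tr 124 60, .tr 128 57, .tr 66 131, .tr 62 132, .tr 135 50, .tr 36 136, .tr 6 138, .tr 6 139, .tr 140 51, .tr 85 141, .tr 143 46, .tr 63 146, .tr 4 148, .tr 11 149, .tr 4 150, .tr 152 52, .tr 158 53, .tr 160 165, .tr 161 39, .tr 164 28, .tr 166 28, .tr 167 172, .tr 49 169, .tr 170 30, .tr 171 36, .tr 176 36, .tr 8 178, .tr 180 29, .tr 34 182, .tr 2 184, .tr 1 187, .nc true 502 304 1 19 107 21, .tr 108 23, .nc true 302 502 3 110 85 80, .tr 64 111, .nc true 306 506 0 43 41 113, .tr 111 36, .tr 112 30, .tr 112 39, .tr 103 107, .tr 107 87, .tr 107 89, .tr 108 86, .tr 109 38, .nc true 202 502 3 108 41 2, .nc true 202 602 3 104 41 2, .nc true 302 602 3 104 97 91, .tr 102 2, .tr 103 2, .tr 14 103, .nc false 403 204 1 100 99 18, .tr 3 94, .tr 7 95,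 .tr 19 96, .tr 3 96, .tr 84 97, .nc false 205 404 2 96 95 41, .nc false 503 304 1 25 95 41, .tr 9 94, .tr 13 95, .tr 13 96, .tr 95 84, .tr 96 43, .tr 93 23, .tr 87 28, .nc false 206 406 2 87 177 29, .nc false 205 406 3 85 86 1, .nc false 306 506 2 31 180 83, .tr 82 42, .tr 73 72, .nc false 305 506 2 3 96 47, .nc true 306 508 1 42 40 43, .nc true 503 303 3 38 11 40, .nc true 200 502 1 36 35 32, .nc true 503 203 3 29 14 23, .nc true 603 303 3 28 21 17, .nc true 503 3 3 28 17 21, .tr 218 4, .tr 113 5, .tr 220 4, .tr 115 5, .nc true 304 604 3 5 48 2, .tr 117 5, .nc true 304 504 3 10 68 5, .nc true 204 504 3 9 27 4, .nc true 305 605 1 3 14 17, .tr 0 3, .nc true 305 505 1 3 20 51, .nc true 205 505 1 3 23 22, .tr 3 8, .tr 4 73, .tr 5 126, .tr 6 234, .tr 204 7, .nc true 306 4 1 7 32 31, .nc true 504 306 2 3 7 74, .tr 7 16, .tr 8 122, .nc true 306 204 1 8 121 79, .nc true 306 404 1 8 127 79, .nc true 604 306 2 7 14 76, .nc true 604 206 2 3 7 32, .tr 111 7, .tr 43 7, .tr 240 8,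 .tr 141 9, .tr 10 34, .nc true 206 204 1 10 250 89, .tr 117 9, .tr 187 10, .tr 119 10, .tr 119 11, .tr 11 40, .tr 60 11, .nc true 405 3 1 50 58 11, .tr 11 125, .tr 12 44, .tr 12 45, .tr 12 46, .nc true 207 203 3 5 3 11, .nc true 405 203 1 70 149 11, .nc true 405 403 1 115 261 10, .tr 7 74, .tr 8 74, .tr 9 65, .tr 10 73, .nc true 208 204 1 6 99 96, .tr 144 6, .tr 241 7, .tr 242 7, .nc false 406 403 3 8 0 7, .tr 148 7, .tr 245 8, .nc false 406 404 3 22 21 8, .tr 247 8, .tr 65 8, .nc true 504 202 1 92 76 8, .nc true 504 602 1 126 173 5, .nc true 506 504 1 4 284 116, .nc true 506 604 1 4 153 114, .nc true 203 507 0 30 23 4, .nc true 507 503 0 23 2 34, .nc true 507 603 0 23 2 29, .tr 272 2, .tr 141 3, .tr 141 4, .nc true 502 506 0 15 1 4, .nc true 602 506 0 14 1 4, .nc true 506 202 0 4 19 7, .tr 75 2, .tr 210 3, .nc true 505 601 0 0 13 3, .nc true 201 505 0 15 2 3, .nc true 504 600 1 140 139 1, .tr 115 1] 0 1)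
  (.split 603 207 (.leaf [(false, 200), (false, 300), (false, 201), (false, 401), (false, 501), (false, 202), (false, 302), (false, 402), (false, 502), (false, 303), (false, 403), (false, 503), (false, 304), (false, 404), (false, 504), (false, 205), (false, 305), (false, 405), (false, 206), (false, 306), (false, 406), (false, 207), (false, 307), (false, 407), (false, 208), (false, 308), (true, 200), (true, 400), (true, 201), (true, 501), (true, 601), (true, 202), (true, 402), (true, 502), (true, 602), (true, 203), (true, 303), (true, 503), (true, 603), (true, 204), (true, 304), (true, 404), (true, 504), (true, 205), (true, 305), (true, 405), (true, 505), (true, 206), (true, 306), (true, 406), (true, 207)]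
    [.tr 4 5, .tr 7 33, .tr 9 10, .tr 10 36, .nc true 201 301 2 10 2 13, .tr 14 15, .nc false 402 202 1 0 16 8, .tr 2 17, .tr 19 44, .tr 21 2, .tr 22 11, .tr 24 51, .nc true 402 502 2 23 3 26, .tr 27 28, .tr 28 55, .tr 2 30, .tr 31 58, .tr 32 17, .tr 62 34, .nc true 503 403 2 33 4 36, .tr 66 37, .nc true 603 503 2 36 4 39, .tr 23 41, .tr 12 42, .tr 43 71, .tr 45 73, .nc true 404 504 1 43 5 47, .tr 48 77, .nc true 205 305 2 47 3 50, .tr 51 52, .tr 52 82, .tr 2 54, .tr 55 85, .nc true 505 405 2 54 5 57, .tr 58 87, .tr 61 60, .tr 61 90, .nc true 406 306 2 60 4 63, .tr 3 64, .tr 6 66, .nc true 207 307 2 65 3 68, .tr 0 70, .tr 72 74, .tr 74 39, .tr 76 79, .tr 79 34, .tr 3 81, .tr 40 82, .tr 38 83, .tr 84 88, .tr 42 86, .tr 45 87, .tr 88 40, .tr 90 33, .tr 91 36, .tr 93 55, .tr 9 95, .tr 12 96, .tr 35 105, .tr 35 106, .tr 107 111, .tr 15 109, .tr 63 110, .tr 112 25, .tr 114 29, .tr 2 117, .tr 36 119, .tr 120 31, .nc true 602 206 1 8 12 68, .tr 65 70, .nc true 306 506 0 31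 30 73, .tr 70 27, .tr 69 10, .tr 67 60, .tr 68 58, .nc true 202 502 3 68 27 1, .nc true 202 602 3 66 27 1, .tr 63 8, .tr 62 9, .nc true 502 206 1 20 24 61, .tr 62 38, .tr 4 59, .tr 10 59, .tr 54 12, .nc false 206 406 2 54 107 13, .tr 7 55, .tr 6 56, .tr 7 56, .tr 54 20, .tr 38 11, .tr 38 12, .nc true 200 204 3 34 33 8, .nc false 402 206 2 13 33 29, .nc true 502 306 1 30 27 5, .tr 14 27, .tr 18 26, .nc true 401 305 1 26 23 3, .nc false 403 206 2 19 17 3, .nc true 201 205 1 6 8 7, .nc true 402 304 3 46 87 2, .nc true 305 403 3 0 2 81, .nc true 202 204 3 51 140 2, .nc true 306 404 1 1 76 38, .nc true 205 203 3 1 7 146, .tr 66 1, .nc true 206 204 1 1 152 44, .tr 26 2, .nc true 403 405 0 152 21 2, .tr 19 2, .nc true 503 203 3 33 27 2, .tr 101 2, .nc true 502 404 3 57 91 0, .nc true 405 503 3 0 25 85, .nc true 406 504 1 0 79 48, .tr 82 1, .tr 85 2, .nc true 407 503 3 21 35 2, .nc true 204 504 3 7 2 8, .tr 76 1, .nc true 205 505 1 1 35 34, .nc true 504 206 0 0 1 31] 0 5)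
  (.leaf [(false, 400), (false, 101), (false, 201), (false, 301), (false, 401), (false, 501), (false, 2), (false, 102), (false, 202), (false, 302), (false, 402), (false, 502), (false, 103), (false, 203), (false, 303), (false, 403), (false, 204), (false, 304), (false, 404), (false, 504), (false, 205), (false, 305), (false, 206), (false, 306), (false, 207), (false, 307), (false, 208), (false, 308), (false, 309), (true, 400), (true, 500), (true, 201), (true, 501), (true, 601), (true, 102), (true, 402), (true, 502), (true, 203), (true, 303), (true, 403), (true, 503), (true, 603), (true, 304), (true, 404), (true, 205), (true, 305), (true, 405), (true, 306), (true, 406), (true, 207), (true, 307), (true, 308), (true, 408)]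
    [.tr 4 33, .tr 6 36, .tr 9 8, .tr 9 38, .tr 11 0, .tr 13 14, .tr 14 42, .tr 18 17, .tr 3 19, .tr 7 21, .tr 22 23, .nc false 402 202 1 0 24 13, .tr 2 25, .nc true 501 401 2 21 6 27, .tr 28 53, .tr 30 0, .tr 31 17, .tr 33 58, .tr 35 59, .tr 3 37, .tr 38 1, .tr 39 63, .tr 41 66, .tr 5 43, .tr 0 45, .tr 71 46, .nc true 503 403 2 45 3 48, .tr 50 49, .tr 29 52, .tr 12 53, .tr 54 78, .nc true 404 304 1 52 5 56, .tr 57 81, .nc true 205 305 2 57 2 59, .tr 60 61, .tr 61 86, .nc true 305 405 2 61 3 63, .tr 3 64, .tr 65 90, .nc true 306 206 2 65 3 67, .tr 68 40, .tr 70 69, .tr 70 95, .nc true 406 306 2 70 4 72, .tr 73 3, .nc true 207 307 2 73 2 75, .tr 0 77, .tr 78 103, .nc true 408 308 2 79 0 80, .tr 83 35, .tr 85 42, .tr 87 39, .tr 88 37, .tr 89 24, .tr 91 24, .tr 92 38, .tr 94 31, .tr 7 96, .tr 45 97, .tr 98 38, .tr 99 38, .tr 101 34, .tr 42 104, .tr 5 106, .tr 5 107, .tr 12 108, .tr 111 38, .tr 26 112, .tr 23 113, .tr 15 117, .tr 15 118, .tr 15 120, .tr 121 32, .tr 123 29,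 .tr 126 5, .tr 127 33, .tr 2 130, .tr 0 132, .tr 5 78, .tr 72 80, .tr 81 43, .tr 78 30, .tr 76 27, .tr 77 12, .tr 78 12, .tr 78 4, .tr 34 78, .nc false 401 2 3 5 0 78, .nc true 304 602 2 25 71 9, .nc false 304 503 0 62 0 22, .tr 15 62, .tr 23 63, .tr 23 64, .tr 61 3, .tr 24 59, .nc true 101 403 1 36 30 38, .nc true 404 502 1 34 69 2, .nc true 405 501 0 2 0 16, .tr 0 10, .tr 0 3, .tr 3 114, .nc true 404 500 1 37 35 3, .nc true 405 403 1 2 149 11, .tr 1 102, .tr 66 1, .tr 68 2, .tr 71 3, .tr 134 4, .nc true 401 405 3 4 7 22, .nc true 204 402 1 49 88 4, .nc true 304 402 1 49 88 4, .tr 2 35, .tr 3 68, .tr 4 165, .nc true 205 401 3 31 30 4, .nc true 305 401 3 35 30 4, .nc true 402 206 3 1 9 4, .nc true 402 306 3 1 9 4, .nc true 406 402 3 9 4 15, .tr 2 73, .tr 3 73, .nc true 307 403 3 3 1 29, .nc true 403 407 3 3 29 1, .nc true 308 404 1 1 46 45, .tr 0 1] 0 76)))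

theorem yH_0 : t_yH_0.chk 7 10 12 495 [] 0 [(502, 302), (507, 307)] = true := by
  decide +kernel

def t_yE_1 : Tr := (.leaf [(false, 300), (false, 400), (false, 301), (false, 401), (true, 400)]
    [.tr 2 6, .tr 4 7, .tr 0 6, .tr 2 8, .nc true 300 500 1 4 0 5] 0 2)

theorem yE_1 : t_yE_1.chk 7 2 12 1 [] 0 [(300, 500), (301, 501)] = true := by
  decide +kernel

def t_yP_1 : Tr := (.leaf [(false, 300), (false, 401), (false, 302), (false, 403), (true, 400), (true, 301), (true, 501), (true, 402), (true, 502)]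
    [.tr 2 6, .tr 0 4, .tr 6 11, .tr 0 8, .tr 4 11, .tr 12 1, .tr 4 14, .tr 0 17, .nc true 501 301 1 8 3 9, .nc true 502 300 1 2 0 3] 0 2)

theorem yP_1 : t_yP_1.chk 7 4 12 7 [] 0 [(501, 301), (502, 302)] = true := by
  decide +kernel

def t_yW_1 : Tr := (.leaf [(false, 300), (false, 400), (false, 301), (false, 401), (true, 400)]
    [.tr 6 2, .tr 7 4, .tr 6 0, .tr 8 2, .nc true 300 500 2 4 1 5] 0 1)

theorem yW_1 : t_yW_1.chk 7 2 12 0 [] 1 [(500, 300), (501, 301)] = true := by
  decide +kernel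

def t_yH_1 : Tr := (.split 505 302 (.leaf [(false, 200), (false, 300), (false, 201), (false, 301), (false, 2), (false, 102), (false, 202), (false, 302), (false, 402), (false, 502), (false, 203), (false, 303), (false, 403), (false, 503), (false, 4), (false, 104), (false, 204), (false, 304), (false, 404), (false, 504), (false, 5), (false, 105), (false, 205), (false, 305), (false, 405), (false, 505), (false, 6), (false, 106), (false, 206), (false, 306), (false, 406), (false, 506), (false, 7), (false, 107), (false, 207), (false, 307), (false, 407), (false, 507), (false, 8), (false, 108), (false, 208), (false, 308), (false, 408), (false, 508), (false, 9), (false, 109), (false, 209), (false, 309), (false, 409), (false, 509), (true, 300), (true, 400), (true, 201), (true, 2), (true, 302), (true, 402), (true, 3), (true, 203), (true, 303), (true, 503), (true, 603), (true, 204), (true, 304), (true, 404), (true, 504), (true, 604), (true, 205), (true, 305), (true, 405), (true, 505),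 (true, 605), (true, 6), (true, 306), (true, 406), (true, 506), (true, 207), (true, 407), (true, 507), (true, 607), (true, 8), (true, 208), (true, 408), (true, 608)]
    [.tr 3 53, .tr 5 55, .nc true 300 200 2 5 1 7, .tr 8 58, .tr 10 0, .tr 12 61, .tr 14 0, .tr 16 17, .tr 17 65, .tr 19 67, .tr 10 20, .tr 23 22, .tr 23 70, .tr 25 0, .nc true 302 202 2 23 5 27, .tr 29 28, .tr 29 76, .nc true 402 302 2 27 7 31, .tr 5 32, .tr 5 33, .tr 34 3, .tr 35 82, .nc true 402 502 2 33 9 37, .tr 13 38, .tr 39 40, .tr 40 87, .tr 2 42, .tr 45 44, .tr 92 46, .nc true 203 303 2 42 12 48, .tr 49 50, .tr 95 50, .nc true 303 403 2 46 10 52, .tr 3 53, .tr 2 54, .nc true 503 403 2 50 9 56, .tr 58 57, .tr 104 58, .tr 61 62, .tr 64 108, .tr 66 110, .nc true 404 504 1 62 3 68, .tr 69 31, .tr 70 115, .tr 72 117, .tr 75 74, .tr 75 120, .tr 77 0, .nc true 205 305 2 73 8 79, .tr 80 81, .tr 81 125, .nc true 305 405 2 77 10 83, .tr 3 84, .tr 85 129, .tr 88 87, .tr 88 131, .nc true 605 505 2 84 11 90,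 .nc true 6 106 2 86 10 92, .tr 93 94, .tr 1 95, .tr 96 138, .tr 99 98, .tr 99 140, .nc false 207 407 2 1 101 65, .tr 8 102, .tr 103 2, .nc true 406 506 2 99 10 105, .tr 13 106, .tr 107 148, .tr 1 109, .tr 3 110, .tr 7 111, .tr 112 153, .tr 115 114, .tr 115 156, .tr 14 118, .tr 119 120, .tr 1 121, .nc true 507 407 2 117 9 123, .tr 125 124, .tr 125 164, .nc true 607 507 2 121 8 127, .nc true 8 108 2 123 7 129, .tr 0 131, .tr 134 133, .nc true 408 508 2 130 4 136, .tr 0 138, .tr 142 80, .tr 145 71, .tr 89 146, .tr 82 148, .tr 48 149, .tr 4 151, .tr 86 152, .tr 154 66, .tr 5 156, .tr 72 158, .tr 72 160, .tr 161 61, .tr 60 163, .tr 168 63, .tr 170 55, .tr 171 54, .tr 172 52, .tr 174 50, .tr 175 37, .tr 176 36, .tr 178 40, .tr 179 37, .tr 181 186, .tr 57 186, .tr 187 45, .tr 1 191, .tr 4 194, .tr 42 195, .tr 3 198, .tr 50 199, .tr 201 32, .tr 4 203, .nc true 302 504 1 22 119 29, .tr 120 31, .nc false 302 502 2 122 132 109, .nc true 502 302 3 123 98 103, .nc true 506 306 0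 55 58 125, .tr 20 126, .tr 122 32, .tr 122 32, .tr 112 32, .nc false 403 203 1 112 142 5, .tr 113 34, .tr 7 113, .tr 114 103, .tr 114 0, .nc true 602 302 3 11 106 113, .nc false 403 204 3 113 3 112, .tr 92 112, .nc false 303 504 2 16 110 38, .tr 37 106, .tr 99 106, .nc false 203 404 2 105 106 19, .nc false 503 304 1 5 104 41, .nc false 505 304 1 45 103 40, .tr 103 89, .tr 104 32, .tr 105 31, .tr 105 99, .tr 106 98, .tr 98 77, .nc false 406 206 1 98 180 24, .nc false 506 306 1 25 182 94, .tr 95 38, .tr 96 35, .tr 96 86, .tr 97 36, .tr 97 30, .tr 97 77, .tr 97 92, .tr 97 93, .tr 81 71, .tr 80 41, .tr 80 42, .tr 80 76, .tr 80 0, .nc true 303 503 3 40 28 43, .nc true 203 503 3 35 33 24, .nc true 303 603 3 31 24 28, .tr 27 2, .nc true 5 407 1 23 22 11, .tr 240 19, .nc true 606 208 1 18 17 6, .nc true 506 208 1 17 16 10, .tr 139 7, .nc true 504 204 3 7 51 0, .tr 238 7, .nc true 505 205 1 1 5 25, .nc true 607 207 3 103 60 5, .tr 5 102, .tr 2 5, .nc true 604 304 3 12 36 4, .nc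 false 406 205 3 126 4 127, .tr 5 151, .tr 6 245, .tr 7 150, .tr 8 148, .tr 218 9, .nc true 208 608 3 9 24 26, .nc true 506 504 1 8 258 76, .nc true 605 305 1 8 32 37, .nc true 304 506 2 5 8 82, .tr 223 8, .nc false 506 104 3 9 0 8, .nc true 204 506 2 9 16 66, .tr 226 9, .nc true 506 404 1 9 149 85, .nc true 204 606 2 3 9 46, .tr 111 9, .tr 38 9, .tr 130 10, .nc true 304 606 2 5 10 91, .nc false 507 304 3 10 0 5, .tr 170 11, .tr 262 12, .tr 180 13, .tr 14 26, .tr 12 27, .tr 47 11, .tr 139 12, .tr 50 13, .tr 187 13, .nc true 405 503 1 73 167 11, .tr 9 33, .tr 9 34, .tr 9 35, .tr 10 140, .nc true 405 403 1 122 280 7, .nc true 607 403 3 6 1 15, .tr 6 93, .tr 7 86, .tr 8 83, .tr 76 9, .tr 77 5, .nc true 608 404 1 5 107 102, .tr 79 5, .nc true 406 204 1 5 170 112, .nc true 406 304 1 5 172 119, .nc true 5 503 1 5 58 28, .nc true 4 402 1 93 96 5, .nc true 5 403 1 6 89 21, .tr 32 6, .nc true 4 302 1 101 97 6, .tr 62 6, .tr 63 6, .tr 6 103, .tr 7 110, .nc true 403 7 0 26 21 5,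 .nc true 6 204 1 4 133 132, .nc true 6 304 1 4 90 89, .tr 146 2, .tr 228 3, .tr 297 4, .nc true 7 203 0 29 4 35, .nc true 7 303 0 29 4 37, .nc true 202 6 0 9 4 1, .nc true 302 6 0 9 4 1, .nc true 6 402 0 4 16 9, .tr 241 2, .tr 241 3, .nc true 5 301 0 1 17 3, .nc true 401 5 0 21 1 3, .nc true 4 300 1 123 122 1, .tr 248 1] 0 1)
  (.split 204 507 (.leaf [(false, 400), (false, 301), (false, 202), (false, 302), (false, 402), (false, 203), (false, 303), (false, 403), (false, 505), (false, 206), (false, 306), (false, 406), (false, 506), (false, 207), (false, 307), (false, 407), (false, 507), (false, 408), (false, 209), (false, 309), (true, 400), (true, 301), (true, 501), (true, 202), (true, 302), (true, 402), (true, 502), (true, 203), (true, 503), (true, 204), (true, 504), (true, 205), (true, 505), (true, 605), (true, 206), (true, 406), (true, 506), (true, 606), (true, 207), (true, 507), (true, 208), (true, 408)]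
    [.tr 4 24, .tr 0 6, .tr 8 4, .tr 9 4, .tr 11 33, .tr 13 34, .tr 16 15, .tr 16 38, .tr 2 18, .tr 4 20, .tr 6 22, .tr 24 25, .tr 26 51, .tr 29 28, .tr 29 53, .tr 33 32, .tr 33 58, .nc false 207 407 2 1 35 20, .tr 3 36, .tr 37 2, .tr 7 39, .tr 21 41, .tr 43 67, .tr 46 45, .tr 22 49, .tr 50 27, .tr 51 27, .tr 53 18, .tr 55 59, .tr 4 57, .tr 27 60, .tr 61 63, .tr 63 32, .tr 64 11, .tr 69 72, .tr 8 71, .tr 32 72, .tr 38 73, .tr 74 78, .tr 28 76, .tr 78 22, .tr 80 25, .tr 81 22, .tr 6 83, .tr 6 84, .tr 5 86, .tr 11 88, .tr 90 24, .tr 1 92, .tr 41 49, .tr 50 2, .nc true 502 302 3 53 41 42, .nc true 506 306 0 31 33 55, .tr 47 46, .nc false 406 206 1 42 68 1, .tr 41 13, .tr 42 13, .tr 6 33, .nc true 500 302 1 33 28 30, .nc true 501 301 0 33 0 61, .tr 0 33, .nc true 202 506 1 24 17 28, .nc true 202 606 1 22 16 28, .tr 3 27, .nc true 302 506 1 26 19 14, .nc true 204 208 0 18 7 16, .tr 14 1, .tr 13 5, .tr 6 13, .tr 2 14, .tr 7 14, .tr 8 14, .nc true 501 505 1 11 8 4, .nc true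 203 207 1 2 1 7, .nc true 502 504 3 42 106 1, .nc true 204 206 0 110 1 40, .nc true 505 503 3 1 9 110, .nc true 205 203 0 8 110 1, .nc true 506 504 1 1 114 39, .tr 17 2, .nc true 204 202 1 51 111 2, .tr 3 1, .tr 41 3, .tr 2 52, .nc true 503 205 3 0 2 14] 0 2)
  (.leaf [(false, 200), (false, 300), (false, 201), (false, 301), (false, 2), (false, 102), (false, 202), (false, 302), (false, 402), (false, 502), (false, 203), (false, 303), (false, 403), (false, 503), (false, 4), (false, 104), (false, 204), (false, 304), (false, 404), (false, 504), (false, 5), (false, 105), (false, 205), (false, 305), (false, 405), (false, 505), (false, 6), (false, 106), (false, 206), (false, 306), (false, 406), (false, 506), (false, 7), (false, 107), (false, 207), (false, 307), (false, 407), (false, 507), (false, 8), (false, 108), (false, 208), (false, 308), (false, 408), (false, 508), (false, 9), (false, 109), (false, 209), (false, 309), (false, 409), (false, 509), (true, 300), (true, 400),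 (true, 201), (true, 301), (true, 2), (true, 202), (true, 302), (true, 402), (true, 3), (true, 203), (true, 303), (true, 503), (true, 603), (true, 204), (true, 604), (true, 205), (true, 305), (true, 405), (true, 505), (true, 605), (true, 6), (true, 206), (true, 306), (true, 406), (true, 506), (true, 207), (true, 507), (true, 607), (true, 8), (true, 208), (true, 408), (true, 608)]
    [.tr 4 54, .tr 6 56, .nc true 300 200 2 6 1 8, .tr 10 9, .tr 10 60, .tr 12 62, .tr 14 64, .tr 16 0, .tr 18 68, .tr 19 10, .tr 21 71, .tr 24 23, .tr 24 73, .tr 26 0, .nc true 302 202 2 24 5 28, .tr 29 78, .tr 3 31, .tr 3 32, .tr 33 2, .tr 34 83, .nc true 402 502 2 32 7 36, .tr 10 37, .tr 38 39, .tr 39 88, .tr 2 41, .tr 4 42, .tr 45 44, .tr 27 46, .tr 48 49, .tr 96 49, .tr 30 50, .tr 1 52, .nc true 503 403 2 48 8 54, .tr 56 55, .tr 102 57, .tr 59 60, .tr 61 105, .tr 63 106, .tr 65 108, .tr 67 68, .tr 68 112, .nc true 504 604 1 64 6 70, .tr 32 71, .tr 44 72, .tr 73 117, .tr 76 75, .tr 76 120,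 .tr 78 0, .nc true 205 305 2 74 10 80, .tr 12 81, .tr 82 83, .nc true 305 405 2 78 12 84, .tr 2 85, .tr 4 86, .tr 87 131, .nc true 505 405 2 83 14 89, .tr 91 90, .tr 91 134, .nc true 605 505 2 87 13 93, .tr 94 137, .nc true 6 106 2 90 13 96, .tr 97 98, .tr 1 99, .tr 102 101, .tr 102 143, .nc false 207 407 2 1 104 68, .tr 8 105, .tr 106 2, .nc true 406 506 2 102 10 108, .tr 14 109, .tr 110 150, .tr 2 112, .tr 6 113, .tr 114 154, .tr 117 116, .tr 117 157, .tr 120 121, .nc true 507 407 2 117 6 123, .tr 125 124, .tr 125 163, .nc true 607 507 2 121 6 127, .nc true 8 108 2 123 5 129, .tr 0 131, .tr 134 133, .nc true 408 508 2 130 4 136, .tr 0 138, .tr 140 81, .tr 143 79, .tr 144 78, .tr 145 46, .tr 147 75, .tr 148 47, .tr 5 151, .tr 153 77, .tr 155 70, .tr 7 157, .tr 88 158, .tr 4 160, .tr 7 161, .tr 162 72, .tr 74 166, .tr 78 167, .tr 168 68, .tr 67 170, .tr 174 34, .tr 176 33, .tr 17 178, .tr 108 179, .tr 18 181, .tr 69 182, .tr 183 53, .tr 184 51, .tr 187 46, .tr 188 40,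 .tr 64 190, .tr 192 51, .tr 193 48, .tr 195 89, .tr 196 87, .tr 13 200, .tr 47 201, .tr 4 204, .tr 54 205, .tr 207 39, .tr 4 209, .tr 12 125, .tr 66 126, .tr 61 127, .tr 122 129, .nc false 302 502 2 131 141 117, .nc true 502 302 3 132 108 113, .nc true 506 306 0 61 64 134, .tr 17 135, .tr 130 37, .tr 130 44, .tr 131 28, .tr 132 27, .tr 132 40, .tr 123 38, .tr 8 123, .tr 124 113, .nc true 602 302 3 11 116 123, .nc false 403 204 3 123 2 122, .nc true 104 506 1 25 115 10, .tr 40 115, .tr 19 116, .tr 19 117, .tr 19 118, .nc true 304 506 1 29 117 43, .tr 37 118, .nc false 503 304 1 7 117 47, .tr 115 97, .nc false 305 506 2 3 111 42, .nc false 406 206 1 102 186 21, .nc false 205 406 2 100 102 5, .nc false 5 406 2 3 102 11, .nc false 506 306 1 24 190 99, .tr 100 41, .tr 101 41, .tr 102 37, .tr 102 92, .tr 103 38, .tr 103 8, .tr 104 31, .tr 102 16, .tr 102 17, .nc true 606 206 0 52 8 93, .tr 90 81, .tr 90 44, .tr 90 45, .tr 90 86, .tr 90 0, .tr 80 9, .nc true 606 404 1 26 63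 67, .tr 66 20, .nc false 505 306 0 11 119 64, .nc true 305 505 0 0 27 44, .tr 42 14, .nc true 305 605 0 14 25 21, .tr 251 25, .tr 26 134, .nc true 205 505 0 1 26 27, .nc true 606 208 1 23 22 10, .nc true 506 208 1 22 21 14, .tr 11 138, .tr 10 139, .tr 9 144, .tr 9 141, .nc true 604 304 0 38 1 9, .tr 9 143, .nc true 5 505 0 0 34 9, .tr 9 149, .nc true 607 207 3 119 71 9, .tr 9 118, .nc true 603 303 1 52 43 5, .tr 4 153, .tr 4 1, .nc true 208 608 3 4 27 29, .tr 2 3, .nc true 204 302 1 105 183 2, .tr 117 2, .nc true 4 302 1 62 60 2, .nc true 205 301 0 29 2 27, .tr 3 214, .tr 4 193, .nc true 5 301 0 20 3 19, .tr 4 217, .tr 5 196, .nc true 204 300 1 110 109 5, .nc true 205 403 1 4 177 63, .nc true 4 300 1 76 72 4, .nc true 5 403 1 3 66 45, .tr 3 210, .tr 33 3, .tr 51 4, .tr 61 5, .tr 49 6, .tr 6 215, .nc true 401 205 3 5 14 40, .nc true 504 402 1 124 195 5, .nc true 604 402 1 119 118 5, .nc true 401 5 3 3 14 33, .tr 3 174, .tr 4 110, .tr 5 110, .nc true 505 401 3 96 89 5,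 .nc true 605 401 3 91 89 5, .nc true 6 402 3 5 4 15, .nc true 402 506 3 2 12 4, .nc true 402 606 3 2 12 4, .tr 1 36, .tr 2 157, .nc true 607 403 3 2 0 58, .nc true 403 7 3 5 68 2, .nc true 608 404 1 1 114 109, .tr 0 1] 0 35)))

theorem yH_1 : t_yH_1.chk 7 10 12 495 [] 0 [(302, 502), (307, 507)] = true := by
  decide +kernel

def t_yGC0_0 : Tr := (.leaf [(false, 400), (false, 201), (false, 301), (false, 302), (false, 402), (false, 203), (false, 303), (false, 503), (false, 104), (false, 204), (false, 304), (false, 105), (false, 205), (false, 305), (false, 405), (false, 505), (false, 206), (false, 306), (false, 406), (true, 400), (true, 201), (true, 301), (true, 401), (true, 501), (true, 202), (true, 302), (true, 502), (true, 203), (true, 303), (true, 403), (true, 503), (true, 603), (true, 104), (true, 204), (true, 304), (true, 404), (true, 504), (true, 604), (true, 405)]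
    [.tr 2 21, .tr 4 23, .tr 1 6, .tr 7 1, .tr 8 27, .tr 29 9, .tr 12 11, .tr 12 34, .tr 14 2, .tr 15 1, .tr 0 17, .tr 19 18, .tr 42 19, .tr 22 46, .tr 24 25, .nc true 203 303 1 22 2 26, .tr 51 27, .tr 29 4, .tr 49 30, .tr 53 32, .nc true 304 204 1 31 3 34, .tr 36 0, .tr 37 58, .tr 60 38, .tr 64 39, .tr 62 41, .tr 42 43, .tr 67 43, .tr 2 45, .tr 47 48, .tr 49 2, .tr 51 6, .tr 29 55, .tr 61 58, .tr 30 60, .tr 2 62, .tr 31 63, .tr 69 65, .tr 73 67, .tr 24 69, .tr 71 16, .tr 73 7, .tr 79 20, .tr 81 1, .tr 82 6, .tr 31 84, .nc true 301 501 1 46 37 39, .nc true 505 305 0 15 16 48, .nc true 403 203 2 36 30 5, .nc false 303 104 1 9 33 0, .tr 0 30, .tr 3 30, .nc false 405 204 3 30 0 29, .nc false 505 304 1 0 27 24, .nc false 505 305 1 6 70 27, .tr 27 11, .tr 28 11, .tr 27 1, .tr 28 1, .nc true 302 500 3 26 23 12, .nc false 203 401 2 25 23 0, .tr 22 0, .tr 16 8, .tr 17 8, .nc false 403 204 1 15 45 1, .nc false 403 205 1 14 24 1, .nc true 205 501 2 4 8 7, .tr 51 7, .nc true 501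 203 3 7 57 0, .nc true 204 502 0 2 4 3] 0 1)

theorem yGC0_0 : t_yGC0_0.chk 7 8 12 119 [4, 5, 102, 104, 105, 205, 305, 402, 404, 405, 502, 505, 602, 604, 605] 0 [(301, 501), (306, 506)] = true := by
  decide +kernel

def t_yGC0_1 : Tr := (.leaf [(false, 401), (false, 302), (false, 402), (false, 503), (false, 304), (false, 504), (false, 305), (false, 405), (false, 505), (false, 306), (false, 406), (false, 506), (true, 301), (true, 401), (true, 302), (true, 502), (true, 303), (true, 403), (true, 503), (true, 603), (true, 304), (true, 404), (true, 504), (true, 604), (true, 405)]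
    [.tr 15 2, .tr 4 17, .tr 6 0, .tr 20 7, .tr 9 25, .tr 24 11, .tr 30 13, .tr 15 29, .tr 31 16, .tr 35 17, .tr 33 19, .tr 20 35, .tr 21 5, .tr 39 22, .tr 3 24, .tr 26 1, .tr 28 6, .tr 30 29, .tr 31 1, .tr 19 33, .tr 0 36, .tr 38 18, .tr 42 39, .tr 15 41, .tr 43 15, .tr 44 14, .tr 45 11, .tr 47 23, .tr 48 6, .tr 53 49, .tr 11 52, .tr 55 2, .tr 27 57, .tr 59 9, .nc true 305 505 0 18 17 35, .tr 0 28, .nc false 305 504 0 24 0 23, .tr 19 3, .tr 1 15, .nc false 505 303 1 7 13 12, .tr 3 12, .tr 6 11, .nc true 605 303 2 2 4 11, .tr 10 0, .nc true 502 304 0 0 5 2, .nc true 304 402 0 4 39 20, .nc true 501 303 2 25 43 1, .tr 0 1] 0 47)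

theorem yGC0_1 : t_yGC0_1.chk 7 8 12 119 [4, 5, 102, 104, 105, 205, 305, 402, 404, 405, 502, 505, 602, 604, 605] 0 [(501, 301), (506, 306)] = true := by
  decide +kernel

def t_yTC0_1 : Tr := (.leaf [(false, 500), (false, 600), (false, 401), (false, 501), (false, 601), (false, 801), (false, 402), (false, 502), (false, 703), (false, 504), (false, 604), (false, 804), (true, 500), (true, 401), (true, 501), (true, 701), (true, 801), (true, 901), (true, 402), (true, 602), (true, 702), (true, 802), (true, 902), (true, 503), (true, 603), (true, 703), (true, 803)]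
    [.tr 2 14, .tr 4 0, .tr 0 6, .tr 19 7, .tr 20 9, .tr 0 11, .tr 13 24, .tr 16 15, .tr 16 28, .tr 18 5, .tr 19 1, .tr 21 33, .tr 35 22, .tr 38 24, .tr 0 26, .tr 28 16, .tr 13 31, .tr 5 34, .tr 36 5, .tr 37 42, .tr 39 44, .tr 4 41, .tr 43 11, .nc true 903 901 1 2 47 24, .tr 50 1, .tr 6 52, .tr 54 8, .nc true 401 601 1 27 17 19, .nc false 402 601 2 0 23 22, .tr 5 22, .nc false 604 403 1 5 16 15, .nc false 804 802 0 1 15 32, .nc true 402 700 3 15 10 3, .nc true 803 801 1 13 56 1, .nc false 701 704 0 8 7 0, .tr 0 4] 0 3)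

theorem yTC0_1 : t_yTC0_1.chk 10 8 409 119 [2, 5, 104, 105, 202, 204, 205, 305, 405, 502, 504, 505, 602, 605, 702, 704, 705, 805] 0 [(401, 601), (904, 902)] = true := by
  decide +kernel

def t_yTC0_2 : Tr := (.leaf [(false, 500), (false, 600), (false, 401), (false, 501), (false, 601), (false, 402), (false, 502), (false, 602), (false, 802), (false, 603), (false, 703), (false, 803), (false, 804), (false, 505), (false, 605), (false, 506), (false, 606), (true, 500), (true, 401), (true, 501), (true, 701), (true, 402), (true, 602), (true, 702), (true, 802), (true, 902), (true, 503), (true, 603), (true, 703), (true, 803), (true, 903), (true, 504), (true, 604), (true, 704), (true, 804), (true, 505)]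
    [.tr 2 19, .tr 4 0, .tr 0 6, .tr 24 7, .tr 25 9, .tr 0 11, .tr 14 13, .tr 14 30, .tr 16 4, .tr 17 1, .tr 35 19, .tr 21 38, .nc true 602 702 1 21 1 23, .tr 25 43, .tr 45 26, .tr 47 28, .tr 52 30, .tr 50 32, .tr 33 52, .tr 56 34, .tr 2 36, .tr 39 38, .tr 19 42, .tr 10 45, .tr 1 47, .tr 49 15, .tr 11 51, .tr 53 13, .tr 56 10, .tr 57 8, .tr 59 6, .tr 60 5, .tr 13 61, .tr 69 64, .tr 17 66, .tr 69 4, .tr 70 4, .tr 9 72, .tr 74 11, .tr 76 6, .nc true 401 601 1 40 31 33, .nc false 803 805 2 7 6 42, .tr 30 43, .nc false 402 601 2 2 38 37, .tr 4 31, .nc true 904 802 0 2 29 3, .tr 29 0, .tr 27 11, .tr 26 0, .tr 27 4, .nc true 402 700 3 27 25 6, .nc false 605 403 1 14 22 21, .nc false 702 705 0 14 13 5, .nc true 701 705 0 0 4 3, .tr 2 3] 0 1)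

theorem yTC0_2 : t_yTC0_2.chk 10 8 409 119 [2, 5, 104, 105, 202, 204, 205, 305, 405, 502, 504, 505, 602, 605, 702, 704, 705, 805] 0 [(401, 601), (903, 905)] = true := by
  decide +kernel

def t_yGC1_0 : Tr := (.leaf [(false, 301), (false, 401), (false, 501), (false, 302), (false, 402), (false, 502), (false, 503), (false, 204), (false, 305), (false, 405), (false, 505), (false, 306), (false, 406), (true, 401), (true, 302), (true, 502), (true, 602), (true, 303), (true, 503), (true, 603), (true, 304), (true, 404), (true, 504), (true, 604), (true, 305), (true, 405), (true, 505)]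
    [.tr 15 2, .tr 16 4, .tr 2 6, .tr 1 7, .tr 9 2, .tr 10 1, .tr 12 5, .tr 14 0, .tr 26 15, .nc true 502 602 1 16 0 17, .tr 18 31, .tr 33 20, .tr 22 0, .tr 23 35, .tr 41 24, .tr 38 26, .tr 27 28, .tr 44 28, .tr 2 30, .tr 32 1, .tr 34 5, .tr 37 16, .tr 42 39, .tr 42 1, .tr 46 43, .tr 47 1, .tr 50 3, .tr 16 52, .tr 54 2, .tr 57 2, .nc true 501 301 3 30 23 25, .nc true 505 305 0 10 11 32, .tr 33 2, .nc true 601 301 3 30 25 27, .tr 24 0, .tr 3 23, .nc false 405 204 3 23 0 22, .nc false 505 304 1 0 21 18, .nc false 505 305 1 6 49 21, .tr 0 14, .nc true 305 501 2 14 11 7, .tr 13 1, .tr 14 4, .tr 15 4, .nc true 502 302 2 13 9 2, .nc true 304 502 0 4 2 1, .nc true 501 303 0 1 22 0] 0 25)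

theorem yGC1_0 : t_yGC1_0.chk 7 8 12 119 [4, 5, 102, 105, 202, 204, 205, 302, 305, 402, 404, 405, 502, 505, 602, 604, 605] 0 [(301, 501), (306, 506)] = true := by
  decide +kernel

def t_yGC1_1 : Tr := (.leaf [(false, 301), (false, 401), (false, 202), (false, 302), (false, 402), (false, 203), (false, 205), (false, 305), (false, 405), (false, 306), (false, 406), (true, 401), (true, 202), (true, 302), (true, 502), (true, 203), (true, 303), (true, 503), (true, 204), (true, 304), (true, 504), (true, 305), (true, 405), (true, 505)]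
    [.tr 13 2, .tr 14 4, .tr 16 6, .tr 8 1, .tr 1 9, .tr 20 10, .tr 12 5, .tr 25 14, .tr 17 16, .tr 18 30, .tr 34 19, .tr 35 21, .tr 23 0, .tr 25 2, .tr 32 29, .tr 31 8, .tr 33 36, .tr 7 35, .tr 37 2, .tr 41 38, .tr 41 5, .tr 43 2, .tr 45 1, .tr 48 1, .nc true 301 501 3 24 20 17, .nc true 305 505 0 12 11 26, .tr 27 3, .tr 24 2, .nc false 203 402 3 23 22 0, .tr 19 21, .nc false 205 405 2 21 39 4, .tr 14 0, .nc false 203 405 3 2 14 0, .tr 0 13, .nc true 505 301 2 12 10 7, .nc true 302 502 2 10 6 1, .tr 3 58, .nc true 504 302 0 2 0 4, .nc true 301 503 0 2 19 0] 0 23)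

theorem yGC1_1 : t_yGC1_1.chk 7 8 12 119 [4, 5, 102, 105, 202, 204, 205, 302, 305, 402, 404, 405, 502, 505, 602, 604, 605] 0 [(501, 301), (506, 306)] = true := by
  decide +kernel

def t_yTC1_1 : Tr := (.leaf [(false, 400), (false, 500), (false, 600), (false, 700), (false, 800), (false, 401), (false, 501), (false, 601), (false, 801), (false, 302), (false, 402), (false, 502), (false, 602), (false, 303), (false, 503), (false, 603), (false, 703), (false, 604), (false, 804), (false, 405), (false, 505), (false, 406), (false, 506), (false, 606), (true, 500), (true, 800), (true, 900), (true, 401), (true, 501), (true, 701), (true, 801), (true, 901), (true, 302), (true, 402), (true, 602), (true, 702), (true, 802), (true, 902), (true, 403), (true, 603), (true, 703), (true, 803), (true, 404), (true, 604), (true, 704), (true, 505)]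
    [.tr 2 26, .tr 5 4, .tr 5 28, .tr 8 9, .tr 9 31, .tr 2 12, .tr 36 13, .tr 6 15, .tr 16 17, .tr 39 17, .tr 0 19, .tr 21 43, .tr 46 23, .tr 25 3, .tr 26 3, .tr 2 27, .tr 51 28, .tr 30 10, .tr 54 31, .tr 33 1, .tr 60 35, .nc true 502 602 1 34 2 37, .tr 38 39, .tr 64 40, .tr 41 66, .tr 43 62, .tr 64 44, .tr 45 69, .tr 71 46, .tr 74 48, .tr 50 31, .tr 78 52, .tr 79 54, .tr 56 0, .tr 59 58, .tr 63 23, .tr 71 65, .tr 11 68, .tr 70 11, .tr 71 77, .tr 73 79, .tr 76 26, .tr 82 77, .tr 84 79, .tr 81 24, .tr 22 82, .tr 22 83, .tr 18 84, .tr 86 20, .nc true 903 901 1 8 88 50, .tr 90 13, .tr 91 9, .tr 96 92, .tr 14 95, .tr 96 100, .tr 98 17, .tr 100 5, .tr 101 5, .tr 102 15, .tr 104 15, .tr 105 13, .tr 27 106, .tr 37 108, .nc false 601 401 1 63 71 54, .nc true 400 600 0 58 56 64, .nc true 401 601 3 65 51 47, .nc false 400 600 2 1 69 64, .tr 0 63, .tr 1 63, .tr 19 57, .tr 57 4, .nc true 401 701 3 7 56 51, .nc false 303 502 3 56 55 1, .tr 52 2, .nc false 403 602 2 1 52 28, .tr 13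 51, .tr 42 46, .nc false 804 802 0 7 46 78, .tr 46 21, .tr 47 20, .tr 45 1, .tr 46 1, .tr 14 46, .tr 14 44, .nc true 803 801 1 44 122 6, .nc true 403 701 3 43 33 10, .nc false 702 704 0 37 38 8, .tr 4 38, .tr 35 13, .nc false 701 704 0 35 33 4, .nc true 702 704 2 3 132 35, .tr 7 36, .tr 34 2, .nc false 602 605 2 33 32 2, .nc true 602 704 0 69 0 31, .tr 29 0, .tr 30 2, .tr 24 2, .tr 24 3, .nc true 405 703 0 23 6 22, .nc true 401 705 0 3 19 18, .nc true 404 702 2 15 12 1, .nc true 400 704 1 14 10 1, .nc true 703 401 2 58 0 7, .nc true 403 703 0 2 6 5, .nc true 702 402 0 1 30 0] 0 34)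

theorem yTC1_1 : t_yTC1_1.chk 10 8 409 119 [2, 5, 104, 105, 202, 205, 302, 304, 305, 402, 405, 502, 504, 505, 602, 605, 702, 704, 705, 805] 0 [(601, 401), (904, 902)] = true := by
  decide +kernel

def t_yTC1_2 : Tr := (.leaf [(false, 400), (false, 500), (false, 600), (false, 700), (false, 800), (false, 301), (false, 401), (false, 501), (false, 601), (false, 801), (false, 202), (false, 302), (false, 402), (false, 502), (false, 602), (false, 702), (false, 802), (false, 103), (false, 203), (false, 303), (false, 503), (false, 603), (false, 703), (false, 803), (false, 804), (false, 405), (false, 505), (false, 605), (false, 506), (false, 606), (true, 500), (true, 800), (true, 900), (true, 401), (true, 501), (true, 601), (true, 801), (true, 102), (true, 302), (true, 402), (true, 602), (true, 702), (true, 802), (true, 902), (true, 403), (true, 503), (true, 603), (true, 703), (true, 803), (true, 903), (true, 404), (true, 504), (true, 604), (true, 704), (true, 804), (true, 505)]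
    [.tr 2 32, .tr 5 4, .tr 5 34, .tr 8 9, .tr 9 37, .tr 13 12, .tr 6 13, .tr 4 15, .tr 44 16, .tr 8 18, .tr 19 20, .tr 47 20, .tr 0 22, .tr 24 51, .tr 54 26, .tr 28 29, .tr 56 29, .tr 31 5, .tr 32 5, .tr 2 33, .tr 61 34, .nc true 601 501 1 30 9 36, .tr 37 13, .tr 65 38, .tr 40 1, .tr 41 3, .tr 69 42, .tr 44 2, .tr 45 2, .tr 47 74, .tr 69 49, .nc true 202 302 1 43 16 51, .tr 1 52, .tr 53 16, .tr 55 19, .nc true 502 602 1 50 11 57, .tr 58 59, .tr 85 60, .tr 62 11, .tr 83 63, .tr 64 89, .tr 91 65, .tr 93 67, .tr 99 69, .tr 101 71, .tr 98 73, .tr 0 75, .tr 78 77, .tr 82 34, .tr 90 84, .tr 34 86, .tr 12 88, .tr 90 24, .tr 91 24, .tr 92 14, .tr 22 95, .tr 102 97, .tr 100 31, .tr 21 101, .tr 17 102, .tr 104 19, .tr 107 11, .tr 109 16, .tr 110 16, .tr 113 119, .tr 115 13, .tr 122 116, .tr 23 118, .tr 120 6, .tr 121 12, .tr 124 32, .tr 10 126, .tr 128 12, .nc false 601 401 1 73 82 62, .nc true 400 600 0 66 64 74, .nc true 401 601 3 75 57 52, .tr 10 76, .nc false 803 805 2 10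 9 78, .tr 48 79, .nc false 400 600 2 4 82 77, .tr 0 76, .tr 1 76, .tr 28 76, .tr 57 77, .tr 26 78, .tr 19 78, .tr 35 75, .nc false 302 502 2 71 101 11, .tr 55 71, .tr 72 13, .nc true 401 701 3 16 71 65, .nc false 303 502 3 71 70 1, .tr 60 4, .tr 59 2, .nc false 403 602 2 2 58 35, .nc true 904 802 0 16 52 17, .tr 52 0, .tr 52 28, .tr 53 28, .tr 51 1, .tr 52 1, .tr 20 52, .nc false 701 301 0 19 28 49, .tr 21 48, .nc false 302 102 3 48 15 116, .tr 3 44, .tr 2 41, .nc true 804 802 0 10 157 40, .nc false 702 705 0 36 35 11, .nc true 301 701 3 6 22 25, .nc false 203 602 3 17 20 16, .tr 20 2, .tr 18 3, .tr 18 4, .nc true 401 705 0 2 14 13, .nc true 202 402 3 10 81 80, .nc true 400 704 1 10 9 1, .nc false 702 704 0 56 57 9, .tr 7 9, .tr 9 1, .nc false 403 605 0 57 6 56, .tr 5 0, .nc false 301 704 0 5 36 45, .nc false 203 605 1 1 10 4, .nc true 703 301 2 39 1 4, .tr 1 54, .nc true 702 302 0 1 15 0] 0 17)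

theorem yTC1_2 : t_yTC1_2.chk 10 8 409 119 [2, 5, 104, 105, 202, 205, 302, 304, 305, 402, 405, 502, 504, 505, 602, 605, 702, 704, 705, 805] 0 [(601, 401), (903, 905)] = true := by
  decide +kernel

end Pool.Agent.Helper89.MF
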