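import Pool.Agent.Helper89.MF.CertX
import Pool.Agent.Helper89.MF.CertXT
import Pool.Agent.Helper89.MF.CertY
import Pool.Agent.Helper89.MF.CertH
import Pool.Agent.Helper89.MF.CertClause
import Pool.Agent.Helper69.MF.Sheet

/-!
Map folding: the knot bits and the wall bits of a folding of the sheet; persistence step by step.
-/

set_option autoImplicit false

namespace Pool.Agent.Helper89.MF

open Pool.Agent.Helper69.MF Pool.Agent.Helper69.MF.UP

/-- Comparison of the columns `c` and `c'` in the row `r`, read in alternating direction. -/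
def bit (pos : Sq → ℕ) (c c' r : ℕ) : Bool := xor (decide (pos (c, r) < pos (c', r))) (r % 2 == 1)

/-- Comparison of the rows `a` and `b` in the column `c`. -/
def wb (pos : Sq → ℕ) (c a b : ℕ) : Bool := decide (pos (c, a) < pos (c, b))

/-- The fact that the bit between the local columns `a` and `b` in the local row `r` is `v`. -/
def fb (p a b r : ℕ) (v : Bool) : ℕ × ℕ :=
  bif xor v ((r + p) % 2 == 1) then (100 * a + r, 100 * b + r) else (100 * b + r, 100 * a + r)

/-- The fact that the comparison of the local rows `a` and `b` in the local column `c` is `v`. -/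
def fw (c a b : ℕ) (v : Bool) : ℕ × ℕ :=
  bif v then (100 * c + a, 100 * c + b) else (100 * c + b, 100 * c + a)

theorem sq_code (c0 r0 a r : ℕ) (h : r < 100) : UP.sq c0 r0 (100 * a + r) = (c0 + a, r0 + r) := by
  unfold UP.sq
  rw [Prod.mk.injEq]
  constructor <;> omega

section

variable {A : Pat} {R : Set Sq} {pos : Sq → ℕ}

theorem lt_of_decide (hf : Fold A R pos) {x y : Sq} (hx : x ∈ R) (hy : y ∈ R) (hxy : x ≠ y)
    {v : Bool} (h : decide (pos x < pos y) = v) : (bif v then (pos x < pos y) else (pos y < pos x)) := by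
  cases v
  · simp only [decide_eq_false_iff_not, not_lt, cond_false] at h ⊢
    rcases Nat.lt_or_ge (pos y) (pos x) with h1 | h1
    · exact h1
    · exact absurd (hf.inj x hx y hy (le_antisymm h1 h)) hxy
  · simpa using h

theorem holds_fb (hf : Fold A R pos) {c0 r0 p a b r : ℕ} {v : Bool} (hp : r0 % 2 = p)
    (hr : r < 100) (ha : (c0 + a, r0 + r) ∈ R) (hb : (c0 + b, r0 + r) ∈ R) (hab : a ≠ b)
    (h : bit pos (c0 + a) (c0 + b) (r0 + r) = v) : Holds pos c0 r0 (fb p a b r v) := by
  have hne : ((c0 + a, r0 + r) : Sq) ≠ (c0 + b, r0 + r) := by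
    intro e
    rw [Prod.mk.injEq] at e
    omega
  have hpar : ((r0 + r) % 2 == 1) = ((r + p) % 2 == 1) := by
    have : (r0 + r) % 2 = (r + p) % 2 := by omega
    rw [this]
  have h2 : decide (pos (c0 + a, r0 + r) < pos (c0 + b, r0 + r)) = xor v ((r + p) % 2 == 1) := by
    unfold bit at h
    rw [hpar] at h
    rw [← h]
    cases decide (pos (c0 + a, r0 + r) < pos (c0 + b, r0 + r)) <;>
      cases ((r + p) % 2 == 1) <;> rfl
  have h3 := lt_of_decide hf ha hb hne h2
  unfold fb Holds
  cases hx : xor v ((r + p) % 2 == 1)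
  · rw [hx] at h3
    simp only [cond_false] at h3 ⊢
    rw [sq_code _ _ _ _ hr, sq_code _ _ _ _ hr]
    exact h3
  · rw [hx] at h3
    simp only [cond_true] at h3 ⊢
    rw [sq_code _ _ _ _ hr, sq_code _ _ _ _ hr]
    exact h3

theorem holds_fw (hf : Fold A R pos) {c0 r0 c a b : ℕ} {v : Bool} (hr : a < 100) (hr' : b < 100)
    (ha : (c0 + c, r0 + a) ∈ R) (hb : (c0 + c, r0 + b) ∈ R) (hab : a ≠ b)
    (h : wb pos (c0 + c) (r0 + a) (r0 + b) = v) : Holds pos c0 r0 (fw c a b v) := by
  have hne : ((c0 + c, r0 + a) : Sq) ≠ (c0 + c, r0 + b) := by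
    intro e
    rw [Prod.mk.injEq] at e
    omega
  have h3 := lt_of_decide hf ha hb hne h
  unfold fw Holds
  cases v
  · simp only [cond_false] at h3 ⊢
    rw [sq_code _ _ _ _ hr, sq_code _ _ _ _ hr']
    exact h3
  · simp only [cond_true] at h3 ⊢
    rw [sq_code _ _ _ _ hr, sq_code _ _ _ _ hr']
    exact h3

end

theorem bool_eq {x y : Bool} (h0 : x = false → y = true → False)
    (h1 : x = true → y = false → False) : x = y := by
  cases x <;> cases y <;> simp_all

/-- A window of the sheet over the knot of a block in which nothing is flipped. -/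
structure Win (I : Sys) (w h : ℕ) (c0 r0 : ℕ) (S T : ℕ) (L : List ℕ) (p : ℕ) : Prop where
  hh : h ≤ 100
  hc : c0 + w ≤ I.width
  hr : r0 + h ≤ I.height
  hS : ∀ c, c + 1 < w → sgS (c0 + c) = Nat.testBit S c
  hT : ∀ r, r + 1 < h → rhS (r0 + r) = Nat.testBit T r
  hL : ∀ c r, c < w → r < h → I.flS (c0 + c) (r0 + r) = L.contains (100 * c + r)
  hp : r0 % 2 = p

section

variable {I : Sys} {pos : Sq → ℕ} {w h c0 r0 S T p : ℕ} {L : List ℕ}

theorem Win.mem (W : Win I w h c0 r0 S T L p) {c r : ℕ} (hc : c < w) (hr : r < h) :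
    (c0 + c, r0 + r) ∈ rect I.width I.height := by
  have h1 := W.hc
  have h2 := W.hr
  exact ⟨by simp only; omega, by simp only; omega⟩

theorem Win.refute (W : Win I w h c0 r0 S T L p) (hf : Fold I.pat (rect I.width I.height) pos)
    (t : Tr) (asm : List (ℕ × ℕ)) (hc : t.chk w h S T L p asm = true)
    (hasm : ∀ f ∈ asm, Holds pos c0 r0 f) : False :=
  refuteT hf c0 r0 w h S T L p (fun _ _ h1 h2 => W.mem h1 h2) W.hS W.hT W.hL W.hp t asm hc hasm

/-- Two bits are equal. -/
theorem Win.eqbit (W : Win I w h c0 r0 S T L p) (hf : Fold I.pat (rect I.width I.height) pos)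
    (a b r r' : ℕ) (ha : a < w) (hb : b < w) (hab : a ≠ b) (hr : r < h) (hr' : r' < h)
    (t0 t1 : Tr)
    (h0 : t0.chk w h S T L p [fb p a b r false, fb p a b r' true] = true)
    (h1 : t1.chk w h S T L p [fb p a b r true, fb p a b r' false] = true) :
    bit pos (c0 + a) (c0 + b) (r0 + r) = bit pos (c0 + a) (c0 + b) (r0 + r') := by
  have hh := W.hh
  refine bool_eq (fun e1 e2 => ?_) (fun e1 e2 => ?_)
  · refine W.refute hf t0 _ h0 ?_
    intro f hf'
    simp only [List.mem_cons, List.not_mem_nil, or_false] at hf'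
    rcases hf' with rfl | rfl
    · exact holds_fb hf W.hp (by omega) (W.mem ha hr) (W.mem hb hr) hab e1
    · exact holds_fb hf W.hp (by omega) (W.mem ha hr') (W.mem hb hr') hab e2
  · refine W.refute hf t1 _ h1 ?_
    intro f hf'
    simp only [List.mem_cons, List.not_mem_nil, or_false] at hf'
    rcases hf' with rfl | rfl
    · exact holds_fb hf W.hp (by omega) (W.mem ha hr) (W.mem hb hr) hab e1
    · exact holds_fb hf W.hp (by omega) (W.mem ha hr') (W.mem hb hr') hab e2

/-- A bit forces a wall bit. -/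
theorem Win.force (W : Win I w h c0 r0 S T L p) (hf : Fold I.pat (rect I.width I.height) pos)
    (a b r c x y : ℕ) (s v : Bool) (ha : a < w) (hb : b < w) (hab : a ≠ b) (hr : r < h)
    (hc : c < w) (hx : x < h) (hy : y < h) (hxy : x ≠ y) (t : Tr)
    (h0 : t.chk w h S T L p [fb p a b r s, fw c x y (!v)] = true)
    (hb : bit pos (c0 + a) (c0 + b) (r0 + r) = s) :
    wb pos (c0 + c) (r0 + x) (r0 + y) = v := by
  have hh := W.hh
  by_contra hne
  have e2 : wb pos (c0 + c) (r0 + x) (r0 + y) = !v := by
    revert hne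
    cases wb pos (c0 + c) (r0 + x) (r0 + y) <;> cases v <;> simp
  refine W.refute hf t _ h0 ?_
  intro f hf'
  simp only [List.mem_cons, List.not_mem_nil, or_false] at hf'
  rcases hf' with rfl | rfl
  · exact holds_fb hf W.hp (by omega) (W.mem ha hr) (W.mem (by assumption) hr) hab hb
  · exact holds_fw hf (by omega) (by omega) (W.mem hc hx) (W.mem hc hy) hxy e2

/-- A wall bit is the same in two columns. -/
theorem Win.eqwall (W : Win I w h c0 r0 S T L p) (hf : Fold I.pat (rect I.width I.height) pos)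
    (c c' x y : ℕ) (hc : c < w) (hc' : c' < w) (hx : x < h) (hy : y < h) (hxy : x ≠ y)
    (t0 t1 : Tr)
    (h0 : t0.chk w h S T L p [fw c x y false, fw c' x y true] = true)
    (h1 : t1.chk w h S T L p [fw c x y true, fw c' x y false] = true) :
    wb pos (c0 + c) (r0 + x) (r0 + y) = wb pos (c0 + c') (r0 + x) (r0 + y) := by
  have hh := W.hh
  refine bool_eq (fun e1 e2 => ?_) (fun e1 e2 => ?_)
  · refine W.refute hf t0 _ h0 ?_
    intro f hf'
    simp only [List.mem_cons, List.not_mem_nil, or_false] at hf'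
    rcases hf' with rfl | rfl
    · exact holds_fw hf (by omega) (by omega) (W.mem hc hx) (W.mem hc hy) hxy e1
    · exact holds_fw hf (by omega) (by omega) (W.mem hc' hx) (W.mem hc' hy) hxy e2
  · refine W.refute hf t1 _ h1 ?_
    intro f hf'
    simp only [List.mem_cons, List.not_mem_nil, or_false] at hf'
    rcases hf' with rfl | rfl
    · exact holds_fw hf (by omega) (by omega) (W.mem hc hx) (W.mem hc hy) hxy e1
    · exact holds_fw hf (by omega) (by omega) (W.mem hc' hx) (W.mem hc' hy) hxy e2

end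

end Pool.Agent.Helper89.MF
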