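import Pool.Agent.Helper89.MF.Tree

/-!
Map folding: window certificates (generated).
-/

set_option autoImplicit false

namespace Pool.Agent.Helper89.MF

open Pool.Agent.Helper69.MF Pool.Agent.Helper69.MF.UP

def t_xE_0 : Tr := (.leaf [(false, 100), (false, 200), (false, 101), (false, 201), (true, 200)]
    [.tr 2 6, .tr 4 7, .tr 0 6, .tr 2 8, .nc true 100 300 1 4 0 5] 0 2)

theorem xE_0 : t_xE_0.chk 7 2 12 1 [] 1 [(100, 300), (101, 301)] = true := by
  decide +kernel

def t_xP_0 : Tr := (.leaf [(false, 100), (false, 201), (false, 102), (false, 203), (true, 200), (true, 101), (true, 301), (true, 202), (true, 302)]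
    [.tr 2 6, .tr 0 4, .tr 6 11, .tr 0 8, .tr 4 11, .tr 12 1, .tr 4 14, .tr 0 17, .nc true 301 101 1 8 3 9, .nc true 302 100 1 2 0 3] 0 2)

theorem xP_0 : t_xP_0.chk 7 4 12 7 [] 1 [(301, 101), (302, 102)] = true := by
  decide +kernel

def t_xW_0 : Tr := (.leaf [(false, 100), (false, 200), (false, 101), (false, 201), (true, 200)]
    [.tr 6 2, .tr 7 4, .tr 6 0, .tr 8 2, .nc true 100 300 2 4 1 5] 0 1)

theorem xW_0 : t_xW_0.chk 7 2 12 0 [] 0 [(300, 100), (301, 101)] = true := by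
  decide +kernel

def t_xH_0 : Tr := (.split 305 102 (.leaf [(false, 100), (false, 1), (false, 101), (false, 2), (false, 102), (false, 202), (false, 302), (false, 3), (false, 103), (false, 203), (false, 303), (false, 4), (false, 104), (false, 204), (false, 304), (false, 5), (false, 105), (false, 205), (false, 305), (false, 6), (false, 106), (false, 206), (false, 306), (false, 7), (false, 107), (false, 207), (false, 307), (false, 8), (false, 108), (false, 208), (false, 9), (false, 109), (false, 209), (false, 309), (true, 100), (true, 200), (true, 1), (true, 101), (true, 2), (true, 102), (true, 202), (true, 3), (true, 103), (true, 303), (true, 403), (true, 4), (true, 104), (true, 204), (true, 304), (true, 404), (true, 5), (true, 105), (true, 205), (true, 305), (true, 405), (true, 6), (true, 106), (true, 206), (true, 306), (true, 7), (true, 307), (true, 407), (true, 8), (true, 208), (true, 408)]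
    [.tr 3 38, .tr 5 40, .tr 7 0, .tr 9 10, .tr 10 46, .tr 12 48, .tr 6 13, .tr 16 15, .tr 16 51, .tr 18 0, .nc true 102 2 2 16 5 20, .tr 22 21, .tr 22 56, .tr 4 24, .tr 4 25, .tr 26 2, .tr 27 61, .nc true 202 302 2 25 8 29, .tr 12 30, .tr 31 32, .tr 32 66, .tr 2 34, .nc true 3 103 2 32 9 36, .tr 71 37, .nc true 103 203 2 35 7 39, .tr 2 40, .tr 2 41, .nc true 303 203 2 39 6 43, .tr 45 44, .tr 80 45, .tr 48 83, .tr 50 85, .nc true 204 304 1 48 2 52, .tr 53 26, .tr 54 90, .tr 56 92, .nc true 5 105 2 54 5 58, .tr 59 60, .tr 60 97, .nc true 105 205 2 58 7 62, .tr 3 63, .tr 64 101, .tr 67 66, .tr 67 103, .nc true 405 305 2 65 8 69, .nc true 106 6 2 67 6 71, .tr 73 72, .tr 73 109, .nc false 7 207 2 1 75 50, .tr 5 76, .tr 77 2, .nc true 206 306 2 75 7 79, .tr 10 80, .tr 81 116, .tr 1 83, .tr 3 84, .tr 85 120, .tr 87 88, .nc true 307 207 2 86 4 90, .tr 91 125, .tr 94 93, .nc true 208 308 2 93 1 96, .tr 0 98, .tr 100 61, .tr 104 53, .tr 1 106, .tr 108 53,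 .tr 67 109, .tr 64 111, .tr 112 53, .tr 36 113, .tr 5 115, .tr 7 116, .tr 5 118, .tr 55 120, .tr 55 122, .tr 123 47, .tr 129 48, .tr 131 136, .tr 132 40, .tr 134 34, .tr 135 28, .tr 136 27, .tr 138 31, .tr 139 28, .tr 141 146, .tr 1 150, .tr 36 152, .tr 154 27, .tr 2 156, .nc true 102 304 1 15 90 22, .tr 91 24, .nc false 102 302 2 93 100 84, .nc true 302 102 3 94 74 79, .nc true 306 106 0 41 44 96, .tr 15 97, .nc false 203 3 1 84 107 2, .tr 3 84, .nc true 402 102 3 5 76 83, .nc false 203 4 3 83 1 82, .tr 66 82, .nc false 103 304 2 10 80 25, .nc false 3 204 2 76 77 11, .nc false 303 104 1 3 75 26, .nc false 305 104 1 30 74 26, .tr 68 50, .nc false 206 6 1 68 129 11, .nc false 306 106 1 12 131 64, .tr 64 57, .tr 65 21, .tr 65 15, .tr 53 48, .tr 53 23, .nc true 103 303 3 19 13 22, .nc true 3 303 3 17 16 11, .nc true 103 403 3 16 11 13, .tr 172 9, .nc true 306 8 1 8 7 4, .tr 94 4, .nc true 304 4 3 4 27 0, .tr 169 4, .nc true 305 5 1 1 4 14, .tr 0 3, .nc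 true 404 104 3 7 18 2, .nc false 206 5 3 83 2 84, .tr 3 173, .tr 4 102, .tr 5 100, .tr 153 6, .nc true 306 304 1 6 185 43, .nc true 405 105 1 6 19 22, .nc true 104 306 2 4 6 49, .nc true 4 306 2 6 10 36, .tr 158 7, .tr 159 7, .nc true 306 204 1 7 100 51, .nc true 4 406 2 2 7 30, .tr 85 7, .nc true 104 406 2 3 7 55, .nc false 307 104 3 7 0 3, .tr 117 8, .tr 186 9, .tr 125 10, .tr 11 25, .tr 11 26, .tr 93 9, .tr 97 10, .tr 131 10, .nc true 205 303 1 47 115 10, .tr 8 31, .tr 8 32, .tr 8 33, .tr 9 95, .nc true 205 203 1 82 203 7, .nc true 407 203 3 6 1 14, .tr 6 58, .tr 7 62, .tr 8 59, .tr 9 58, .tr 118 5, .tr 122 6, .nc true 408 204 1 6 74 71, .tr 124 6, .tr 122 6, .tr 126 7, .tr 127 7, .tr 128 7, .nc true 4 202 1 97 151 7, .tr 56 6, .nc true 4 102 1 102 156 5, .nc true 6 4 1 4 223 91, .nc true 6 104 1 4 140 90, .nc true 203 7 0 25 20 3, .nc true 7 3 0 23 2 28, .nc true 7 103 0 23 2 30, .tr 106 2, .tr 170 3, .tr 220 4, .nc true 2 6 0 15 2 4, .nc true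 102 6 0 14 2 4, .nc true 6 202 0 2 19 7, .tr 179 2, .tr 179 3, .nc true 5 101 0 1 13 3, .nc true 201 5 0 16 1 3, .nc true 4 100 1 113 112 1, .tr 185 1] 0 1)
  (.split 4 307 (.leaf [(false, 200), (false, 101), (false, 2), (false, 102), (false, 202), (false, 3), (false, 103), (false, 203), (false, 305), (false, 6), (false, 106), (false, 206), (false, 306), (false, 7), (false, 107), (false, 207), (false, 307), (false, 208), (false, 9), (false, 109), (true, 200), (true, 101), (true, 301), (true, 2), (true, 102), (true, 202), (true, 302), (true, 3), (true, 303), (true, 4), (true, 304), (true, 5), (true, 305), (true, 405), (true, 6), (true, 206), (true, 306), (true, 406), (true, 7), (true, 307), (true, 8), (true, 208)]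
    [.tr 4 24, .tr 0 6, .tr 8 4, .tr 9 4, .tr 11 33, .tr 13 34, .tr 16 15, .tr 16 38, .tr 2 18, .tr 4 20, .tr 6 22, .tr 24 25, .tr 26 51, .tr 29 28, .tr 29 53, .tr 33 32, .tr 33 58, .nc false 7 207 2 1 35 20, .tr 3 36, .tr 37 2, .tr 7 39, .tr 21 41, .tr 43 67, .tr 46 45, .tr 22 49, .tr 50 27, .tr 51 27, .tr 53 18, .tr 55 59, .tr 4 57, .tr 27 60, .tr 61 63, .tr 63 32, .tr 64 11, .tr 69 72, .tr 8 71, .tr 32 72, .tr 38 73, .tr 74 78, .tr 28 76, .tr 78 22, .tr 80 25, .tr 81 22, .tr 6 83, .tr 6 84, .tr 5 86, .tr 11 88, .tr 90 24, .tr 1 92, .tr 41 49, .tr 50 2, .nc true 302 102 3 53 41 42, .nc true 306 106 0 31 33 55, .tr 47 46, .nc false 206 6 1 42 68 1, .tr 41 13, .tr 42 13, .tr 6 33, .nc true 300 102 1 33 28 30, .nc true 301 101 0 33 0 61, .tr 0 33, .nc true 2 306 1 24 17 28, .nc true 2 406 1 22 16 28, .tr 3 27, .nc true 102 306 1 26 19 14, .nc true 4 8 0 18 7 16, .tr 14 1, .tr 13 5, .tr 6 13, .tr 2 14, .tr 7 14, .tr 8 14, .nc true 301 305 1 11 8 4,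 .nc true 3 7 1 2 1 7, .nc true 302 304 3 42 106 1, .nc true 4 6 0 110 1 40, .nc true 305 303 3 1 9 110, .nc true 5 3 0 8 110 1, .nc true 306 304 1 1 114 39, .tr 17 2, .nc true 4 2 1 51 111 2, .tr 3 1, .tr 41 3, .tr 2 52, .nc true 303 5 3 0 2 14] 0 2)
  (.leaf [(false, 100), (false, 1), (false, 101), (false, 2), (false, 102), (false, 202), (false, 302), (false, 3), (false, 103), (false, 203), (false, 303), (false, 4), (false, 104), (false, 204), (false, 304), (false, 5), (false, 105), (false, 205), (false, 305), (false, 6), (false, 106), (false, 206), (false, 306), (false, 7), (false, 107), (false, 207), (false, 307), (false, 8), (false, 108), (false, 208), (false, 9), (false, 109), (false, 209), (false, 309), (true, 100), (true, 200), (true, 1), (true, 101), (true, 2), (true, 102), (true, 202), (true, 3), (true, 103), (true, 303), (true, 403), (true, 4), (true, 404), (true, 5), (true, 105), (true, 205), (true, 305), (true, 405), (true, 6), (true,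 206), (true, 306), (true, 7), (true, 307), (true, 407), (true, 8), (true, 208), (true, 408)]
    [.tr 4 39, .tr 7 6, .tr 7 42, .tr 9 44, .tr 11 47, .tr 12 6, .tr 14 50, .tr 17 16, .tr 17 52, .tr 19 0, .nc true 102 2 2 17 5 21, .tr 22 56, .tr 3 24, .tr 3 25, .tr 26 2, .tr 27 61, .nc true 202 302 2 25 7 29, .tr 10 30, .tr 31 32, .tr 32 66, .tr 2 34, .tr 4 35, .tr 37 38, .tr 72 38, .tr 24 39, .tr 1 41, .nc true 303 203 2 39 6 43, .tr 45 44, .tr 78 46, .tr 48 80, .tr 50 82, .tr 52 53, .tr 53 86, .nc true 304 404 1 51 4 55, .tr 28 56, .tr 36 57, .tr 58 91, .nc true 5 105 2 56 7 60, .tr 61 62, .nc true 105 205 2 59 8 63, .tr 2 64, .tr 65 98, .nc true 305 205 2 63 9 67, .tr 69 68, .tr 69 101, .nc true 405 305 2 67 8 71, .tr 72 104, .tr 75 74, .tr 75 107, .nc false 7 207 2 1 77 52, .tr 5 78, .tr 79 2, .nc true 206 306 2 77 7 81, .tr 11 82, .tr 83 114, .tr 2 85, .tr 6 86, .tr 87 118, .tr 89 90, .nc true 307 207 2 88 4 92, .tr 93 123, .tr 96 95, .nc true 208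 308 2 95 1 98, .tr 0 100, .tr 102 61, .tr 105 59, .tr 106 31, .tr 108 56, .tr 109 32, .tr 4 111, .tr 113 58, .tr 115 51, .tr 2 117, .tr 5 118, .tr 52 122, .tr 56 123, .tr 124 48, .tr 129 23, .tr 131 22, .tr 13 133, .tr 81 134, .tr 14 136, .tr 50 137, .tr 138 39, .tr 139 37, .tr 141 35, .tr 142 29, .tr 144 39, .tr 146 63, .tr 10 150, .tr 38 152, .tr 154 29, .tr 2 156, .tr 7 93, .tr 47 94, .tr 45 95, .tr 92 97, .nc false 102 302 2 99 106 89, .nc true 302 102 3 100 80 85, .nc true 306 106 0 45 48 102, .tr 98 33, .tr 99 21, .tr 100 20, .tr 4 91, .nc true 402 102 3 6 83 90, .nc false 203 4 3 90 1 89, .tr 12 83, .tr 12 84, .tr 12 85, .nc true 104 306 1 20 84 31, .tr 25 85, .nc false 303 104 1 5 84 34, .nc false 105 306 2 2 79 29, .nc false 206 6 1 74 137 13, .nc false 5 206 2 73 74 4, .nc false 306 106 1 15 140 71, .tr 72 28, .tr 72 65, .tr 73 27, .tr 73 5, .tr 74 20, .nc true 406 6 0 34 4 64, .tr 63 58, .tr 63 31, .tr 55 4, .nc true 406 204 1 17 42 46,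 .tr 45 12, .nc false 305 106 0 6 84 43, .nc true 105 305 0 0 18 28, .tr 28 9, .nc true 105 405 0 9 17 14, .tr 185 17, .nc true 5 305 0 0 17 18, .nc true 306 8 1 15 14 9, .tr 5 100, .nc true 404 104 0 24 0 4, .tr 3 102, .nc true 403 103 1 32 25 1, .tr 1 0, .nc true 4 102 1 68 127 0, .nc true 5 101 0 15 0 13, .tr 1 149, .tr 2 135, .nc true 4 100 1 70 69 2, .nc true 5 203 1 1 118 37, .tr 1 144, .tr 14 1, .tr 27 2, .tr 34 3, .tr 27 4, .nc true 201 5 3 4 8 20, .nc true 304 202 1 79 131 4, .nc true 404 202 1 77 76 4, .tr 2 209, .tr 3 68, .tr 4 68, .nc true 305 201 3 59 54 4, .nc true 405 201 3 56 54 4, .nc true 6 202 3 7 4 13, .nc true 202 306 3 2 10 4, .nc true 202 406 3 2 10 4, .tr 1 27, .tr 2 104, .nc true 407 203 3 2 0 37, .nc true 203 7 3 5 55 2, .nc true 408 204 1 1 75 72, .tr 0 1] 0 44)))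

theorem xH_0 : t_xH_0.chk 7 10 12 495 [] 1 [(102, 302), (107, 307)] = true := by
  decide +kernel

def t_xE_1 : Tr := (.leaf [(false, 100), (false, 200), (false, 101), (false, 201), (true, 200)]
    [.tr 2 6, .tr 4 7, .tr 0 6, .tr 2 8, .nc true 300 100 1 4 1 5] 0 1)

theorem xE_1 : t_xE_1.chk 7 2 12 1 [] 1 [(300, 100), (301, 101)] = true := by
  decide +kernel

def t_xP_1 : Tr := (.leaf [(false, 200), (false, 101), (false, 202), (false, 103), (true, 200), (true, 101), (true, 301), (true, 102), (true, 202)]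
    [.tr 2 6, .tr 0 4, .tr 6 12, .tr 0 8, .tr 2 11, .tr 12 6, .tr 14 2, .tr 2 16, .nc true 101 301 1 8 2 9, .nc true 300 102 1 4 1 2] 0 1)

theorem xP_1 : t_xP_1.chk 7 4 12 7 [] 1 [(101, 301), (102, 302)] = true := by
  decide +kernel

def t_xW_1 : Tr := (.leaf [(false, 100), (false, 200), (false, 101), (false, 201), (true, 200)]
    [.tr 6 2, .tr 7 4, .tr 6 0, .tr 8 2, .nc true 300 100 2 4 0 5] 0 2)

theorem xW_1 : t_xW_1.chk 7 2 12 0 [] 0 [(100, 300), (101, 301)] = true := by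
  decide +kernel

def t_xH_1 : Tr := (.split 105 302 (.leaf [(false, 0), (false, 100), (false, 200), (false, 300), (false, 1), (false, 101), (false, 201), (false, 301), (false, 2), (false, 102), (false, 202), (false, 302), (false, 3), (false, 103), (false, 203), (false, 303), (false, 4), (false, 104), (false, 204), (false, 304), (false, 5), (false, 105), (false, 205), (false, 305), (false, 6), (false, 106), (false, 206), (false, 306), (false, 7), (false, 107), (false, 207), (false, 108), (false, 9), (false, 109), (true, 200), (true, 1), (true, 201), (true, 301), (true, 401), (true, 2), (true, 102), (true, 202), (true, 302), (true, 3), (true, 103), (true, 203), (true, 303), (true, 403), (true, 4), (true, 104), (true, 304), (true, 404), (true, 5), (true, 105), (true, 305), (true, 405), (true, 6), (true, 106), (true, 206), (true, 306), (true, 7), (true, 107), (true, 8), (true, 208)]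
    [.tr 3 4, .tr 7 6, .tr 7 39, .tr 9 0, .tr 12 11, .tr 12 43, .tr 15 46, .tr 17 48, .nc true 1 101 2 15 2 19, .tr 20 21, .tr 21 53, .nc false 202 2 1 1 23 12, .tr 24 56, .tr 26 57, .tr 14 27, .nc true 401 301 2 25 7 29, .tr 30 4, .tr 31 18, .tr 32 4, .nc true 102 2 2 30 8 34, .tr 35 66, .tr 7 37, .tr 3 38, .tr 39 2, .tr 40 71, .nc true 202 302 2 38 11 42, .tr 13 43, .tr 44 45, .tr 45 77, .tr 2 47, .tr 4 48, .tr 49 81, .tr 83 51, .tr 0 53, .tr 86 54, .nc true 303 203 2 52 6 56, .tr 58 57, .nc true 403 303 2 55 5 59, .tr 92 60, .nc true 104 4 1 58 6 62, .tr 63 95, .tr 65 26, .tr 66 42, .tr 67 3, .tr 68 100, .tr 70 71, .tr 71 103, .nc true 304 404 1 69 8 73, .tr 74 106, .nc true 5 105 2 72 8 76, .tr 77 78, .tr 78 111, .nc true 105 205 2 76 7 80, .tr 3 81, .tr 82 115, .nc true 305 205 2 80 8 84, .tr 86 85, .tr 86 118, .nc true 405 305 2 84 9 88, .tr 89 1, .tr 62 91, .tr 92 124, .nc true 206 106 2 90 7 94, .tr 5 95, .tr 4 96, .tr 97 129, .tr 11 99, .nc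 true 107 207 2 99 1 101, .tr 104 103, .tr 106 64, .tr 107 63, .tr 67 110, .tr 113 53, .tr 61 115, .tr 57 116, .tr 3 119, .tr 34 120, .tr 6 122, .tr 123 46, .tr 79 124, .tr 58 127, .tr 5 129, .tr 9 130, .tr 64 131, .tr 4 133, .tr 135 48, .tr 141 145, .tr 142 35, .tr 145 24, .tr 146 31, .tr 44 148, .tr 149 34, .tr 150 27, .tr 151 33, .tr 156 33, .tr 8 158, .tr 0 161, .tr 163 28, .nc true 302 104 1 17 98 18, .tr 99 20, .nc true 102 302 3 101 78 73, .tr 58 102, .nc true 106 306 0 38 35 104, .tr 102 32, .tr 103 26, .tr 103 35, .tr 97 79, .tr 97 81, .tr 98 77, .nc true 2 302 3 97 35 1, .tr 67 98, .nc true 2 402 3 94 36 2, .nc true 102 402 3 94 89 82, .tr 11 93, .nc false 203 4 1 90 89 15, .tr 38 87, .tr 6 84, .tr 16 85, .nc false 5 204 2 84 83 33, .nc false 303 104 1 20 83 33, .tr 8 82, .tr 8 83, .tr 72 19, .nc false 6 206 2 72 151 20, .nc false 5 206 3 70 71 1, .nc false 106 306 2 22 154 68, .tr 67 31, .nc true 204 402 1 43 41 11, .nc false 105 306 2 3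 81 37, .nc true 303 103 3 28 7 30, .nc true 0 302 1 26 25 23, .nc true 303 3 3 21 10 16, .nc true 403 103 3 19 14 12, .tr 186 3, .tr 95 4, .tr 188 3, .tr 97 4, .nc true 104 404 3 4 37 2, .nc true 104 304 3 8 53 4, .nc true 4 304 3 7 20 3, .nc true 105 405 1 2 11 14, .nc true 105 305 1 2 16 38, .nc true 5 305 1 2 19 18, .tr 2 6, .tr 3 105, .tr 4 199, .tr 173 5, .nc true 304 106 2 2 5 58, .tr 5 12, .tr 6 101, .nc true 106 4 1 6 100 62, .nc true 404 106 2 5 10 58, .nc true 404 6 2 2 5 25, .tr 32 5, .tr 203 6, .tr 117 7, .tr 8 88, .nc true 6 4 1 8 212 70, .tr 95 7, .tr 191 8, .tr 8 92, .tr 44 8, .tr 8 100, .tr 9 95, .tr 9 96, .tr 9 97, .nc true 7 3 3 4 3 8, .nc true 205 3 1 53 123 8, .nc true 8 4 1 1 72 71, .tr 1 59, .tr 2 58, .tr 3 50, .tr 4 55, .tr 75 4, .nc true 206 304 1 2 118 84, .nc true 206 404 1 2 83 81, .nc true 3 207 0 16 12 2, .nc true 207 303 0 12 2 20, .nc true 207 403 0 12 2 17, .tr 221 2, .tr 106 3, .tr 106 4, .nc true 302 206 0 12 1 4,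 .nc true 402 206 0 12 1 4, .nc true 206 2 0 4 16 7, .tr 54 2, .tr 170 3, .nc true 205 401 0 0 59 3, .nc true 1 205 0 77 2 3, .nc true 204 400 1 107 106 1, .tr 84 1] 0 1)
  (.split 403 7 (.leaf [(false, 0), (false, 100), (false, 1), (false, 201), (false, 301), (false, 2), (false, 102), (false, 202), (false, 302), (false, 103), (false, 203), (false, 303), (false, 104), (false, 204), (false, 304), (false, 5), (false, 105), (false, 205), (false, 6), (false, 106), (false, 206), (false, 7), (false, 107), (false, 207), (false, 8), (false, 108), (true, 0), (true, 200), (true, 1), (true, 301), (true, 401), (true, 2), (true, 202), (true, 302), (true, 402), (true, 3), (true, 103), (true, 303), (true, 403), (true, 4), (true, 104), (true, 204), (true, 304), (true, 5), (true, 105), (true, 205), (true, 305), (true, 6), (true, 106), (true, 206), (true, 7)]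
    [.tr 4 5, .tr 7 33, .tr 9 10, .tr 10 36, .nc true 1 101 2 10 2 13, .tr 14 15, .nc false 202 2 1 0 16 8, .tr 2 17, .tr 19 44, .tr 21 2, .tr 22 11, .tr 24 51, .nc true 202 302 2 23 3 26, .tr 27 28, .tr 28 55, .tr 2 30, .tr 31 58, .tr 32 17, .tr 62 34, .nc true 303 203 2 33 4 36, .tr 66 37, .nc true 403 303 2 36 4 39, .tr 23 41, .tr 12 42, .tr 43 71, .tr 45 73, .nc true 204 304 1 43 5 47, .tr 48 77, .nc true 5 105 2 47 3 50, .tr 51 52, .tr 52 82, .tr 2 54, .tr 55 85, .nc true 305 205 2 54 5 57, .tr 58 87, .tr 61 60, .tr 61 90, .nc true 206 106 2 60 4 63, .tr 3 64, .tr 6 66, .nc true 7 107 2 65 3 68, .tr 0 70, .tr 72 74, .tr 74 39, .tr 76 79, .tr 79 34, .tr 3 81, .tr 40 82, .tr 38 83, .tr 84 88, .tr 42 86, .tr 45 87, .tr 88 40, .tr 90 33, .tr 91 36, .tr 93 55, .tr 9 95, .tr 12 96, .tr 35 105, .tr 35 106, .tr 107 111, .tr 15 109, .tr 63 110, .tr 112 25, .tr 114 29, .tr 2 117, .tr 36 119, .tr 120 31, .nc true 402 6 1 8 12 68, .tr 65 70, .nc true 106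 306 0 31 30 73, .tr 70 27, .tr 69 10, .tr 67 60, .tr 68 58, .nc true 2 302 3 68 27 1, .nc true 2 402 3 66 27 1, .tr 63 8, .tr 62 9, .nc true 302 6 1 20 24 61, .tr 62 38, .tr 4 59, .tr 10 59, .tr 54 12, .nc false 6 206 2 54 107 13, .tr 7 55, .tr 6 56, .tr 7 56, .tr 54 20, .tr 38 11, .tr 38 12, .nc true 0 4 3 34 33 8, .nc false 202 6 2 13 33 29, .nc true 302 106 1 30 27 5, .tr 14 27, .tr 18 26, .nc true 201 105 1 26 23 3, .nc false 203 6 2 19 17 3, .nc true 1 5 1 6 8 7, .nc true 202 104 3 46 87 2, .nc true 105 203 3 0 2 81, .nc true 2 4 3 51 140 2, .nc true 106 204 1 1 76 38, .nc true 5 3 3 1 7 146, .tr 66 1, .nc true 6 4 1 1 152 44, .tr 26 2, .nc true 203 205 0 152 21 2, .tr 19 2, .nc true 303 3 3 33 27 2, .tr 101 2, .nc true 302 204 3 57 91 0, .nc true 205 303 3 0 25 85, .nc true 206 304 1 0 79 48, .tr 82 1, .tr 85 2, .nc true 207 303 3 21 35 2, .nc true 4 304 3 7 2 8, .tr 76 1, .nc true 5 305 1 1 35 34, .nc true 304 6 0 0 1 31] 0 5)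
  (.leaf [(false, 200), (false, 201), (false, 301), (false, 202), (false, 302), (false, 3), (false, 103), (false, 203), (false, 303), (false, 403), (false, 104), (false, 204), (false, 304), (false, 404), (false, 504), (false, 5), (false, 105), (false, 205), (false, 405), (false, 505), (false, 6), (false, 106), (false, 206), (false, 306), (false, 406), (false, 506), (false, 7), (false, 107), (false, 207), (false, 307), (false, 407), (false, 507), (false, 108), (false, 208), (false, 9), (false, 109), (false, 209), (true, 200), (true, 300), (true, 301), (true, 401), (true, 202), (true, 302), (true, 402), (true, 3), (true, 103), (true, 203), (true, 303), (true, 403), (true, 104), (true, 304), (true, 404), (true, 5), (true, 105), (true, 205), (true, 305), (true, 405), (true, 6), (true, 106), (true, 206), (true, 306), (true, 506), (true, 606), (true, 7), (true, 107), (true, 307), (true, 8), (true, 208), (true, 308)]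
    [.tr 4 41, .tr 6 7, .tr 7 45, .nc true 301 201 2 8 0 10, .tr 11 49, .tr 13 0, .tr 14 7, .tr 16 55, .tr 2 18, .tr 19 1, .tr 20 59, .tr 22 62, .tr 24 64, .tr 26 65, .tr 67 28, .nc true 303 203 2 26 3 30, .tr 32 31, .tr 71 32, .nc true 403 303 2 30 5 34, .nc true 403 503 2 32 5 36, .tr 7 37, .tr 76 38, .tr 1 40, .tr 3 41, .tr 25 43, .tr 18 44, .tr 45 82, .nc true 204 104 1 41 12 47, .tr 48 1, .tr 49 86, .nc true 204 304 1 45 12 51, .tr 52 90, .nc true 504 404 1 49 10 54, .tr 55 93, .tr 57 1, .tr 58 1, .nc true 5 105 2 55 9 60, .tr 61 62, .tr 62 100, .nc true 105 205 2 59 9 64, .tr 3 65, .tr 66 104, .nc true 305 205 2 63 10 68, .tr 70 69, .tr 70 107, .tr 11 72, .tr 10 73, .tr 75 76, .tr 76 113, .nc true 106 6 2 73 10 79, .tr 80 50, .tr 82 81, .tr 55 82, .tr 83 120, .nc true 206 106 2 79 12 85, .tr 86 4, .tr 11 87, .nc true 206 306 2 83 12 89, .tr 16 90, .tr 91 92, .nc true 506 406 2 88 11 94, .tr 96 95, .tr 98 133, .tr 100 134, .tr 103 102, .tr 2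 105, .tr 108 62, .tr 109 110, .tr 111 63, .tr 112 115, .tr 113 45, .tr 115 45, .tr 116 65, .tr 6 118, .tr 119 64, .tr 120 64, .tr 8 122, .tr 123 61, .tr 124 129, .tr 126 59, .tr 127 56, .tr 72 130, .tr 8 132, .tr 14 133, .tr 7 135, .tr 15 136, .tr 138 69, .tr 36 139, .tr 17 144, .tr 17 145, .tr 65 146, .tr 18 148, .tr 85 149, .tr 150 43, .tr 152 36, .tr 66 156, .tr 159 40, .tr 160 45, .tr 162 45, .tr 165 37, .tr 4 167, .tr 169 35, .tr 43 171, .tr 2 173, .tr 1 176, .tr 105 18, .tr 12 106, .tr 8 107, .tr 105 109, .tr 110 69, .nc false 307 107 1 113 142 50, .nc true 106 306 0 54 52 114, .tr 115 24, .tr 111 41, .tr 112 24, .tr 113 23, .tr 113 6, .nc true 104 402 2 35 110 10, .nc false 104 303 0 102 0 31, .tr 86 102, .tr 85 103, .tr 8 104, .tr 25 103, .tr 4 100, .tr 17 100, .tr 97 6, .nc true 205 303 1 0 95 3, .nc true 306 204 0 5 95 32, .tr 91 16, .nc false 6 206 2 91 154 17, .tr 41 92, .nc false 5 206 3 90 91 2, .tr 89 5, .nc false 106 306 2 21 159 89,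 .tr 88 26, .tr 88 27, .tr 2 88, .tr 26 86, .tr 77 0, .tr 75 74, .tr 69 11, .nc true 204 302 1 63 125 15, .nc true 304 302 1 63 193 9, .nc true 504 402 1 63 123 8, .nc true 604 402 1 63 120 8, .tr 0 63, .tr 7 59, .tr 9 60, .tr 57 18, .tr 4 56, .tr 50 2, .nc true 106 308 1 48 46 49, .tr 43 20, .nc true 205 301 0 22 11 43, .nc true 604 104 3 30 8 29, .tr 21 183, .nc true 105 605 2 1 6 19, .tr 120 20, .tr 182 21, .nc true 305 301 0 18 16 10, .tr 18 167, .nc false 205 202 1 0 19 18, .tr 19 157, .tr 19 157, .tr 19 158, .nc true 505 203 1 1 45 18, .nc true 605 203 1 1 45 15, .nc true 204 300 1 84 83 13, .tr 12 2, .tr 12 2, .tr 12 3, .tr 12 4, .nc true 304 300 1 87 86 12, .nc true 305 203 1 10 155 45, .tr 6 173, .nc true 104 202 1 99 164 5, .nc true 4 202 1 101 166 5, .tr 4 176, .nc true 201 205 3 3 17 61, .nc true 105 201 3 70 63 3, .nc true 5 201 3 66 65 3, .nc true 201 305 3 3 19 28, .tr 3 84, .tr 4 128, .tr 5 126, .nc true 202 106 3 5 16 1, .nc true 202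 6 3 5 14 3, .nc true 306 202 3 5 2 13, .tr 2 134, .tr 3 37, .nc true 7 203 3 3 1 84, .nc true 203 307 3 3 69 1, .nc true 8 204 1 1 91 88, .tr 0 1] 0 54)))

theorem xH_1 : t_xH_1.chk 7 10 12 495 [] 1 [(302, 102), (307, 107)] = true := by
  decide +kernel

def t_xGC0_0 : Tr := (.leaf [(false, 100), (false, 201), (false, 301), (false, 102), (false, 202), (false, 3), (false, 303), (false, 304), (false, 5), (false, 105), (false, 205), (false, 305), (false, 106), (false, 206), (false, 306), (true, 200), (true, 101), (true, 201), (true, 301), (true, 401), (true, 102), (true, 302), (true, 402), (true, 3), (true, 103), (true, 203), (true, 303), (true, 4), (true, 104), (true, 204), (true, 404), (true, 205)]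
    [.tr 2 17, .tr 0 4, .tr 5 6, .tr 22 6, .tr 7 24, .tr 3 9, .tr 2 10, .tr 12 3, .tr 13 1, .tr 14 15, .tr 17 35, .tr 37 18, .tr 40 20, .nc true 403 303 1 21 0 22, .tr 46 23, .tr 26 25, .tr 27 46, .tr 50 28, .tr 49 30, .tr 52 31, .nc true 304 404 1 29 5 33, .tr 2 34, .tr 36 2, .tr 38 5, .tr 40 39, .tr 47 43, .tr 24 46, .tr 21 48, .tr 25 49, .tr 20 50, .tr 56 52, .tr 4 54, .tr 4 56, .tr 3 57, .tr 59 63, .tr 61 9, .tr 19 62, .tr 64 18, .tr 65 16, .tr 24 67, .tr 29 69, .tr 71 5, .tr 72 11, .nc true 301 101 1 43 35 33, .nc true 105 305 0 21 20 45, .nc false 302 101 1 1 40 16, .tr 29 34, .nc false 5 205 2 31 58 2, .tr 30 6, .tr 31 6, .tr 2 29, .tr 26 2, .tr 27 2, .nc true 302 100 3 26 21 9, .nc true 402 100 3 26 21 8, .tr 20 7, .nc false 3 205 3 9 19 0, .nc false 103 305 2 0 19 18, .tr 18 4, .tr 18 8, .nc true 405 101 2 1 8 7, .tr 47 7, .nc true 101 403 3 7 28 0, .nc true 102 404 2 0 3 5] 0 3)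

theorem xGC0_0 : t_xGC0_0.chk 7 8 12 119 [2, 4, 5, 102, 105, 202, 204, 205, 305, 405, 502, 504, 505, 604, 605] 1 [(301, 101), (306, 106)] = true := by
  decide +kernel

def t_xGC0_1 : Tr := (.leaf [(false, 1), (false, 101), (false, 201), (false, 301), (false, 102), (false, 302), (false, 402), (false, 3), (false, 203), (false, 303), (false, 4), (false, 104), (false, 204), (false, 304), (false, 404), (false, 105), (false, 205), (false, 305), (false, 405), (false, 106), (false, 206), (true, 1), (true, 201), (true, 401), (true, 2), (true, 102), (true, 302), (true, 402), (true, 502), (true, 103), (true, 203), (true, 303), (true, 503), (true, 104), (true, 204), (true, 404), (true, 504), (true, 105), (true, 205)]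
    [.tr 3 2, .nc false 1 201 2 0 4 1, .tr 26 5, .tr 27 7, .tr 2 9, .tr 5 10, .tr 2 11, .tr 13 0, .tr 35 14, .tr 16 37, .tr 18 0, .tr 42 20, .tr 22 23, .tr 46 24, .tr 27 26, .tr 50 27, .tr 29 4, .tr 49 30, .tr 32 4, .tr 35 34, .tr 37 4, .tr 38 56, .tr 62 39, .tr 59 41, .tr 42 43, .tr 65 43, .tr 2 45, .tr 1 46, .tr 66 48, .tr 50 3, .tr 51 2, .tr 53 8, .tr 55 27, .tr 27 58, .tr 1 59, .tr 27 60, .tr 62 1, .tr 64 1, .tr 69 65, .tr 5 68, .tr 4 69, .tr 4 70, .tr 4 71, .tr 73 32, .tr 75 35, .tr 76 2, .tr 81 77, .tr 79 20, .tr 82 28, .tr 84 37, .tr 85 4, .tr 3 88, .tr 21 89, .tr 92 2, .nc true 305 105 0 22 24 55, .nc false 403 203 1 42 66 11, .nc false 403 204 1 37 42 7, .tr 0 42, .tr 3 42, .tr 2 42, .tr 4 42, .nc false 205 4 3 40 2 39, .nc false 305 104 1 0 38 35, .nc false 305 105 1 8 81 38, .tr 35 1, .tr 36 1, .tr 3 27, .tr 4 22, .nc false 4 403 0 22 10 7, .tr 3 22, .tr 6 23, .nc true 404 202 0 3 19 23, .tr 6 22, .nc true 105 403 2 22 19 20, .nc true 503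 3 3 14 1 16, .nc true 104 404 0 1 12 11, .nc false 4 404 0 0 1 11, .nc true 3 403 2 35 8 0, .nc false 3 404 1 0 5 8, .nc true 102 404 0 0 12 8, .tr 8 77, .nc true 101 403 2 41 40 1] 0 1)

theorem xGC0_1 : t_xGC0_1.chk 7 8 12 119 [2, 4, 5, 102, 105, 202, 204, 205, 305, 405, 502, 504, 505, 604, 605] 1 [(101, 301), (106, 306)] = true := by
  decide +kernel

def t_xGC1_0 : Tr := (.leaf [(false, 101), (false, 201), (false, 2), (false, 102), (false, 202), (false, 3), (false, 5), (false, 105), (false, 205), (false, 106), (false, 206), (true, 201), (true, 2), (true, 102), (true, 302), (true, 3), (true, 103), (true, 303), (true, 4), (true, 104), (true, 304), (true, 105), (true, 205), (true, 305)]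
    [.tr 13 2, .tr 14 4, .tr 16 6, .tr 8 1, .tr 1 9, .tr 20 10, .tr 12 5, .tr 25 14, .tr 17 16, .tr 18 30, .tr 34 19, .tr 35 21, .tr 23 0, .tr 25 2, .tr 32 29, .tr 31 8, .tr 33 36, .tr 7 35, .tr 37 2, .tr 41 38, .tr 41 5, .tr 43 2, .tr 45 1, .tr 48 1, .nc true 101 301 3 24 20 17, .nc true 105 305 0 12 11 26, .tr 27 3, .tr 24 2, .nc false 3 202 3 23 22 0, .tr 19 21, .nc false 5 205 2 21 39 4, .tr 14 0, .nc false 3 205 3 2 14 0, .tr 0 13, .nc true 305 101 2 12 10 7, .nc true 102 302 2 10 6 1, .tr 3 58, .nc true 304 102 0 2 0 4, .nc true 101 303 0 2 19 0] 0 23)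

theorem xGC1_0 : t_xGC1_0.chk 7 8 12 119 [2, 4, 5, 102, 105, 202, 204, 205, 302, 305, 402, 404, 405, 502, 505, 604, 605] 1 [(301, 101), (306, 106)] = true := by
  decide +kernel

def t_xGC1_1 : Tr := (.leaf [(false, 101), (false, 201), (false, 301), (false, 102), (false, 202), (false, 302), (false, 303), (false, 4), (false, 105), (false, 205), (false, 305), (false, 106), (false, 206), (true, 201), (true, 102), (true, 302), (true, 402), (true, 103), (true, 303), (true, 403), (true, 104), (true, 204), (true, 304), (true, 404), (true, 105), (true, 205), (true, 305)]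
    [.tr 15 2, .tr 16 4, .tr 2 6, .tr 1 7, .tr 9 2, .tr 10 1, .tr 12 5, .tr 14 0, .tr 26 15, .nc true 302 402 1 16 0 17, .tr 18 31, .tr 33 20, .tr 22 0, .tr 23 35, .tr 41 24, .tr 38 26, .tr 27 28, .tr 44 28, .tr 2 30, .tr 32 1, .tr 34 5, .tr 37 16, .tr 42 39, .tr 42 1, .tr 46 43, .tr 47 1, .tr 50 3, .tr 16 52, .tr 54 2, .tr 57 2, .nc true 301 101 3 30 23 25, .nc true 305 105 0 10 11 32, .tr 33 2, .nc true 401 101 3 30 25 27, .tr 24 0, .tr 3 23, .nc false 205 4 3 23 0 22, .nc false 305 104 1 0 21 18, .nc false 305 105 1 6 49 21, .tr 0 14, .nc true 105 301 2 14 11 7, .tr 13 1, .tr 14 4, .tr 15 4, .nc true 302 102 2 13 9 2, .nc true 104 302 0 4 2 1, .nc true 301 103 0 1 22 0] 0 25)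

theorem xGC1_1 : t_xGC1_1.chk 7 8 12 119 [2, 4, 5, 102, 105, 202, 204, 205, 302, 305, 402, 404, 405, 502, 505, 604, 605] 1 [(101, 301), (106, 306)] = true := by
  decide +kernel

def t_xGB0_0 : Tr := (.leaf [(false, 1), (false, 101), (false, 201), (false, 2), (false, 102), (false, 202), (false, 3), (false, 103), (false, 203), (false, 4), (false, 104), (false, 304), (false, 5), (false, 105), (false, 205), (false, 305), (false, 6), (false, 106), (false, 306), (true, 201), (true, 301), (true, 2), (true, 102), (true, 202), (true, 302), (true, 3), (true, 103), (true, 203), (true, 303), (true, 4), (true, 104), (true, 304), (true, 205), (true, 405)]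
    [.tr 0 2, .tr 22 4, .tr 23 6, .tr 8 9, .tr 10 1, .tr 29 11, .tr 12 31, .tr 14 5, .tr 15 33, .tr 17 33, .tr 18 4, .tr 20 40, .tr 22 41, .tr 40 24, .tr 25 42, .tr 46 26, .tr 2 28, .tr 49 29, .tr 31 51, .nc true 104 4 1 30 3 33, .tr 35 34, .nc true 204 104 1 33 3 36, .tr 37 2, .tr 39 0, .tr 40 2, .tr 58 41, .tr 42 5, .nc true 304 404 2 40 8 44, .tr 46 47, .nc false 206 6 1 0 48 30, .tr 50 0, .tr 53 30, .tr 55 15, .tr 59 1, .tr 18 62, .tr 13 63, .tr 11 64, .tr 30 66, .tr 29 67, .tr 69 5, .tr 73 3, .tr 74 17, .tr 75 15, .tr 14 77, .tr 79 13, .nc true 101 301 3 45 40 37, .nc false 2 202 2 42 52 0, .tr 37 1, .nc false 3 202 3 37 42 0, .nc false 204 3 1 32 37 8, .nc true 204 102 1 12 38 14, .tr 36 2, .tr 29 0, .tr 27 2, .tr 26 9, .nc false 204 2 1 22 17 1, .nc true 303 1 2 22 16 0, .tr 22 8, .nc true 204 302 3 19 5 45, .tr 15 0, .nc true 302 2 3 13 3 12, .nc true 303 3 2 0 11 19, .nc true 302 4 3 10 0 4, .nc true 303 5 2 0 20 8] 0 4)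

theorem xGB0_0 : t_xGB0_0.chk 7 8 12 119 [2, 3, 5, 102, 105, 202, 203, 205, 302, 402, 502, 503, 505, 602, 603] 1 [(301, 101), (306, 106)] = true := by
  decide +kernel

def t_xGB0_1 : Tr := (.leaf [(false, 1), (false, 101), (false, 201), (false, 301), (false, 102), (false, 202), (false, 302), (false, 303), (false, 4), (false, 304), (false, 105), (false, 205), (false, 305), (false, 206), (false, 306), (false, 107), (true, 1), (true, 201), (true, 2), (true, 102), (true, 402), (true, 3), (true, 103), (true, 303), (true, 104), (true, 304), (true, 105), (true, 205), (true, 305), (true, 405), (true, 206)]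
    [.tr 3 2, .nc false 1 201 2 0 4 1, .tr 21 6, .tr 1 8, .tr 1 9, .tr 11 0, .nc true 301 201 1 10 3 13, .tr 15 0, .tr 30 16, .tr 34 18, .tr 33 20, .tr 22 38, .tr 25 24, .tr 42 25, .nc true 304 404 2 25 2 28, .tr 30 1, .tr 46 31, .tr 33 32, .tr 33 50, .tr 35 0, .tr 1 37, .tr 1 38, .tr 40 20, .tr 41 19, .tr 44 13, .tr 46 19, .tr 16 48, .tr 51 1, .tr 54 0, .tr 57 0, .tr 60 9, .tr 62 13, .tr 63 10, .nc true 105 305 1 20 17 34, .tr 27 33, .tr 27 34, .nc true 301 1 3 34 1 13, .nc true 401 1 3 33 1 13, .tr 29 1, .tr 27 26, .tr 28 9, .tr 26 8, .nc false 106 305 2 8 25 10, .tr 5 18, .tr 5 19, .nc true 106 304 0 3 11 14, .nc true 106 404 0 5 3 13, .tr 1 20, .tr 2 38, .nc true 403 105 0 9 0 2, .nc true 105 401 2 21 20 2, .nc true 402 104 2 7 6 1] 0 1)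

theorem xGB0_1 : t_xGB0_1.chk 7 8 12 119 [2, 3, 5, 102, 105, 202, 203, 205, 302, 402, 502, 503, 505, 602, 603] 1 [(101, 301), (106, 306)] = true := by
  decide +kernel

def t_xGB1_0 : Tr := (.leaf [(false, 101), (false, 201), (false, 301), (false, 102), (false, 202), (false, 302), (false, 3), (false, 303), (false, 304), (false, 105), (false, 205), (false, 106), (false, 206), (true, 201), (true, 102), (true, 302), (true, 402), (true, 103), (true, 303), (true, 403), (true, 104), (true, 304), (true, 105), (true, 205), (true, 305)]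
    [.tr 15 2, .tr 4 5, .tr 17 5, .tr 0 7, .tr 9 1, .tr 10 1, .tr 22 11, .tr 13 6, .tr 15 0, .tr 17 25, .tr 18 3, .tr 29 20, .tr 33 22, .tr 38 24, .tr 39 26, .tr 28 0, .tr 30 2, .tr 36 33, .tr 35 10, .tr 37 6, .tr 42 39, .tr 41 2, .tr 44 4, .tr 6 45, .tr 47 2, .tr 49 2, .tr 50 5, .tr 53 2, .nc false 301 101 1 28 31 26, .nc true 101 301 3 29 24 21, .nc true 105 305 0 14 13 31, .tr 32 5, .tr 33 5, .nc true 101 401 3 4 27 24, .tr 24 4, .nc false 3 202 3 24 28 0, .tr 2 24, .tr 19 3, .tr 20 1, .nc true 101 303 3 20 2 17, .tr 2 20, .tr 18 1, .nc true 305 101 2 17 14 10, .nc true 102 302 3 13 7 6, .nc true 104 304 2 3 2 13, .nc true 103 305 0 0 12 21, .nc true 103 303 2 2 7 5, .nc true 304 102 2 7 4 1] 0 1)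

theorem xGB1_0 : t_xGB1_0.chk 7 8 12 119 [2, 3, 5, 102, 105, 202, 203, 205, 302, 305, 402, 403, 405, 502, 505, 602, 603] 1 [(301, 101), (306, 106)] = true := by
  decide +kernel

def t_xGB1_1 : Tr := (.leaf [(false, 1), (false, 101), (false, 201), (false, 102), (false, 202), (false, 3), (false, 4), (false, 104), (false, 5), (false, 105), (false, 205), (false, 106), (false, 206), (true, 1), (true, 201), (true, 2), (true, 102), (true, 302), (true, 3), (true, 103), (true, 303), (true, 4), (true, 104), (true, 304), (true, 105), (true, 205), (true, 305)]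
    [.tr 3 2, .nc false 1 201 2 0 4 1, .tr 18 6, .tr 8 0, .tr 22 9, .nc true 301 201 1 9 2 11, .tr 23 13, .tr 14 2, .tr 28 16, .tr 32 17, .tr 34 19, .nc true 104 4 1 19 1 21, .nc true 204 104 1 21 1 23, .tr 24 1, .tr 41 25, .tr 42 27, .tr 29 0, .tr 31 2, .tr 33 16, .tr 37 15, .tr 42 39, .tr 42 1, .tr 47 44, .tr 47 1, .tr 49 3, .tr 8 50, .tr 52 2, .tr 55 2, .tr 56 5, .nc true 305 105 0 11 12 30, .tr 31 2, .tr 32 2, .tr 26 31, .nc true 301 1 3 31 0 14, .tr 0 27, .nc false 202 3 1 27 30 0, .tr 0 27, .tr 7 25, .nc false 205 4 3 24 0 25, .tr 18 2, .nc true 105 301 2 16 13 9, .nc true 304 104 2 1 2 11, .nc true 303 105 0 0 10 16, .nc true 104 302 2 6 2 0, .tr 63 7] 0 1)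

theorem xGB1_1 : t_xGB1_1.chk 7 8 12 119 [2, 3, 5, 102, 105, 202, 203, 205, 302, 305, 402, 403, 405, 502, 505, 602, 603] 1 [(101, 301), (106, 306)] = true := by
  decide +kernel

end Pool.Agent.Helper89.MF
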