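import Pool.Agent.Helper89.MF.Steps

/-!
Map folding: the knot bits persist through the whole sheet.
-/

set_option autoImplicit false

namespace Pool.Agent.Helper89.MF

open Pool.Agent.Helper69.MF Pool.Agent.Helper69.MF.UP

/-- The step of an X bit from the local row `e` to `e + 1` is covered by a plain window; `q` tells
the quiet rows. -/
def okX (q : ℕ → Bool) (e : ℕ) : Bool :=
  bif e % 2 == 1 then rhS e && q e && q (e + 1)
  else bif rhS e then Nat.ble 1 e && rhS (e - 1) && rhS (e + 1) && q (e - 1) && q e && q (e + 1) &&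
    q (e + 2) else q e && q (e + 1)

/-- The same for a Y bit. -/
def okY (q : ℕ → Bool) (e : ℕ) : Bool :=
  bif e % 2 == 0 then rhS e && q e && q (e + 1)
  else bif rhS e then Nat.ble 1 e && rhS (e - 1) && rhS (e + 1) && q (e - 1) && q e && q (e + 1) &&
    q (e + 2) else q e && q (e + 1)

section

variable {I : Sys} {pos : Sq → ℕ} (hf : Fold I.pat (rect I.width I.height) pos)
  {b : ℕ} (hb : b < 2 * I.N)

include hf hb

theorem xOne {g e : ℕ} {q : ℕ → Bool} (hq : ∀ e, q e = true → Quiet I b (52 * g + e))
    (hr : 52 * g + e + 3 ≤ I.height) (h : okX q e = true) :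
    bX pos b (52 * g + e) = bX pos b (52 * g + (e + 1)) := by
  unfold okX at h
  rcases Nat.mod_two_eq_zero_or_one e with h2 | h2
  · have hc : (e % 2 == 1) = false := by rw [h2]; rfl
    rw [hc, cond_false] at h
    cases hrh : rhS e
    · rw [hrh, cond_false, Bool.and_eq_true] at h
      exact xStepW hf hb (by omega) (by rw [rh_loc]; exact hrh) (hq _ h.1) (hq _ h.2) (by omega)
    · rw [hrh, cond_true] at h
      simp only [Bool.and_eq_true, Nat.ble_eq] at h
      obtain ⟨⟨⟨⟨⟨⟨h1, h3⟩, h4⟩, h5⟩, h6⟩, h7⟩, h8⟩ := h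
      obtain ⟨d, rfl⟩ := Nat.exists_eq_add_of_le' h1
      simp only [Nat.add_sub_cancel] at h3 h5
      have := xStepP hf hb (r := 52 * g + d) (by omega) ?_ ?_ (by omega)
      · exact this
      · intro i hi
        rw [Nat.add_assoc, rh_loc]
        interval_cases i
        · exact h3
        · exact hrh
        · exact h4
      · intro i hi
        rw [Nat.add_assoc]
        interval_cases i
        · exact hq _ h5
        · exact hq _ h6
        · exact hq _ h7
        · exact hq _ h8
  · have hc : (e % 2 == 1) = true := by rw [h2]; rfl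
    rw [hc, cond_true] at h
    simp only [Bool.and_eq_true] at h
    exact xStepE hf hb (by omega) (by rw [rh_loc]; exact h.1.1) (hq _ h.1.2) (hq _ h.2) (by omega)

theorem yOne {g e : ℕ} {q : ℕ → Bool} (hq : ∀ e, q e = true → Quiet I b (52 * g + e))
    (hr : 52 * g + e + 3 ≤ I.height) (h : okY q e = true) :
    bY pos b (52 * g + e) = bY pos b (52 * g + (e + 1)) := by
  unfold okY at h
  rcases Nat.mod_two_eq_zero_or_one e with h2 | h2
  · have hc : (e % 2 == 0) = true := by rw [h2]; rfl
    rw [hc, cond_true] at h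
    simp only [Bool.and_eq_true] at h
    exact yStepE hf hb (by omega) (by rw [rh_loc]; exact h.1.1) (hq _ h.1.2) (hq _ h.2) (by omega)
  · have hc : (e % 2 == 0) = false := by rw [h2]; rfl
    rw [hc, cond_false] at h
    cases hrh : rhS e
    · rw [hrh, cond_false, Bool.and_eq_true] at h
      exact yStepW hf hb (by omega) (by rw [rh_loc]; exact hrh) (hq _ h.1) (hq _ h.2) (by omega)
    · rw [hrh, cond_true] at h
      simp only [Bool.and_eq_true, Nat.ble_eq] at h
      obtain ⟨⟨⟨⟨⟨⟨h1, h3⟩, h4⟩, h5⟩, h6⟩, h7⟩, h8⟩ := h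
      obtain ⟨d, rfl⟩ := Nat.exists_eq_add_of_le' h1
      simp only [Nat.add_sub_cancel] at h3 h5
      have := yStepP hf hb (r := 52 * g + d) (by omega) ?_ ?_ (by omega)
      · exact this
      · intro i hi
        rw [Nat.add_assoc, rh_loc]
        interval_cases i
        · exact h3
        · exact hrh
        · exact h4
      · intro i hi
        rw [Nat.add_assoc]
        interval_cases i
        · exact hq _ h5
        · exact hq _ h6
        · exact hq _ h7
        · exact hq _ h8

theorem xRun {g a : ℕ} {q : ℕ → Bool} (hq : ∀ e, q e = true → Quiet I b (52 * g + e)) (n : ℕ)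
    (hr : 52 * g + a + n + 2 ≤ I.height) (h : ∀ i < n, okX q (a + i) = true) :
    bX pos b (52 * g + a) = bX pos b (52 * g + (a + n)) := by
  induction n with
  | zero => rfl
  | succ n ih =>
    rw [ih (by omega) (fun i hi => h i (by omega))]
    exact xOne hf hb hq (by omega) (h n (by omega))

theorem yRun {g a : ℕ} {q : ℕ → Bool} (hq : ∀ e, q e = true → Quiet I b (52 * g + e)) (n : ℕ)
    (hr : 52 * g + a + n + 2 ≤ I.height) (h : ∀ i < n, okY q (a + i) = true) :
    bY pos b (52 * g + a) = bY pos b (52 * g + (a + n)) := by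
  induction n with
  | zero => rfl
  | succ n ih =>
    rw [ih (by omega) (fun i hi => h i (by omega))]
    exact yOne hf hb hq (by omega) (h n (by omega))

end

/-- Quiet rows of an X block; `f0`, `f2`: there is no first / third gadget in the block. -/
def qX (f0 f2 : Bool) (e : ℕ) : Bool :=
  (f0 || Nat.blt e 3 || Nat.ble 7 e) && (f2 || Nat.blt e 29 || Nat.ble 33 e) && Nat.blt e 55

/-- Quiet rows of a Y block. -/
def qY (f1 : Bool) (e : ℕ) : Bool := (f1 || Nat.blt e 12 || Nat.ble 16 e) && Nat.blt e 55

section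

variable {I : Sys} {pos : Sq → ℕ}

theorem qX_spec {b g : ℕ} {f0 f2 : Bool} (hb : I.N ≤ b) (h1 : I.lv g 1 < I.N)
    (h0 : f0 = true → b ≠ I.N + I.lv g 0) (h2 : f2 = true → b ≠ I.N + I.lv g 2) :
    ∀ e, qX f0 f2 e = true → Quiet I b (52 * g + e) := by
  intro e he
  unfold qX at he
  simp only [Bool.and_eq_true, Bool.or_eq_true, Nat.blt_eq, Nat.ble_eq] at he
  obtain ⟨⟨he0, he2⟩, he3⟩ := he
  rcases Nat.lt_or_ge e 52 with h52 | h52
  · refine quiet_loc h52 ?_ (Or.inl (by omega)) ?_
    · rcases he0 with (he0 | he0) | he0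
      · exact Or.inl (h0 he0)
      · exact Or.inr (Or.inl he0)
      · exact Or.inr (Or.inr he0)
    · rcases he2 with (he2 | he2) | he2
      · exact Or.inl (h2 he2)
      · exact Or.inr (Or.inl he2)
      · exact Or.inr (Or.inr he2)
  · exact quiet_next h52 he3

theorem qY_spec {b g : ℕ} {f1 : Bool} (hb : b < I.N)
    (h1 : f1 = true → b ≠ I.lv g 1) : ∀ e, qY f1 e = true → Quiet I b (52 * g + e) := by
  intro e he
  unfold qY at he
  simp only [Bool.and_eq_true, Bool.or_eq_true, Nat.blt_eq, Nat.ble_eq] at he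
  obtain ⟨he0, he3⟩ := he
  rcases Nat.lt_or_ge e 52 with h52 | h52
  · refine quiet_loc h52 (Or.inl (by omega)) ?_ (Or.inl (by omega))
    rcases he0 with (he0 | he0) | he0
    · exact Or.inl (h1 he0)
    · exact Or.inr (Or.inl he0)
    · exact Or.inr (Or.inr he0)
  · exact quiet_next h52 he3

variable (hf : Fold I.pat (rect I.width I.height) pos)

include hf

theorem xHardL {b g a : ℕ} (hb : b < 2 * I.N) (hr : 52 * g + a + 10 ≤ I.height)
    (hT : ∀ i < 9, rhS (a + i) = Nat.testBit 495 i)
    {q : ℕ → Bool} (hq : ∀ e, q e = true → Quiet I b (52 * g + e))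
    (hqa : ∀ i < 10, q (a + i) = true) (hp : a % 2 = 1) :
    bX pos b (52 * g + (a + 2)) = bX pos b (52 * g + (a + 7)) := by
  refine xHard hf hb (r := 52 * g + a) (by omega) ?_ ?_ (by omega)
  · intro i hi
    rw [Nat.add_assoc, rh_loc]
    exact hT i hi
  · intro i hi
    rw [Nat.add_assoc]
    exact hq _ (hqa i hi)

theorem yHardL {b g a : ℕ} (hb : b < 2 * I.N) (hr : 52 * g + a + 10 ≤ I.height)
    (hT : ∀ i < 9, rhS (a + i) = Nat.testBit 495 i)
    {q : ℕ → Bool} (hq : ∀ e, q e = true → Quiet I b (52 * g + e))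
    (hqa : ∀ i < 10, q (a + i) = true) (hp : a % 2 = 0) :
    bY pos b (52 * g + (a + 2)) = bY pos b (52 * g + (a + 7)) := by
  refine yHard hf hb (r := 52 * g + a) (by omega) ?_ ?_ (by omega)
  · intro i hi
    rw [Nat.add_assoc, rh_loc]
    exact hT i hi
  · intro i hi
    rw [Nat.add_assoc]
    exact hq _ (hqa i hi)

/-- Persistence of the X bit across the first gadget. -/
theorem xGad0 {b g : ℕ} (hb : b < 2 * I.N) (hbN : b = I.N + I.lv g 0) (h1 : I.lv g 1 < I.N)
    (hr : 52 * g + 9 ≤ I.height) : bX pos b (52 * g + 2) = bX pos b (52 * g + 7) := by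
  have hp : (52 * g + (3 - 2)) % 2 = 1 := by omega
  have hfl := fl_gad0 (I := I) hbN (by omega) h1
  cases hs : I.ls g 0
  · have W := gadWin (I := I) (k := 3) (w := 7) (S := 12) (a := 3) hb (by omega) (by norm_num)
      (by norm_num) (by norm_num)
      (L := [2, 4, 5, 102, 105, 202, 204, 205, 305, 405, 502, 504, 505, 604, 605])
      (fun c hc => by
        have : c < 6 := by omega
        interval_cases c <;> decide) (by decide) false hfl
      (by rw [hs]; decide) hp
    exact W.eqX hf 1 6 (by norm_num) (by norm_num) _ _ xGC0_0 xGC0_1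
  · have W := gadWin (I := I) (k := 3) (w := 7) (S := 12) (a := 3) hb (by omega) (by norm_num)
      (by norm_num) (by norm_num)
      (L := [2, 4, 5, 102, 105, 202, 204, 205, 302, 305, 402, 404, 405, 502, 505, 604, 605])
      (fun c hc => by
        have : c < 6 := by omega
        interval_cases c <;> decide) (by decide) false hfl
      (by rw [hs]; decide) hp
    exact W.eqX hf 1 6 (by norm_num) (by norm_num) _ _ xGC1_0 xGC1_1

/-- Persistence of the X bit across the third gadget. -/
theorem xGad2 {b g : ℕ} (hb : b < 2 * I.N) (hbN : b = I.N + I.lv g 2) (h1 : I.lv g 1 < I.N)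
    (hr : 52 * g + 35 ≤ I.height) : bX pos b (52 * g + 28) = bX pos b (52 * g + 33) := by
  have hp : (52 * g + (29 - 2)) % 2 = 1 := by omega
  have hfl := fl_gad2 (I := I) hbN (by omega) h1
  cases hs : I.ls g 2
  · have W := gadWin (I := I) (k := 3) (w := 7) (S := 12) (a := 29) hb (by omega) (by norm_num)
      (by norm_num) (by norm_num)
      (L := [2, 3, 5, 102, 105, 202, 203, 205, 302, 402, 502, 503, 505, 602, 603])
      (fun c hc => by
        have : c < 6 := by omega
        interval_cases c <;> decide) (by decide) false hfl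
      (by rw [hs]; decide) hp
    exact W.eqX hf 1 6 (by norm_num) (by norm_num) _ _ xGB0_0 xGB0_1
  · have W := gadWin (I := I) (k := 3) (w := 7) (S := 12) (a := 29) hb (by omega) (by norm_num)
      (by norm_num) (by norm_num)
      (L := [2, 3, 5, 102, 105, 202, 203, 205, 302, 305, 402, 403, 405, 502, 505, 602, 603])
      (fun c hc => by
        have : c < 6 := by omega
        interval_cases c <;> decide) (by decide) false hfl
      (by rw [hs]; decide) hp
    exact W.eqX hf 1 6 (by norm_num) (by norm_num) _ _ xGB1_0 xGB1_1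

/-- Persistence of the Y bit across the second gadget. -/
theorem yGad1 {b g : ℕ} (hb : b < 2 * I.N) (hbN : b = I.lv g 1)
    (hr : 52 * g + 18 ≤ I.height) : bY pos b (52 * g + 11) = bY pos b (52 * g + 16) := by
  have hp : (52 * g + (12 - 2)) % 2 = 0 := by omega
  have hfl := fl_gad1 (I := I) hbN
  cases hs : I.ls g 1
  · have W := gadWin (I := I) (k := 3) (w := 7) (S := 12) (a := 12) hb (by omega) (by norm_num)
      (by norm_num) (by norm_num)
      (L := [4, 5, 102, 104, 105, 205, 305, 402, 404, 405, 502, 505, 602, 604, 605])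
      (fun c hc => by
        have : c < 6 := by omega
        interval_cases c <;> decide) (by decide) true hfl
      (by rw [hs]; decide) hp
    exact W.eqY hf 1 6 (by norm_num) (by norm_num) _ _ yGC0_0 yGC0_1
  · have W := gadWin (I := I) (k := 3) (w := 7) (S := 12) (a := 12) hb (by omega) (by norm_num)
      (by norm_num) (by norm_num)
      (L := [4, 5, 102, 105, 202, 204, 205, 302, 305, 402, 404, 405, 502, 505, 602, 604, 605])
      (fun c hc => by
        have : c < 6 := by omega
        interval_cases c <;> decide) (by decide) true hfl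
      (by rw [hs]; decide) hp
    exact W.eqY hf 1 6 (by norm_num) (by norm_num) _ _ yGC1_0 yGC1_1

/-- From the row `52 g + 1` of an X block to the row `52 g + 28`. -/
theorem xTo28 {b g : ℕ} (hb : b < 2 * I.N) (hbN : I.N ≤ b) (h1 : I.lv g 1 < I.N)
    (hr : 52 * g + 53 ≤ I.height) :
    bX pos b (52 * g + 1) = bX pos b (52 * g + 2) ∧
      bX pos b (52 * g + 2) = bX pos b (52 * g + 28) := by
  have hq := qX_spec (I := I) (b := b) (g := g) (f0 := false) (f2 := false) hbN h1 (by simp) (by simp)
  have s1 : bX pos b (52 * g + 1) = bX pos b (52 * g + 2) :=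
    xRun hf hb hq 1 (by omega) (by decide)
  have s2 : bX pos b (52 * g + 2) = bX pos b (52 * g + 7) := by
    by_cases h : b = I.N + I.lv g 0
    · exact xGad0 hf hb h h1 (by omega)
    · exact xRun hf hb (qX_spec (f0 := true) (f2 := false) hbN h1 (fun _ => h) (by simp)) 5
        (by omega) (by decide)
  have s3 : bX pos b (52 * g + 7) = bX pos b (52 * g + 11) := xRun hf hb hq 4 (by omega) (by decide)
  have s4 : bX pos b (52 * g + 11) = bX pos b (52 * g + 16) :=
    xHardL (a := 9) hf hb (by omega) (by decide) hq (by decide) (by norm_num)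
  have s5 : bX pos b (52 * g + 16) = bX pos b (52 * g + 28) :=
    xRun hf hb hq 12 (by omega) (by decide)
  exact ⟨s1, s2.trans (s3.trans (s4.trans s5))⟩

/-- From one group to the next. -/
theorem xNext {b g : ℕ} (hb : b < 2 * I.N) (hbN : I.N ≤ b) (h1 : I.lv g 1 < I.N)
    (hr : 52 * (g + 1) + 53 ≤ I.height) :
    bX pos b (52 * g + 1) = bX pos b (52 * (g + 1) + 1) := by
  have hq := qX_spec (I := I) (b := b) (g := g) (f0 := false) (f2 := false) hbN h1 (by simp) (by simp)
  obtain ⟨s1, s2⟩ := xTo28 hf (g := g) hb hbN h1 (by omega)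
  have s6 : bX pos b (52 * g + 28) = bX pos b (52 * g + 33) := by
    by_cases h : b = I.N + I.lv g 2
    · exact xGad2 hf hb h h1 (by omega)
    · exact xRun hf hb (qX_spec (f0 := false) (f2 := true) hbN h1 (by simp) (fun _ => h)) 5
        (by omega) (by decide)
  have s7 : bX pos b (52 * g + 33) = bX pos b (52 * g + 37) := xRun hf hb hq 4 (by omega) (by decide)
  have s8 : bX pos b (52 * g + 37) = bX pos b (52 * g + 42) :=
    xHardL (a := 35) hf hb (by omega) (by decide) hq (by decide) (by norm_num)
  have s9 : bX pos b (52 * g + 42) = bX pos b (52 * g + 45) := xRun hf hb hq 3 (by omega) (by decide)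
  have s10 : bX pos b (52 * g + 45) = bX pos b (52 * g + 50) :=
    xHardL (a := 43) hf hb (by omega) (by decide) hq (by decide) (by norm_num)
  have s11 : bX pos b (52 * g + 50) = bX pos b (52 * g + 53) :=
    xRun hf hb hq 3 (by omega) (by decide)
  have e : 52 * (g + 1) + 1 = 52 * g + 53 := by omega
  rw [e]
  exact s1.trans (s2.trans (s6.trans (s7.trans (s8.trans (s9.trans (s10.trans s11))))))

/-- From the row `52 g + 1` of a Y block to the row `52 g + 11`. -/
theorem yTo11 {b g : ℕ} (hb : b < I.N) (hr : 52 * g + 53 ≤ I.height) :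
    bY pos b (52 * g + 1) = bY pos b (52 * g + 11) := by
  have hb' : b < 2 * I.N := by omega
  have hq := qY_spec (I := I) (b := b) (g := g) (f1 := false) hb (by simp)
  have s1 : bY pos b (52 * g + 1) = bY pos b (52 * g + 2) :=
    yRun hf hb' hq 1 (by omega) (by decide)
  have s2 : bY pos b (52 * g + 2) = bY pos b (52 * g + 7) :=
    yHardL (a := 0) hf hb' (by omega) (by decide) hq (by decide) (by norm_num)
  have s3 : bY pos b (52 * g + 7) = bY pos b (52 * g + 11) :=
    yRun hf hb' hq 4 (by omega) (by decide)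
  exact s1.trans (s2.trans s3)

theorem yNext {b g : ℕ} (hb : b < I.N) (hr : 52 * (g + 1) + 53 ≤ I.height) :
    bY pos b (52 * g + 1) = bY pos b (52 * (g + 1) + 1) := by
  have hb' : b < 2 * I.N := by omega
  have hq := qY_spec (I := I) (b := b) (g := g) (f1 := false) hb (by simp)
  have s3 := yTo11 hf (g := g) hb (by omega)
  have s4 : bY pos b (52 * g + 11) = bY pos b (52 * g + 16) := by
    by_cases h : b = I.lv g 1
    · exact yGad1 hf hb' h (by omega)
    · exact yRun hf hb' (qY_spec (f1 := true) hb (fun _ => h)) 5 (by omega) (by decide)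
  have s5 : bY pos b (52 * g + 16) = bY pos b (52 * g + 20) :=
    yRun hf hb' hq 4 (by omega) (by decide)
  have s6 : bY pos b (52 * g + 20) = bY pos b (52 * g + 25) :=
    yHardL (a := 18) hf hb' (by omega) (by decide) hq (by decide) (by norm_num)
  have s7 : bY pos b (52 * g + 25) = bY pos b (52 * g + 28) :=
    yRun hf hb' hq 3 (by omega) (by decide)
  have s8 : bY pos b (52 * g + 28) = bY pos b (52 * g + 33) :=
    yHardL (a := 26) hf hb' (by omega) (by decide) hq (by decide) (by norm_num)
  have s9 : bY pos b (52 * g + 33) = bY pos b (52 * g + 53) :=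
    yRun hf hb' hq 20 (by omega) (by decide)
  have e : 52 * (g + 1) + 1 = 52 * g + 53 := by omega
  rw [e]
  exact s3.trans (s4.trans (s5.trans (s6.trans (s7.trans (s8.trans s9)))))

/-- The X bit in the first row of a group. -/
theorem xAll {b : ℕ} (hb : b < 2 * I.N) (hbN : I.N ≤ b) (hw : I.Wf) {g : ℕ} (hg : g < I.M) :
    bX pos b 1 = bX pos b (52 * g + 1) := by
  induction g with
  | zero => rfl
  | succ g ih =>
    rw [ih (by omega)]
    refine xNext hf hb hbN (hw g (by omega) 1 (by norm_num)) ?_
    unfold Sys.height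
    omega

theorem yAll {b : ℕ} (hb : b < I.N) {g : ℕ} (hg : g < I.M) :
    bY pos b 1 = bY pos b (52 * g + 1) := by
  induction g with
  | zero => rfl
  | succ g ih =>
    rw [ih (by omega)]
    refine yNext hf hb ?_
    unfold Sys.height
    omega

end

end Pool.Agent.Helper89.MF
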