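import Pool.Agent.Helper89.MF.Bits

/-!
Map folding: flips of the sheet, windows of the sheet, and the steps of the knot bits.
-/

set_option autoImplicit false

namespace Pool.Agent.Helper89.MF

open Pool.Agent.Helper69.MF Pool.Agent.Helper69.MF.UP

theorem sg_loc (b j : ℕ) : sgS (12 * b + j) = sgS j := by
  unfold sgS
  rw [Nat.mul_add_mod]

theorem rh_loc (g e : ℕ) : rhS (52 * g + e) = rhS e := by
  unfold rhS isWall
  rw [Nat.mul_add_mod]

theorem gadFl_out {G : List ℕ} {a d e : ℕ} (h : e < a ∨ a + 4 ≤ e) : gadFl G a d e = false := by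
  unfold gadFl
  rcases h with h | h
  · have : Nat.ble a e = false := by
      rw [← Bool.not_eq_true, Nat.ble_eq]; omega
    rw [this]; rfl
  · have : Nat.blt e (a + 4) = false := by
      rw [← Bool.not_eq_true, Nat.blt_eq]; omega
    rw [this]; simp

theorem inGad_out {d : ℕ} (h : d < 2 ∨ 10 < d) : inGad d = false := by
  unfold inGad
  rcases h with h | h
  · have : Nat.ble 2 d = false := by
      rw [← Bool.not_eq_true, Nat.ble_eq]; omega
    rw [this]; rfl
  · have : Nat.ble d 10 = false := by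
      rw [← Bool.not_eq_true, Nat.ble_eq]; omega
    rw [this]; simp

section

variable {I : Sys}

theorem fl_false {c g e : ℕ} (he : e < 52)
    (h0 : c / 12 ≠ I.N + I.lv g 0 ∨ c % 12 < 2 ∨ 10 < c % 12 ∨ e < 3 ∨ 7 ≤ e)
    (h1 : c / 12 ≠ I.lv g 1 ∨ c % 12 < 2 ∨ 10 < c % 12 ∨ e < 12 ∨ 16 ≤ e)
    (h2 : c / 12 ≠ I.N + I.lv g 2 ∨ c % 12 < 2 ∨ 10 < c % 12 ∨ e < 29 ∨ 33 ≤ e) :
    I.flS c (52 * g + e) = false := by
  have e1 : (52 * g + e) / 52 = g := by omega
  have e2 : (52 * g + e) % 52 = e := by omega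
  unfold Sys.flS
  rw [e1, e2]
  by_cases hin : c % 12 < 2 ∨ 10 < c % 12
  · rw [inGad_out hin]; rfl
  · have q0 : c / 12 ≠ I.N + I.lv g 0 ∨ e < 3 ∨ 3 + 4 ≤ e := by omega
    have q1 : c / 12 ≠ I.lv g 1 ∨ e < 12 ∨ 12 + 4 ≤ e := by omega
    have q2 : c / 12 ≠ I.N + I.lv g 2 ∨ e < 29 ∨ 29 + 4 ≤ e := by omega
    have z0 : (c / 12 == I.N + I.lv g 0 &&
        gadFl (gadC (I.ls g 0)) 3 (c % 12 - 2) e) = false := by
      rcases q0 with h | h
      · have : (c / 12 == I.N + I.lv g 0) = false := by simpa using h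
        rw [this]; rfl
      · rw [gadFl_out h]; simp
    have z1 : (c / 12 == I.lv g 1 &&
        gadFl (gadC (I.ls g 1)) 12 (10 - c % 12) e) = false := by
      rcases q1 with h | h
      · have : (c / 12 == I.lv g 1) = false := by simpa using h
        rw [this]; rfl
      · rw [gadFl_out h]; simp
    have z2 : (c / 12 == I.N + I.lv g 2 &&
        gadFl (gadB (I.ls g 2)) 29 (c % 12 - 2) e) = false := by
      rcases q2 with h | h
      · have : (c / 12 == I.N + I.lv g 2) = false := by simpa using h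
        rw [this]; rfl
      · rw [gadFl_out h]; simp
    rw [z0, z1, z2]
    simp

/-- Nothing is flipped in the block `b` in the row `r`. -/
def Quiet (I : Sys) (b r : ℕ) : Prop := ∀ j < 12, I.flS (12 * b + j) r = false

theorem quiet_loc {b g e : ℕ} (he : e < 52) (h0 : b ≠ I.N + I.lv g 0 ∨ e < 3 ∨ 7 ≤ e)
    (h1 : b ≠ I.lv g 1 ∨ e < 12 ∨ 16 ≤ e) (h2 : b ≠ I.N + I.lv g 2 ∨ e < 29 ∨ 33 ≤ e) :
    Quiet I b (52 * g + e) := by
  intro j hj
  have e1 : (12 * b + j) / 12 = b := by omega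
  refine fl_false he ?_ ?_ ?_ <;> rw [e1] <;> tauto

/-- The first rows of the next group are quiet. -/
theorem quiet_next {b g e : ℕ} (he : 52 ≤ e) (he' : e < 55) : Quiet I b (52 * g + e) := by
  have : 52 * g + e = 52 * (g + 1) + (e - 52) := by omega
  rw [this]
  exact quiet_loc (by omega) (by omega) (by omega) (by omega)

/-- The window over the knot of a quiet block. -/
theorem knotWin {b r0 h T p : ℕ} (hb : b < 2 * I.N) (hh : h ≤ 100) (hr : r0 + h ≤ I.height)
    (hT : ∀ r, r + 1 < h → rhS (r0 + r) = Nat.testBit T r)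
    (hQ : ∀ r < h, Quiet I b (r0 + r)) (hp : r0 % 2 = p) :
    Win I 7 h (12 * b + 3) r0 12 T [] p where
  hh := hh
  hc := by unfold Sys.width; omega
  hr := hr
  hS := by
    intro c hc
    rw [Nat.add_assoc, sg_loc]
    have : c < 6 := by omega
    interval_cases c <;> decide
  hT := hT
  hL := by
    intro c r hc hr
    rw [Nat.add_assoc, hQ r hr (3 + c) (by omega)]
    rfl
  hp := hp

/-- The window over a gadget. -/
theorem gadWin {b g k w S a p : ℕ} {L G : List ℕ} (hb : b < 2 * I.N) (hg : 52 * g + a + 6 ≤ I.height)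
    (ha : 2 ≤ a) (ha' : a + 6 ≤ 52) (hkw : k + w ≤ 12)
    (hS : ∀ c, c + 1 < w → sgS (k + c) = Nat.testBit S c)
    (hT : ∀ r < 7, rhS (a - 2 + r) = Nat.testBit 119 r)
    (mir : Bool)
    (hG : ∀ j < 12, ∀ r < 8, I.flS (12 * b + j) (52 * g + (a - 2 + r)) =
      (inGad j && gadFl G a (bif mir then 10 - j else j - 2) (a - 2 + r)))
    (hL : ∀ c < w, ∀ r < 8, (inGad (k + c) &&
      gadFl G a (bif mir then 10 - (k + c) else k + c - 2) (a - 2 + r)) = L.contains (100 * c + r))
    (hp : (52 * g + (a - 2)) % 2 = p) :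
    Win I w 8 (12 * b + k) (52 * g + (a - 2)) S 119 L p where
  hh := by norm_num
  hc := by unfold Sys.width; omega
  hr := by omega
  hS := by
    intro c hc
    rw [Nat.add_assoc, sg_loc]
    exact hS c hc
  hT := by
    intro r hr
    rw [Nat.add_assoc, rh_loc]
    exact hT r (by omega)
  hL := by
    intro c r hc hr
    rw [Nat.add_assoc, Nat.add_assoc, hG (k + c) (by omega) r hr]
    exact hL c hc r hr
  hp := hp

/-- The flips of the first gadget. -/
theorem fl_gad0 {b g : ℕ} (hb : b = I.N + I.lv g 0) (hN : I.N ≤ b) (h1 : I.lv g 1 < I.N) :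
    ∀ j < 12, ∀ r < 8, I.flS (12 * b + j) (52 * g + (3 - 2 + r)) =
      (inGad j && gadFl (gadC (I.ls g 0)) 3 (bif false then 10 - j else j - 2) (3 - 2 + r)) := by
  intro j hj r hr
  have e1 : (12 * b + j) / 12 = b := by omega
  have e1' : (12 * b + j) % 12 = j := by omega
  have e2 : (52 * g + (3 - 2 + r)) / 52 = g := by omega
  have e3 : (52 * g + (3 - 2 + r)) % 52 = 3 - 2 + r := by omega
  unfold Sys.flS
  rw [e1, e1', e2, e3]
  rw [gadFl_out (a := 12) (Or.inl (by omega)), gadFl_out (a := 29) (Or.inl (by omega))]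
  have : (b == I.N + I.lv g 0) = true := by simpa using hb
  rw [this]
  simp

/-- The flips of the third gadget. -/
theorem fl_gad2 {b g : ℕ} (hb : b = I.N + I.lv g 2) (hN : I.N ≤ b) (h1 : I.lv g 1 < I.N) :
    ∀ j < 12, ∀ r < 8, I.flS (12 * b + j) (52 * g + (29 - 2 + r)) =
      (inGad j && gadFl (gadB (I.ls g 2)) 29 (bif false then 10 - j else j - 2) (29 - 2 + r)) := by
  intro j hj r hr
  have e1 : (12 * b + j) / 12 = b := by omega
  have e1' : (12 * b + j) % 12 = j := by omega
  have e2 : (52 * g + (29 - 2 + r)) / 52 = g := by omega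
  have e3 : (52 * g + (29 - 2 + r)) % 52 = 29 - 2 + r := by omega
  unfold Sys.flS
  rw [e1, e1', e2, e3]
  rw [gadFl_out (a := 12) (Or.inr (by omega)), gadFl_out (a := 3) (Or.inr (by omega))]
  have : (b == I.N + I.lv g 2) = true := by simpa using hb
  rw [this]
  simp

/-- The flips of the second gadget. -/
theorem fl_gad1 {b g : ℕ} (hb : b = I.lv g 1) :
    ∀ j < 12, ∀ r < 8, I.flS (12 * b + j) (52 * g + (12 - 2 + r)) =
      (inGad j && gadFl (gadC (I.ls g 1)) 12 (bif true then 10 - j else j - 2) (12 - 2 + r)) := by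
  intro j hj r hr
  have e1 : (12 * b + j) / 12 = b := by omega
  have e1' : (12 * b + j) % 12 = j := by omega
  have e2 : (52 * g + (12 - 2 + r)) / 52 = g := by omega
  have e3 : (52 * g + (12 - 2 + r)) % 52 = 12 - 2 + r := by omega
  unfold Sys.flS
  rw [e1, e1', e2, e3]
  rw [gadFl_out (a := 29) (Or.inl (by omega)), gadFl_out (a := 3) (Or.inr (by omega))]
  have : (b == I.lv g 1) = true := by simpa using hb
  rw [this]
  simp

end

/-- The bit of an X knot. -/
def bX (pos : Sq → ℕ) (b r : ℕ) : Bool := bit pos (12 * b + 4) (12 * b + 6) r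

/-- The bit of a Y knot. -/
def bY (pos : Sq → ℕ) (b r : ℕ) : Bool := bit pos (12 * b + 6) (12 * b + 8) r

section

variable {I : Sys} {pos : Sq → ℕ}

theorem Win.eqX {h r0 T p b : ℕ} {L : List ℕ} (W : Win I 7 h (12 * b + 3) r0 12 T L p)
    (hf : Fold I.pat (rect I.width I.height) pos) (r r' : ℕ) (hr : r < h) (hr' : r' < h)
    (t0 t1 : Tr)
    (h0 : t0.chk 7 h 12 T L p [fb p 1 3 r false, fb p 1 3 r' true] = true)
    (h1 : t1.chk 7 h 12 T L p [fb p 1 3 r true, fb p 1 3 r' false] = true) :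
    bX pos b (r0 + r) = bX pos b (r0 + r') := by
  have := W.eqbit hf 1 3 r r' (by norm_num) (by norm_num) (by norm_num) hr hr' t0 t1 h0 h1
  simp only [Nat.add_assoc, Nat.reduceAdd] at this
  exact this

theorem Win.eqY {h r0 T p b : ℕ} {L : List ℕ} (W : Win I 7 h (12 * b + 3) r0 12 T L p)
    (hf : Fold I.pat (rect I.width I.height) pos) (r r' : ℕ) (hr : r < h) (hr' : r' < h)
    (t0 t1 : Tr)
    (h0 : t0.chk 7 h 12 T L p [fb p 3 5 r false, fb p 3 5 r' true] = true)
    (h1 : t1.chk 7 h 12 T L p [fb p 3 5 r true, fb p 3 5 r' false] = true) :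
    bY pos b (r0 + r) = bY pos b (r0 + r') := by
  have := W.eqbit hf 3 5 r r' (by norm_num) (by norm_num) (by norm_num) hr hr' t0 t1 h0 h1
  simp only [Nat.add_assoc, Nat.reduceAdd] at this
  exact this

variable (hf : Fold I.pat (rect I.width I.height) pos) {b : ℕ} (hb : b < 2 * I.N)

include hf hb

theorem xStepE {r : ℕ} (hr : r + 2 ≤ I.height) (hT : rhS r = true)
    (q0 : Quiet I b r) (q1 : Quiet I b (r + 1)) (hp : r % 2 = 1) : bX pos b r = bX pos b (r + 1) := by
  have W : Win I 7 2 (12 * b + 3) r 12 1 [] 1 := by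
    refine knotWin hb (by norm_num) hr ?_ ?_ hp
    · intro i hi
      have : i = 0 := by omega
      subst this; rw [Nat.add_zero, hT]; rfl
    · intro i hi
      interval_cases i
      · exact q0
      · exact q1
  exact W.eqX hf 0 1 (by norm_num) (by norm_num) _ _ xE_0 xE_1

theorem xStepW {r : ℕ} (hr : r + 2 ≤ I.height) (hT : rhS r = false)
    (q0 : Quiet I b r) (q1 : Quiet I b (r + 1)) (hp : r % 2 = 0) : bX pos b r = bX pos b (r + 1) := by
  have W : Win I 7 2 (12 * b + 3) r 12 0 [] 0 := by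
    refine knotWin hb (by norm_num) hr ?_ ?_ hp
    · intro i hi
      have : i = 0 := by omega
      subst this; rw [Nat.add_zero, hT]; rfl
    · intro i hi
      interval_cases i
      · exact q0
      · exact q1
  exact W.eqX hf 0 1 (by norm_num) (by norm_num) _ _ xW_0 xW_1

theorem xStepP {r : ℕ} (hr : r + 4 ≤ I.height) (hT : ∀ i < 3, rhS (r + i) = true)
    (hq : ∀ i < 4, Quiet I b (r + i)) (hp : r % 2 = 1) :
    bX pos b (r + 1) = bX pos b (r + 2) := by
  have W : Win I 7 4 (12 * b + 3) r 12 7 [] 1 := by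
    refine knotWin hb (by norm_num) hr ?_ hq hp
    intro i hi
    have h3 : i < 3 := by omega
    rw [hT i h3]
    interval_cases i <;> rfl
  exact W.eqX hf 1 2 (by norm_num) (by norm_num) _ _ xP_0 xP_1

theorem xHard {r : ℕ} (hr : r + 10 ≤ I.height) (hT : ∀ i < 9, rhS (r + i) = Nat.testBit 495 i)
    (hq : ∀ i < 10, Quiet I b (r + i)) (hp : r % 2 = 1) :
    bX pos b (r + 2) = bX pos b (r + 7) := by
  have W : Win I 7 10 (12 * b + 3) r 12 495 [] 1 :=
    knotWin hb (by norm_num) hr (fun i hi => hT i (by omega)) hq hp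
  exact W.eqX hf 2 7 (by norm_num) (by norm_num) _ _ xH_0 xH_1

theorem yStepE {r : ℕ} (hr : r + 2 ≤ I.height) (hT : rhS r = true)
    (q0 : Quiet I b r) (q1 : Quiet I b (r + 1)) (hp : r % 2 = 0) : bY pos b r = bY pos b (r + 1) := by
  have W : Win I 7 2 (12 * b + 3) r 12 1 [] 0 := by
    refine knotWin hb (by norm_num) hr ?_ ?_ hp
    · intro i hi
      have : i = 0 := by omega
      subst this; rw [Nat.add_zero, hT]; rfl
    · intro i hi
      interval_cases i
      · exact q0
      · exact q1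
  exact W.eqY hf 0 1 (by norm_num) (by norm_num) _ _ yE_0 yE_1

theorem yStepW {r : ℕ} (hr : r + 2 ≤ I.height) (hT : rhS r = false)
    (q0 : Quiet I b r) (q1 : Quiet I b (r + 1)) (hp : r % 2 = 1) : bY pos b r = bY pos b (r + 1) := by
  have W : Win I 7 2 (12 * b + 3) r 12 0 [] 1 := by
    refine knotWin hb (by norm_num) hr ?_ ?_ hp
    · intro i hi
      have : i = 0 := by omega
      subst this; rw [Nat.add_zero, hT]; rfl
    · intro i hi
      interval_cases i
      · exact q0
      · exact q1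
  exact W.eqY hf 0 1 (by norm_num) (by norm_num) _ _ yW_0 yW_1

theorem yStepP {r : ℕ} (hr : r + 4 ≤ I.height) (hT : ∀ i < 3, rhS (r + i) = true)
    (hq : ∀ i < 4, Quiet I b (r + i)) (hp : r % 2 = 0) :
    bY pos b (r + 1) = bY pos b (r + 2) := by
  have W : Win I 7 4 (12 * b + 3) r 12 7 [] 0 := by
    refine knotWin hb (by norm_num) hr ?_ hq hp
    intro i hi
    have h3 : i < 3 := by omega
    rw [hT i h3]
    interval_cases i <;> rfl
  exact W.eqY hf 1 2 (by norm_num) (by norm_num) _ _ yP_0 yP_1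

theorem yHard {r : ℕ} (hr : r + 10 ≤ I.height) (hT : ∀ i < 9, rhS (r + i) = Nat.testBit 495 i)
    (hq : ∀ i < 10, Quiet I b (r + i)) (hp : r % 2 = 0) :
    bY pos b (r + 2) = bY pos b (r + 7) := by
  have W : Win I 7 10 (12 * b + 3) r 12 495 [] 0 :=
    knotWin hb (by norm_num) hr (fun i hi => hT i (by omega)) hq hp
  exact W.eqY hf 2 7 (by norm_num) (by norm_num) _ _ yH_0 yH_1

end

end Pool.Agent.Helper89.MF
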