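import Pool.Agent.Helper69.MF.UPG

/-!
Map folding: window certificates with case distinctions.
-/

set_option autoImplicit false

namespace Pool.Agent.Helper89.MF

open Pool.Agent.Helper69.MF Pool.Agent.Helper69.MF.UP

/-- A refutation tree: case distinctions on the comparison of two squares, with unit propagation
certificates at the leaves. -/
inductive Tr where
  | leaf (l : List (Bool × ℕ)) (st : List Stp) (i j : ℕ)
  | split (a b : ℕ) (t u : Tr)

def okSq (w h a : ℕ) : Bool := Nat.blt (a / 100) w && Nat.blt (a % 100) h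

def Tr.chk (w h S T : ℕ) (L : List ℕ) (p : ℕ) : List (ℕ × ℕ) → Tr → Bool
  | asm, .leaf l st i j => chkG w h S T L p l asm st i j
  | asm, .split a b t u => okSq w h a && okSq w h b && !(a == b) &&
      t.chk w h S T L p ((a, b) :: asm) && u.chk w h S T L p ((b, a) :: asm)

theorem sq_inj {c0 r0 a b : ℕ} (h : a ≠ b) : UP.sq c0 r0 a ≠ UP.sq c0 r0 b := by
  intro e
  unfold UP.sq at e
  rw [Prod.mk.injEq] at e
  apply h
  omega

theorem refuteT {sg rh : ℕ → Bool} {fl : ℕ → ℕ → Bool} {R : Set Sq} {pos : Sq → ℕ}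
    (hf : Fold (mkPat sg rh fl) R pos) (c0 r0 w h S T : ℕ) (L : List ℕ) (p : ℕ)
    (hR : ∀ c r, c < w → r < h → (c0 + c, r0 + r) ∈ R)
    (hS : ∀ c, c + 1 < w → sg (c0 + c) = Nat.testBit S c)
    (hT : ∀ r, r + 1 < h → rh (r0 + r) = Nat.testBit T r)
    (hL : ∀ c r, c < w → r < h → fl (c0 + c) (r0 + r) = L.contains (100 * c + r))
    (hp : r0 % 2 = p) (t : Tr) (asm : List (ℕ × ℕ))
    (hc : t.chk w h S T L p asm = true)
    (hasm : ∀ f ∈ asm, Holds pos c0 r0 f) : False := by
  induction t generalizing asm with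
  | leaf l st i j => exact refuteG hf c0 r0 w h S T L p hR hS hT hL hp l asm st i j hc hasm
  | split a b t u iht ihu =>
    simp only [Tr.chk, Bool.and_eq_true, Bool.not_eq_true', beq_eq_false_iff_ne] at hc
    obtain ⟨⟨⟨⟨ha, hb⟩, hab⟩, ht⟩, hu⟩ := hc
    have mem : ∀ x, okSq w h x = true → UP.sq c0 r0 x ∈ R := by
      intro x hx
      simp only [okSq, Bool.and_eq_true, Nat.blt_eq] at hx
      exact hR _ _ hx.1 hx.2
    rcases Nat.lt_trichotomy (pos (UP.sq c0 r0 a)) (pos (UP.sq c0 r0 b)) with h1 | h1 | h1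
    · refine iht _ ht ?_
      intro f hf'
      rcases List.mem_cons.1 hf' with rfl | hf'
      · exact h1
      · exact hasm f hf'
    · exact sq_inj hab (hf.inj _ (mem a ha) _ (mem b hb) h1)
    · refine ihu _ hu ?_
      intro f hf'
      rcases List.mem_cons.1 hf' with rfl | hf'
      · exact h1
      · exact hasm f hf'

end Pool.Agent.Helper89.MF
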